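import Pool.Agent.E8helper43.BE.Tens

set_option autoImplicit false

/-!
# The Casimir identity on the exterior algebra of a space of matrices
-/

namespace Pool.Agent.E8helper43.BE

open Pool.Agent.W650 Pool.Agent.E8helper33.BE Finset

noncomputable section

variable {a b : ℕ}

/-- creation -/
abbrev cc (x : Fin a) (y : Fin b) : KT ℂ (a * b) →ₗ[ℂ] KT ℂ (a * b) :=
  Cr (k := ℂ) (M := ℂ) (a * b) (ix x y : Fin (a * b))

/-- annihilation -/
abbrev aa (x : Fin a) (y : Fin b) : KT ℂ (a * b) →ₗ[ℂ] KT ℂ (a * b) :=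
  An (k := ℂ) (M := ℂ) (a * b) (ix x y : Fin (a * b))

theorem dG_row (x x' : Fin a) (v : KT ℂ (a * b)) :
    dG ℂ ℂ (tens (Matrix.single x x' (1 : ℂ)) 0 : Mat (a * b)) v = ∑ y : Fin b, cc x y (aa x' y v) := by
  rw [dG_apply, sum_ix, sum_eq_single x]
  · refine sum_congr rfl fun y _ => ?_
    rw [sum_ix, sum_eq_single x', sum_eq_single y]
    · rw [tens_ix, if_pos rfl, Matrix.single_apply_same, Matrix.zero_apply, ite_self, add_zero,
        one_smul]
    · intro v' _ hv
      rw [tens_ix, if_neg hv.symm, Matrix.zero_apply, ite_self, add_zero, zero_smul]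
    · simp
    · intro u _ hu
      refine sum_eq_zero fun v' _ => ?_
      rw [tens_ix, Matrix.single_apply, if_neg (fun h : x = x ∧ x' = u => hu h.2.symm),
        Matrix.zero_apply, ite_self, ite_self, add_zero, zero_smul]
    · simp
  · intro u _ hu
    refine sum_eq_zero fun y _ => ?_
    rw [sum_ix]
    refine sum_eq_zero fun u' _ => sum_eq_zero fun v' _ => ?_
    rw [tens_ix, Matrix.single_apply, if_neg (fun h : x = u ∧ x' = u' => hu h.1.symm),
      Matrix.zero_apply, ite_self, ite_self, add_zero, zero_smul]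
  · simp

theorem dG_col (y y' : Fin b) (v : KT ℂ (a * b)) :
    dG ℂ ℂ (tens 0 (Matrix.single y y' (1 : ℂ)) : Mat (a * b)) v = ∑ x : Fin a, cc x y (aa x y' v) := by
  rw [dG_apply, sum_ix]
  refine sum_congr rfl fun x _ => ?_
  rw [sum_eq_single y]
  · rw [sum_ix, sum_eq_single x, sum_eq_single y']
    · rw [tens_ix, if_pos rfl, Matrix.single_apply_same, Matrix.zero_apply, ite_self, zero_add,
        one_smul]
    · intro v' _ hv
      rw [tens_ix, Matrix.single_apply, if_neg (fun h : y = y ∧ y' = v' => hv h.2.symm),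
        Matrix.zero_apply, ite_self, ite_self, add_zero, zero_smul]
    · simp
    · intro u _ hu
      refine sum_eq_zero fun v' _ => ?_
      rw [tens_ix, if_neg hu.symm, Matrix.zero_apply, ite_self, add_zero, zero_smul]
    · simp
  · intro u _ hu
    rw [sum_ix]
    refine sum_eq_zero fun u' _ => sum_eq_zero fun v' _ => ?_
    rw [tens_ix, Matrix.single_apply, if_neg (fun h : y = u ∧ y' = v' => hu h.1.symm),
      Matrix.zero_apply, ite_self, ite_self, add_zero, zero_smul]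
  · simp

theorem val_ix_inj {x x' : Fin a} {y y' : Fin b}
    (h : ((ix x y : Fin (a * b)) : ℕ) = ((ix x' y' : Fin (a * b)) : ℕ)) : x = x' ∧ y = y' :=
  ix_inj (Fin.ext h)

theorem aa_cc (x x' : Fin a) (y y' : Fin b) (v : KT ℂ (a * b)) :
    aa x y (cc x' y' v) = (if x = x' ∧ y = y' then v else 0) - cc x' y' (aa x y v) := by
  have h := An_Cr (k := ℂ) (M := ℂ) (n := a * b) (i := (ix x y : Fin (a * b)))
    (j := ((ix x' y' : Fin (a * b)) : ℕ)) (ix x y : Fin (a * b)).2 v
  rw [h]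
  congr 1
  by_cases hxy : x = x' ∧ y = y'
  · rw [if_pos hxy, if_pos (by rw [hxy.1, hxy.2])]
  · rw [if_neg hxy, if_neg (fun h' => hxy (val_ix_inj h'))]

/-- the number operator -/
def nn (v : KT ℂ (a * b)) : KT ℂ (a * b) := ∑ x : Fin a, ∑ y : Fin b, cc x y (aa x y v)

theorem reorder {V : Type*} [AddCommMonoid V] (f : Fin a → Fin a → Fin b → Fin b → V) :
    ∑ y, ∑ y', ∑ x, ∑ x', f x x' y y' = ∑ x, ∑ x', ∑ y, ∑ y', f x x' y y' := by
  rw [sum_congr rfl fun y _ => sum_comm, sum_comm]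
  refine sum_congr rfl fun x _ => ?_
  rw [sum_congr rfl fun y _ => sum_comm, sum_comm]

theorem casimir' (v : KT ℂ (a * b)) :
    (∑ x : Fin a, ∑ x' : Fin a, ∑ y : Fin b, cc x y (aa x' y (∑ y' : Fin b, cc x' y' (aa x y' v)))) +
      (∑ y : Fin b, ∑ y' : Fin b, ∑ x : Fin a, cc x y (aa x y' (∑ x' : Fin a, cc x' y' (aa x' y v)))) =
      (((a : ℤ) + b : ℤ) : ℂ) • nn v := by
  have h1 : ∀ (x x' : Fin a) (y : Fin b), cc x y (aa x' y (∑ y' : Fin b, cc x' y' (aa x y' v))) =
      ∑ y' : Fin b, ((if y = y' then cc x y (aa x y v) else 0) -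
        cc x y (cc x' y' (aa x' y (aa x y' v)))) := by
    intro x x' y
    rw [map_sum, map_sum]
    refine sum_congr rfl fun y' _ => ?_
    rw [aa_cc, map_sub]
    congr 1
    by_cases h : y = y'
    · subst h; simp
    · rw [if_neg h, if_neg (fun h' => h h'.2), map_zero]
  have h2 : ∀ (y y' : Fin b) (x : Fin a), cc x y (aa x y' (∑ x' : Fin a, cc x' y' (aa x' y v))) =
      ∑ x' : Fin a, ((if x = x' then cc x y (aa x y v) else 0) +
        cc x y (cc x' y' (aa x' y (aa x y' v)))) := by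
    intro y y' x
    rw [map_sum, map_sum]
    refine sum_congr rfl fun x' _ => ?_
    rw [aa_cc, map_sub, sub_eq_add_neg]
    congr 1
    · by_cases h : x = x'
      · subst h; simp
      · rw [if_neg h, if_neg (fun h' => h h'.1), map_zero]
    · have h3 : aa x y' (aa x' y v) = -(aa x' y (aa x y' v)) := An_An _ _ _ _
      rw [h3, map_neg, map_neg, neg_neg]
  simp_rw [h1, h2]
  rw [reorder fun (x x' : Fin a) (y y' : Fin b) => ((if x = x' then cc x y (aa x y v) else 0) +
        cc x y (cc x' y' (aa x' y (aa x y' v))))]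
  simp_rw [sum_add_distrib, sum_sub_distrib]
  rw [sub_add_add_cancel]
  have hA : ∑ x : Fin a, ∑ _x' : Fin a, ∑ y : Fin b, ∑ y' : Fin b,
      (if y = y' then cc x y (aa x y v) else 0) = (a : ℂ) • nn v := by
    simp only [sum_ite_eq, mem_univ, if_true, sum_const, card_univ, Fintype.card_fin]
    rw [← smul_sum, ← Nat.cast_smul_eq_nsmul ℂ]
    rfl
  have hB : ∑ x : Fin a, ∑ x' : Fin a, ∑ y : Fin b, ∑ _y' : Fin b,
      (if x = x' then cc x y (aa x y v) else 0) = (b : ℂ) • nn v := by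
    have e : ∀ x : Fin a, ∑ x' : Fin a, ∑ y : Fin b, ∑ _y' : Fin b,
        (if x = x' then cc x y (aa x y v) else 0) = (b : ℂ) • ∑ y : Fin b, cc x y (aa x y v) := by
      intro x
      rw [sum_eq_single x]
      · simp only [if_true, sum_const, card_univ, Fintype.card_fin]
        rw [← smul_sum, ← Nat.cast_smul_eq_nsmul ℂ]
      · intro x' _ hx
        refine sum_eq_zero fun y _ => sum_eq_zero fun y' _ => if_neg hx.symm
      · simp
    rw [sum_congr rfl fun x _ => e x, ← smul_sum]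
    rfl
  rw [hA, hB, ← add_smul]
  push_cast
  rfl

section vec

variable {l : List ℕ}

/-- the indicator function of a list -/
def kf (l : List ℕ) (x : Fin a) (y : Fin b) : ℤ :=
  if ((ix x y : Fin (a * b)) : ℕ) ∈ l then 1 else 0

theorem kf_or (x : Fin a) (y : Fin b) : kf l x y = 0 ∨ kf l x y = 1 := by
  unfold kf
  split_ifs <;> simp

theorem kf_one (x : Fin a) (y : Fin b) : kf l x y = 1 ↔ ((ix x y : Fin (a * b)) : ℕ) ∈ l := by
  unfold kf
  split_ifs with h <;> simp [h]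

theorem num_vL (x : Fin a) (y : Fin b) :
    cc x y (aa x y (vL ℂ (a * b) l (1 : ℂ))) = ((kf l x y : ℤ) : ℂ) • vL ℂ (a * b) l (1 : ℂ) := by
  by_cases h : ((ix x y : Fin (a * b)) : ℕ) ∈ l
  · have h1 := An_Cr_self (k := ℂ) (a * b) (ix x y : Fin (a * b)) (ix x y : Fin (a * b)).2
      (vL ℂ (a * b) l (1 : ℂ))
    rw [Cr_vL (a * b) (ix x y : Fin (a * b)) 1 l h, map_zero] at h1
    rw [(kf_one x y).2 h, ← sub_eq_zero.1 h1.symm]
    simp
  · have h2 : kf l x y = 0 := by
      unfold kf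
      rw [if_neg h]
    rw [An_vL (a * b) (ix x y : Fin (a * b)) 1 l h, map_zero, h2]
    simp

/-- the span of the lowered raised vectors -/
def SS (l : List ℕ) : Submodule ℂ (KT ℂ (a * b)) :=
  Submodule.span ℂ {x | ∃ A ∈ GG a b, ∃ B ∈ GG a b, IsUpp B ∧
      x = dG ℂ ℂ A (dG ℂ ℂ B (vL ℂ (a * b) l (1 : ℂ)))}

theorem upp_row {x x' : Fin a} (h : x < x') :
    IsUpp (tens (Matrix.single x x' (1 : ℂ)) 0 : Mat (a * b)) := by
  intro i j hij
  rw [← ix_eta i, ← ix_eta j] at hij ⊢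
  rw [tens_ix, Matrix.zero_apply, ite_self, add_zero]
  by_cases hc : cl' i = cl' j
  · rw [if_pos hc, Matrix.single_apply, if_neg]
    rintro ⟨h1, h2⟩
    rw [hc, ← h1, ← h2] at hij
    exact absurd (ix_lt_row.2 h) (not_lt.2 hij)
  · rw [if_neg hc]

theorem upp_col {y y' : Fin b} (h : y < y') :
    IsUpp (tens 0 (Matrix.single y y' (1 : ℂ)) : Mat (a * b)) := by
  intro i j hij
  rw [← ix_eta i, ← ix_eta j] at hij ⊢
  rw [tens_ix, Matrix.zero_apply, ite_self, zero_add]
  by_cases hc : rw' i = rw' j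
  · rw [if_pos hc, Matrix.single_apply, if_neg]
    rintro ⟨h1, h2⟩
    rw [hc, ← h1, ← h2] at hij
    exact absurd (ix_lt_col.2 h) (not_lt.2 hij)
  · rw [if_neg hc]

theorem row_mem (x x' : Fin a) :
    (∑ y : Fin b, cc x y (aa x' y (∑ y' : Fin b, cc x' y' (aa x y' (vL ℂ (a * b) l (1 : ℂ)))))) -
      (((if x < x' then ∑ y : Fin b, kf l x y - ∑ y : Fin b, kf l x' y else 0) +
        (if x = x' then (∑ y : Fin b, kf l x y) ^ 2 else 0) : ℤ) : ℂ) • vL ℂ (a * b) l (1 : ℂ) ∈
      (SS l : Submodule ℂ (KT ℂ (a * b))) := by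
  have hd : ∀ u : Fin a, dG ℂ ℂ (tens (Matrix.single u u (1 : ℂ)) 0 : Mat (a * b))
      (vL ℂ (a * b) l (1 : ℂ)) = ((∑ y : Fin b, kf l u y : ℤ) : ℂ) • vL ℂ (a * b) l (1 : ℂ) := by
    intro u
    rw [dG_row, sum_congr rfl fun y _ => num_vL u y, ← sum_smul]
    push_cast
    rfl
  rw [← dG_row x x', ← dG_row x' x]
  rcases lt_trichotomy x x' with h | h | h
  · rw [if_pos h, if_neg h.ne, add_zero, dG_comm, tens_mul_sub, add_sub_right_comm]
    refine Submodule.add_mem _ ?_ (Submodule.subset_span ⟨_, ⟨_, _, rfl⟩, _, ⟨_, _, rfl⟩, upp_row h, rfl⟩)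
    have e1 : (Matrix.single x x' (1 : ℂ) * Matrix.single x' x 1 -
        Matrix.single x' x 1 * Matrix.single x x' 1 : Matrix (Fin a) (Fin a) ℂ) =
        Matrix.single x x 1 - Matrix.single x' x' 1 := by
      rw [Matrix.single_mul_single_same, Matrix.single_mul_single_same, mul_one]
    have e2 : (tens (Matrix.single x x (1 : ℂ) - Matrix.single x' x' 1)
        ((0 : Matrix (Fin b) (Fin b) ℂ) * 0 - 0 * 0) : Mat (a * b)) =
        tens (Matrix.single x x (1 : ℂ)) 0 - tens (Matrix.single x' x' (1 : ℂ)) 0 := by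
      rw [sub_eq_add_neg (tens _ _), ← neg_one_smul ℂ (tens (Matrix.single x' x' (1 : ℂ)) 0),
        tens_smul, tens_add]
      simp [sub_eq_add_neg]
    rw [e1, e2, dG_sub, hd, hd, ← sub_smul]
    push_cast
    rw [sub_self]
    exact Submodule.zero_mem _
  · subst h
    rw [if_neg (lt_irrefl _), if_pos rfl, zero_add, hd, map_smul, hd, smul_smul]
    push_cast
    rw [← sq, sub_self]
    exact Submodule.zero_mem _
  · rw [if_neg (lt_asymm h), if_neg h.ne', add_zero]
    push_cast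
    rw [zero_smul, sub_zero]
    exact Submodule.subset_span ⟨_, ⟨_, _, rfl⟩, _, ⟨_, _, rfl⟩, upp_row h, rfl⟩

theorem col_mem (y y' : Fin b) :
    (∑ x : Fin a, cc x y (aa x y' (∑ x' : Fin a, cc x' y' (aa x' y (vL ℂ (a * b) l (1 : ℂ)))))) -
      (((if y < y' then ∑ x : Fin a, kf l x y - ∑ x : Fin a, kf l x y' else 0) +
        (if y = y' then (∑ x : Fin a, kf l x y) ^ 2 else 0) : ℤ) : ℂ) • vL ℂ (a * b) l (1 : ℂ) ∈
      (SS l : Submodule ℂ (KT ℂ (a * b))) := by
  have hd : ∀ u : Fin b, dG ℂ ℂ (tens 0 (Matrix.single u u (1 : ℂ)) : Mat (a * b))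
      (vL ℂ (a * b) l (1 : ℂ)) = ((∑ x : Fin a, kf l x u : ℤ) : ℂ) • vL ℂ (a * b) l (1 : ℂ) := by
    intro u
    rw [dG_col, sum_congr rfl fun x _ => num_vL x u, ← sum_smul]
    push_cast
    rfl
  rw [← dG_col y y', ← dG_col y' y]
  rcases lt_trichotomy y y' with h | h | h
  · rw [if_pos h, if_neg h.ne, add_zero, dG_comm, tens_mul_sub, add_sub_right_comm]
    refine Submodule.add_mem _ ?_ (Submodule.subset_span ⟨_, ⟨_, _, rfl⟩, _, ⟨_, _, rfl⟩, upp_col h, rfl⟩)
    have e1 : (Matrix.single y y' (1 : ℂ) * Matrix.single y' y 1 -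
        Matrix.single y' y 1 * Matrix.single y y' 1 : Matrix (Fin b) (Fin b) ℂ) =
        Matrix.single y y 1 - Matrix.single y' y' 1 := by
      rw [Matrix.single_mul_single_same, Matrix.single_mul_single_same, mul_one]
    have e2 : (tens ((0 : Matrix (Fin a) (Fin a) ℂ) * 0 - 0 * 0)
        (Matrix.single y y (1 : ℂ) - Matrix.single y' y' 1) : Mat (a * b)) =
        tens 0 (Matrix.single y y (1 : ℂ)) - tens 0 (Matrix.single y' y' (1 : ℂ)) := by
      rw [sub_eq_add_neg (tens _ _), ← neg_one_smul ℂ (tens 0 (Matrix.single y' y' (1 : ℂ))),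
        tens_smul, tens_add]
      simp [sub_eq_add_neg]
    rw [e1, e2, dG_sub, hd, hd, ← sub_smul]
    push_cast
    rw [sub_self]
    exact Submodule.zero_mem _
  · subst h
    rw [if_neg (lt_irrefl _), if_pos rfl, zero_add, hd, map_smul, hd, smul_smul]
    push_cast
    rw [← sq, sub_self]
    exact Submodule.zero_mem _
  · rw [if_neg (lt_asymm h), if_neg h.ne', add_zero]
    push_cast
    rw [zero_smul, sub_zero]
    exact Submodule.subset_span ⟨_, ⟨_, _, rfl⟩, _, ⟨_, _, rfl⟩, upp_col h, rfl⟩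

theorem crit_GG (a b : ℕ) : Crit (a * b) (GG a b) := by
  intro l hnd hlt
  set v := vL ℂ (a * b) l (1 : ℂ) with hv
  have h1 : (∑ x : Fin a, ∑ x' : Fin a, ((∑ y : Fin b, cc x y (aa x' y (∑ y' : Fin b,
      cc x' y' (aa x y' v)))) - (((if x < x' then ∑ y : Fin b, kf l x y - ∑ y : Fin b, kf l x' y else 0) +
        (if x = x' then (∑ y : Fin b, kf l x y) ^ 2 else 0) : ℤ) : ℂ) • v)) ∈
        (SS l : Submodule ℂ (KT ℂ (a * b))) :=
    Submodule.sum_mem _ fun x _ => Submodule.sum_mem _ fun x' _ => row_mem x x'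
  have h2 : (∑ y : Fin b, ∑ y' : Fin b, ((∑ x : Fin a, cc x y (aa x y' (∑ x' : Fin a,
      cc x' y' (aa x' y v)))) - (((if y < y' then ∑ x : Fin a, kf l x y - ∑ x : Fin a, kf l x y' else 0) +
        (if y = y' then (∑ x : Fin a, kf l x y) ^ 2 else 0) : ℤ) : ℂ) • v)) ∈
        (SS l : Submodule ℂ (KT ℂ (a * b))) :=
    Submodule.sum_mem _ fun y _ => Submodule.sum_mem _ fun y' _ => col_mem y y'
  have h3 := Submodule.add_mem _ h1 h2
  simp_rw [sum_sub_distrib] at h3
  rw [sub_add_sub_comm, casimir' v] at h3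
  have hn : nn v = ((∑ x : Fin a, ∑ y : Fin b, kf l x y : ℤ) : ℂ) • v := by
    unfold nn
    rw [sum_congr rfl fun x _ => sum_congr rfl fun y _ => num_vL x y]
    simp_rw [← sum_smul]
    push_cast
    rfl
  rw [hn] at h3
  simp_rw [← sum_smul] at h3
  rw [smul_smul, ← add_smul, ← sub_smul] at h3
  set C : ℤ := (∑ x : Fin a, (∑ y : Fin b, kf l x y) ^ 2 + ∑ x : Fin a, ∑ x' : Fin a,
      (if x < x' then ∑ y : Fin b, kf l x y - ∑ y : Fin b, kf l x' y else 0)) +
      (∑ y : Fin b, (∑ x : Fin a, kf l x y) ^ 2 + ∑ y : Fin b, ∑ y' : Fin b,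
      (if y < y' then ∑ x : Fin a, kf l x y - ∑ x : Fin a, kf l x y' else 0)) -
      ((a : ℤ) + b) * ∑ x : Fin a, ∑ y : Fin b, kf l x y with hC
  have h4 : ((-C : ℤ) : ℂ) • v ∈ (SS l : Submodule ℂ (KT ℂ (a * b))) := by
    convert h3 using 2
    have e1 : ∀ x x' : Fin a, (((if x < x' then ∑ y : Fin b, kf l x y - ∑ y : Fin b, kf l x' y
        else 0) + (if x = x' then (∑ y : Fin b, kf l x y) ^ 2 else 0) : ℤ) : ℂ) =
        (((if x < x' then ∑ y : Fin b, kf l x y - ∑ y : Fin b, kf l x' y else 0 : ℤ)) : ℂ) +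
        (if x = x' then (((∑ y : Fin b, kf l x y) ^ 2 : ℤ) : ℂ) else 0) := by
      intro x x'
      rw [Int.cast_add]
      congr 1
      split_ifs <;> simp
    have e2 : ∀ y y' : Fin b, (((if y < y' then ∑ x : Fin a, kf l x y - ∑ x : Fin a, kf l x y'
        else 0) + (if y = y' then (∑ x : Fin a, kf l x y) ^ 2 else 0) : ℤ) : ℂ) =
        (((if y < y' then ∑ x : Fin a, kf l x y - ∑ x : Fin a, kf l x y' else 0 : ℤ)) : ℂ) +
        (if y = y' then (((∑ x : Fin a, kf l x y) ^ 2 : ℤ) : ℂ) else 0) := by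
      intro x x'
      rw [Int.cast_add]
      congr 1
      split_ifs <;> simp
    simp_rw [e1, e2, sum_add_distrib, sum_ite_eq, mem_univ, if_true]
    rw [hC]
    push_cast
    ring
  by_cases hC0 : C = 0
  · left
    obtain ⟨y1, y2⟩ := rect_young (fun x y => kf l x y) kf_or hC0
    exact gwt_young hnd hlt (fun x => ∑ y : Fin b, kf l x y) (fun y => ∑ x : Fin a, kf l x y)
      (fun x y => (kf_one x y).symm.trans (y1 x y)) (fun x y => (kf_one x y).symm.trans (y2 x y))
      (fun x => (row_le b (fun y => kf l x y) (kf_or x)).1)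
      (fun x => (row_le b (fun y => kf l x y) (kf_or x)).2.1)
  · right
    have h5 : ((-C : ℤ) : ℂ) ≠ 0 := by
      rw [Int.cast_ne_zero]
      omega
    have h6 := Submodule.smul_mem _ (((-C : ℤ) : ℂ))⁻¹ h4
    rw [smul_smul, inv_mul_cancel₀ h5, one_smul] at h6
    exact h6

end vec

end

end Pool.Agent.E8helper43.BE
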