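import Mathlib

set_option autoImplicit false

/-!
# Squares of row lengths
-/

namespace Pool.Agent.E8helper43.BE

open Finset

theorem row_le : ∀ (b : ℕ) (k : Fin b → ℤ), (∀ y, k y = 0 ∨ k y = 1) →
    0 ≤ ∑ y, k y ∧ ∑ y, k y ≤ b ∧
    (∑ y, k y) ^ 2 ≤ ∑ y : Fin b, (2 * ((y : ℕ) : ℤ) + 1) * k y ∧
    ((∑ y, k y) ^ 2 = ∑ y : Fin b, (2 * ((y : ℕ) : ℤ) + 1) * k y → ∀ y, k y = 1 ↔ ((y : ℕ) : ℤ) < ∑ y, k y)
  | 0, k, _ => by
    refine ⟨by simp, by simp, by simp, fun _ y => y.elim0⟩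
  | b + 1, k, h => by
    obtain ⟨h0, h1, h2, h3⟩ := row_le b (fun y => k y.castSucc) fun y => h y.castSucc
    rw [Fin.sum_univ_castSucc, Fin.sum_univ_castSucc]
    simp only [Fin.val_castSucc, Fin.val_last]
    set S := ∑ y : Fin b, k y.castSucc with hS
    set U := ∑ y : Fin b, (2 * ((y : ℕ) : ℤ) + 1) * k y.castSucc with hU
    rcases h (Fin.last b) with hl | hl
    · rw [hl, add_zero, mul_zero, add_zero]
      refine ⟨h0, by push_cast; linarith, h2, fun heq y => ?_⟩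
      refine Fin.lastCases ?_ (fun y => ?_) y
      · rw [hl, Fin.val_last]
        constructor
        · intro h'; norm_num at h'
        · intro h'; linarith
      · rw [Fin.val_castSucc]
        exact h3 heq y
    · rw [hl, mul_one]
      have e1 : (S + 1) ^ 2 = S ^ 2 + 2 * S + 1 := by ring
      refine ⟨by linarith, by push_cast; linarith, by rw [e1]; linarith, fun heq y => ?_⟩
      rw [e1] at heq
      have h4 : S ^ 2 = U := by linarith
      have h5 : S = b := by linarith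
      refine Fin.lastCases ?_ (fun y => ?_) y
      · rw [hl, Fin.val_last, h5]
        constructor
        · intro _; linarith
        · intro _; rfl
      · rw [Fin.val_castSucc]
        have h6 := (h3 h4 y).2 (by rw [h5]; exact_mod_cast y.2)
        constructor
        · intro _
          have : ((y : ℕ) : ℤ) < b := by exact_mod_cast y.2
          linarith
        · intro _
          exact h6

theorem sum_lt_diff {a : ℕ} (ρ : Fin a → ℤ) :
    ∑ x, ∑ x', (if x < x' then ρ x - ρ x' else 0) = ∑ x : Fin a, ((a : ℤ) - 1 - 2 * ((x : ℕ) : ℤ)) * ρ x := by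
  have h1 : ∀ x x' : Fin a, (if x < x' then ρ x - ρ x' else 0) =
      (if x < x' then ρ x else 0) - (if x < x' then ρ x' else 0) := by
    intro x x'
    split_ifs <;> simp
  simp_rw [h1, sum_sub_distrib]
  rw [sum_comm (f := fun x x' : Fin a => if x < x' then ρ x' else 0), ← sum_sub_distrib]
  refine sum_congr rfl fun x _ => ?_
  rw [← sum_filter, ← sum_filter, sum_const, sum_const]
  have e1 : (univ.filter fun x' : Fin a => x < x') = Ioi x := by ext; simp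
  have e2 : (univ.filter fun x' : Fin a => x' < x) = Iio x := by ext; simp
  rw [e1, e2, Fin.card_Ioi, Fin.card_Iio, nsmul_eq_mul, nsmul_eq_mul]
  have h2 : ((a - 1 - (x : ℕ) : ℕ) : ℤ) = (a : ℤ) - 1 - ((x : ℕ) : ℤ) := by
    have := x.2
    omega
  rw [h2]
  ring

/-- The combinatorial criterion for rectangles. -/
theorem rect_young {a b : ℕ} (k : Fin a → Fin b → ℤ) (h : ∀ x y, k x y = 0 ∨ k x y = 1)
    (hc : (∑ x, (∑ y, k x y) ^ 2 + ∑ x, ∑ x', (if x < x' then ∑ y, k x y - ∑ y, k x' y else 0)) +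
      (∑ y, (∑ x, k x y) ^ 2 + ∑ y, ∑ y', (if y < y' then ∑ x, k x y - ∑ x, k x y' else 0)) -
      ((a : ℤ) + b) * ∑ x, ∑ y, k x y = 0) :
    (∀ x y, k x y = 1 ↔ ((y : ℕ) : ℤ) < ∑ y, k x y) ∧ (∀ x y, k x y = 1 ↔ ((x : ℕ) : ℤ) < ∑ x, k x y) := by
  rw [sum_lt_diff fun x => ∑ y, k x y, sum_lt_diff fun y => ∑ x, k x y] at hc
  have hr := fun x => row_le b (k x) (h x)
  have hk := fun y => row_le a (fun x => k x y) (fun x => h x y)
  have e1 : ∑ x, ∑ y : Fin b, (2 * ((y : ℕ) : ℤ) + 1) * k x y = ∑ y : Fin b, (2 * ((y : ℕ) : ℤ) + 1) * ∑ x, k x y := by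
    rw [sum_comm]
    exact sum_congr rfl fun y _ => by rw [mul_sum]
  have e2 : ∑ y, ∑ x : Fin a, (2 * ((x : ℕ) : ℤ) + 1) * k x y = ∑ x : Fin a, (2 * ((x : ℕ) : ℤ) + 1) * ∑ y, k x y := by
    rw [sum_comm]
    exact sum_congr rfl fun y _ => by rw [mul_sum]
  have e3 : ∑ y, ∑ x, k x y = ∑ x, ∑ y, k x y := sum_comm
  have e4 : ∑ x : Fin a, ((a : ℤ) - 1 - 2 * ((x : ℕ) : ℤ)) * ∑ y, k x y =
      (a : ℤ) * ∑ x, ∑ y, k x y - ∑ x : Fin a, (2 * ((x : ℕ) : ℤ) + 1) * ∑ y, k x y := by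
    rw [mul_sum, ← sum_sub_distrib]
    exact sum_congr rfl fun x _ => by ring
  have e5 : ∑ y : Fin b, ((b : ℤ) - 1 - 2 * ((y : ℕ) : ℤ)) * ∑ x, k x y =
      (b : ℤ) * ∑ x, ∑ y, k x y - ∑ y : Fin b, (2 * ((y : ℕ) : ℤ) + 1) * ∑ x, k x y := by
    rw [← e3, mul_sum, ← sum_sub_distrib]
    exact sum_congr rfl fun x _ => by ring
  rw [e4, e5, ← e1, ← e2] at hc
  have hc' : ∑ x, (∑ y : Fin b, (2 * ((y : ℕ) : ℤ) + 1) * k x y - (∑ y, k x y) ^ 2) +
      ∑ y, (∑ x : Fin a, (2 * ((x : ℕ) : ℤ) + 1) * k x y - (∑ x, k x y) ^ 2) = 0 := by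
    rw [sum_sub_distrib, sum_sub_distrib]
    linarith
  have n1 : ∀ x ∈ (univ : Finset (Fin a)), 0 ≤ ∑ y : Fin b, (2 * ((y : ℕ) : ℤ) + 1) * k x y - (∑ y, k x y) ^ 2 :=
    fun x _ => by linarith [(hr x).2.2.1]
  have n2 : ∀ y ∈ (univ : Finset (Fin b)), 0 ≤ ∑ x : Fin a, (2 * ((x : ℕ) : ℤ) + 1) * k x y - (∑ x, k x y) ^ 2 :=
    fun y _ => by linarith [(hk y).2.2.1]
  have z1 := sum_nonneg n1
  have z2 := sum_nonneg n2
  have w1 := (sum_eq_zero_iff_of_nonneg n1).1 (by linarith)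
  have w2 := (sum_eq_zero_iff_of_nonneg n2).1 (by linarith)
  exact ⟨fun x => (hr x).2.2.2 (by linarith [w1 x (mem_univ x)]),
    fun x y => (hk y).2.2.2 (by linarith [w2 y (mem_univ y)]) x⟩

end Pool.Agent.E8helper43.BE
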