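import Mathlib
import Pool.Agent.E8helper43.BE.Comb

set_option autoImplicit false

/-!
# Shifted diagrams
-/

namespace Pool.Agent.E8helper43.BE

open Finset

section shifted

variable {e k : ℤ} (he : e = 1 ∨ e = -1) {L : ℤ → ℤ → Prop}
  (hL : ∀ x y, L x y → 0 ≤ x ∧ x ≤ y ∧ y < k ∧ (e = -1 → x < y)) {w : ℤ → ℤ}
  (H : ∀ p, 0 ≤ p → p < k → ∀ j, 0 ≤ j → j ≤ k → ((L j p ∨ L p (j - e)) ↔ j < w p))

include he hL H

theorem sh_in {x y : ℤ} (h : L x y) : y + e + 1 ≤ w x ∧ x + 1 ≤ w y := by
  obtain ⟨h0, h1, h2, h3⟩ := hL x y h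
  constructor
  · have h4 := (H x h0 (by omega) (y + e) (by rcases he with rfl | rfl <;> [omega; (have := h3 rfl; omega)])
      (by omega)).1 (Or.inr (by rwa [add_sub_cancel_right]))
    omega
  · have h4 := (H y (by omega) h2 x h0 (by omega)).1 (Or.inl h)
    omega

theorem sh_out {x y : ℤ} (hx : 0 ≤ x) (hxy : x ≤ y) (hy : y < k) (hs : e = -1 → x < y)
    (h : ¬ L x y) : w x ≤ y + e ∧ w y ≤ x := by
  constructor
  · by_contra hcon
    have h4 := (H x hx (by omega) (y + e) (by rcases he with rfl | rfl <;> [omega; (have := hs rfl; omega)])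
      (by omega)).2 (by omega)
    rw [add_sub_cancel_right] at h4
    rcases h4 with h4 | h4
    · obtain ⟨h5, h6, h7, h8⟩ := hL _ _ h4
      rcases he with rfl | rfl
      · omega
      · have := hs rfl; have := h8 rfl; omega
    · exact h h4
  · by_contra hcon
    have h4 := (H y (by omega) hy x hx (by omega)).2 (by omega)
    rcases h4 with h4 | h4
    · exact h h4
    · obtain ⟨h5, h6, h7, h8⟩ := hL _ _ h4
      rcases he with rfl | rfl
      · omega
      · have := hs rfl; have := h8 rfl; omega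

theorem sh_anti (hw0 : ∀ p, 0 ≤ p → p < k → 0 ≤ w p) (hwk : ∀ p, 0 ≤ p → p < k → w p ≤ k + 1)
    {x x' : ℤ} (hx : 0 ≤ x) (hxx : x < x') (hx' : x' < k) : w x' ≤ w x := by
  by_contra hcon
  push Not at hcon
  have hj0 := hw0 x hx (by omega)
  have hjk := hwk x' (by omega) hx'
  have hno : ¬ (L (w x) x ∨ L x (w x - e)) := fun h =>
    lt_irrefl _ ((H x hx (by omega) (w x) hj0 (by omega)).1 h)
  have hyes := (H x' (by omega) hx' (w x) hj0 (by omega)).2 hcon
  rcases hyes with h | h
  · obtain ⟨h0, h1, h2, h3⟩ := hL _ _ h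
    have hin := sh_in he hL H h
    by_cases hc : w x + (1 - e) / 2 ≤ x
    · -- the pair `(w x, x)` is admissible
      have h4 : L (w x) x := by
        by_contra hn
        have := (sh_out he hL H h0 (by rcases he with rfl | rfl <;> omega) (by omega)
          (by rintro rfl; omega) hn).1
        omega
      exact hno (Or.inl h4)
    · have h4 : L x x' := by
        by_contra hn
        have := (sh_out he hL H hx hxx.le hx' (fun _ => hxx) hn).2
        have h5 : x ≤ w x := by rcases he with rfl | rfl <;> omega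
        omega
      have := (sh_in he hL H h4).1
      rcases he with rfl | rfl
      · omega
      · have := h3 rfl; omega
  · obtain ⟨h0, h1, h2, h3⟩ := hL _ _ h
    have h4 : L x (w x - e) := by
      by_contra hn
      have h5 := (sh_out he hL H hx (by omega) h2 (by
        intro h'; have := h3 h'; omega) hn).2
      have h6 := (sh_in he hL H h).2
      omega
    exact hno (Or.inr h4)

end shifted

/-- The combinatorial criterion for shifted diagrams: the sums of the rows. -/
theorem rows_eq {k : ℕ} (K : Fin k → Fin (k + 1) → ℤ) (h : ∀ p j, K p j = 0 ∨ K p j = 1)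
    (hc : ∑ p, ((∑ j, K p j) ^ 2 - ∑ j : Fin (k + 1), (2 * ((j : ℕ) : ℤ) + 1) * K p j) = 0) :
    ∀ p j, K p j = 1 ↔ ((j : ℕ) : ℤ) < ∑ j, K p j := by
  have hr := fun p => row_le (k + 1) (K p) (h p)
  have n1 : ∀ p ∈ (univ : Finset (Fin k)), 0 ≤ ∑ j : Fin (k + 1), (2 * ((j : ℕ) : ℤ) + 1) * K p j -
      (∑ j, K p j) ^ 2 := fun p _ => by linarith [(hr p).2.2.1]
  have hc' : ∑ p, (∑ j : Fin (k + 1), (2 * ((j : ℕ) : ℤ) + 1) * K p j - (∑ j, K p j) ^ 2) = 0 := by
    rw [← neg_eq_zero, ← sum_neg_distrib, ← hc]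
    exact sum_congr rfl fun p _ => by ring
  have w1 := (sum_eq_zero_iff_of_nonneg n1).1 hc'
  exact fun p => (hr p).2.2.2 (by linarith [w1 p (mem_univ p)])

end Pool.Agent.E8helper43.BE
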