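import Pool.Agent.E8helper33.BE.Fin

set_option autoImplicit false

/-!
# Koszul classes generated by highest weight vectors, for a Lie algebra of matrices
-/

namespace Pool.Agent.E8helper43.BE

open Pool.Agent.W650 Pool.Agent.E8helper33.BE Finset

universe v

noncomputable section

/-- complex matrices -/
abbrev Mat (n : ℕ) : Type := Matrix (Fin n) (Fin n) ℂ

/-- Lie algebras of matrices with a triangular decomposition -/
structure Alg (n : ℕ) (G : Submodule ℂ (Mat n)) : Prop where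
  lie : ∀ A ∈ G, ∀ B ∈ G, A * B - B * A ∈ G
  conj : ∀ A ∈ G, A.conjTranspose ∈ G
  low : ∀ A ∈ G, lowP A ∈ G
  dia : ∀ A ∈ G, diaP A ∈ G
  upp : ∀ A ∈ G, uppP A ∈ G

/-- **Closure lemma.** -/
theorem gclosure {n : ℕ} {G : Submodule ℂ (Mat n)} (hG : Alg n G) {V : Type v} [AddCommGroup V]
    [Module ℂ V] (T : Mat n → V →ₗ[ℂ] V)
    (hadd : ∀ A ∈ G, ∀ B ∈ G, ∀ x, T (A + B) x = T A x + T B x)
    (hcomm : ∀ A ∈ G, ∀ B ∈ G, ∀ x, T A (T B x) = T (A * B - B * A) x + T B (T A x))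
    (S : Submodule ℂ V) (hd : ∀ A ∈ G, IsDia A → ∀ x ∈ S, T A x ∈ S)
    (hu : ∀ A ∈ G, IsUpp A → ∀ x ∈ S, T A x = 0) :
    ∀ A ∈ G, ∀ x ∈ sInf {W : Submodule ℂ V | S ≤ W ∧ ∀ B ∈ G, IsLow B → ∀ x ∈ W, T B x ∈ W},
      T A x ∈ sInf {W : Submodule ℂ V | S ≤ W ∧ ∀ B ∈ G, IsLow B → ∀ x ∈ W, T B x ∈ W} := by
  set U := sInf {W : Submodule ℂ V | S ≤ W ∧ ∀ B ∈ G, IsLow B → ∀ x ∈ W, T B x ∈ W} with hU
  have hSU : S ≤ U := le_sInf fun W hW => hW.1
  have hUl : ∀ B ∈ G, IsLow B → ∀ x ∈ U, T B x ∈ U := by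
    intro B hB hBl x hx
    rw [hU, Submodule.mem_sInf] at hx ⊢
    intro W hW
    exact hW.2 B hB hBl x (hx W hW)
  let U' : Submodule ℂ V :=
    { carrier := {x | x ∈ U ∧ ∀ A ∈ G, T A x ∈ U}
      add_mem' := fun {a b} ha hb => ⟨U.add_mem ha.1 hb.1, fun A hA => by
        rw [map_add]; exact U.add_mem (ha.2 A hA) (hb.2 A hA)⟩
      zero_mem' := ⟨U.zero_mem, fun A _ => by rw [map_zero]; exact U.zero_mem⟩
      smul_mem' := fun c x hx => ⟨U.smul_mem c hx.1, fun A hA => by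
        rw [map_smul]; exact U.smul_mem c (hx.2 A hA)⟩ }
  have hle : U ≤ U' := by
    refine sInf_le ⟨fun x hx => ⟨hSU hx, fun A hA => ?_⟩, fun B hB hBl x hx => ⟨hUl B hB hBl x hx.1,
      fun A hA => ?_⟩⟩
    · have h1 := hadd (lowP A) (hG.low A hA) (diaP A + uppP A)
        (G.add_mem (hG.dia A hA) (hG.upp A hA)) x
      rw [parts_add, hadd _ (hG.dia A hA) _ (hG.upp A hA), hu _ (hG.upp A hA) (isUpp_uppP A) x hx,
        add_zero] at h1
      rw [h1]
      exact U.add_mem (hUl _ (hG.low A hA) (isLow_lowP A) x (hSU hx))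
        (hSU (hd _ (hG.dia A hA) (isDia_diaP A) x hx))
    · rw [hcomm A hA B hB]
      exact U.add_mem (hx.2 _ (hG.lie A hA B hB)) (hUl B hB hBl _ (hx.2 A hA))
  intro A hA x hx
  exact (hle hx).2 A hA

variable {M : Type v} [NormedAddCommGroup M] [InnerProductSpace ℂ M]

/-- compatible unitary actions of the Lie algebra `G` -/
structure GAct (n : ℕ) (G : Submodule ℂ (Mat n)) (X : ℕ → M →ₗ[ℂ] M) (r : Mat n → M →ₗ[ℂ] M) :
    Prop where
  add : ∀ A ∈ G, ∀ B ∈ G, r (A + B) = r A + r B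
  smul : ∀ (c : ℂ), ∀ A ∈ G, r (c • A) = c • r A
  lie : ∀ A ∈ G, ∀ B ∈ G, ∀ m, r A (r B m) = r (A * B - B * A) m + r B (r A m)
  eqv : ∀ A ∈ G, ∀ (j : Fin n) (m : M), r A (X j m) = X j (r A m) + ∑ c : Fin n, A c j • X c m
  adj : ∀ A ∈ G, ∀ a b : M, inner ℂ (r A a) b = inner ℂ a (r A.conjTranspose b)

variable {n : ℕ} {G : Submodule ℂ (Mat n)} {X Y : ℕ → M →ₗ[ℂ] M} {r : Mat n → M →ₗ[ℂ] M}

namespace GAct

theorem map_zero' (h : GAct n G X r) : r 0 = 0 := by
  have := h.add 0 G.zero_mem 0 G.zero_mem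
  rw [add_zero] at this
  exact left_eq_add.1 this

theorem map_sum' (h : GAct n G X r) {ι : Type} (s : Finset ι) (f : ι → Mat n)
    (hf : ∀ i ∈ s, f i ∈ G) : r (∑ i ∈ s, f i) = ∑ i ∈ s, r (f i) := by
  classical
  induction s using Finset.induction_on with
  | empty => simpa using h.map_zero'
  | insert a t ha ih =>
    rw [sum_insert ha, sum_insert ha, h.add _ (hf a (mem_insert_self a t)) _
      (G.sum_mem fun i hi => hf i (mem_insert_of_mem hi)),
      ih fun i hi => hf i (mem_insert_of_mem hi)]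

/-- the adjoint relation -/
theorem eqvY (hG : Alg n G) (h : GAct n G X r)
    (hXY : ∀ (j : Fin n) (a b : M), inner ℂ (X j a) b = inner ℂ a (Y j b))
    {A : Mat n} (hA : A ∈ G) (j : Fin n) (m : M) :
    r A (Y j m) = Y j (r A m) - ∑ c : Fin n, A j c • Y c m := by
  refine ext_inner_left ℂ fun a => ?_
  have hA' := hG.conj A hA
  have h1 := h.adj _ hA' a (Y j m)
  rw [Matrix.conjTranspose_conjTranspose] at h1
  rw [← h1, ← hXY]
  have h2 := h.eqv _ hA' j a
  have h3 : X j (r A.conjTranspose a) = r A.conjTranspose (X j a) -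
      ∑ c : Fin n, A.conjTranspose c j • X c a := by
    rw [h2, add_sub_cancel_right]
  rw [h3, inner_sub_left, inner_sub_right, h.adj _ hA', Matrix.conjTranspose_conjTranspose, hXY,
    sum_inner, inner_sum]
  congr 1
  refine sum_congr rfl fun c _ => ?_
  rw [inner_smul_left, inner_smul_right, hXY, Matrix.conjTranspose_apply]
  simp

end GAct

theorem T_X (h : GAct n G X r) {a : Fin n → ℝ} (ha : dm a ∈ G) (j : Fin n) (m : M) :
    r (dm a) (X j m) = X j (r (dm a) m) + ((a j : ℝ) : ℂ) • X j m := by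
  rw [h.eqv _ ha, sum_eq_single j]
  · rw [show dm a j j = (a j : ℂ) by simp [dm]]
  · intro c _ hc
    have e : dm a c j = 0 := by simp [dm, hc]
    rw [e, zero_smul]
  · simp

theorem T_Y (hG : Alg n G) (h : GAct n G X r)
    (hXY : ∀ (j : Fin n) (a b : M), inner ℂ (X j a) b = inner ℂ a (Y j b))
    {a : Fin n → ℝ} (ha : dm a ∈ G) (j : Fin n) (m : M) :
    r (dm a) (Y j m) = Y j (r (dm a) m) + ((-(a j) : ℝ) : ℂ) • Y j m := by
  rw [h.eqvY hG hXY ha, sum_eq_single j]
  · rw [show dm a j j = (a j : ℂ) by simp [dm]]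
    push_cast
    rw [neg_smul, sub_eq_add_neg]
  · intro c _ hc
    have e : dm a j c = 0 := by simp [dm, hc.symm]
    rw [e, zero_smul]
  · simp

/-- weights and a set of indices adapted to them -/
structure GWt (n : ℕ) (G : Submodule ℂ (Mat n)) (a : Fin n → ℝ) (l : List ℕ) : Prop where
  nodup : l.Nodup
  lt : ∀ j ∈ l, j < n
  mem : dm a ∈ G
  part : ∀ d : ℝ, ∀ B ∈ G, diagP a d B ∈ G
  pos : ∀ j : Fin n, (j : ℕ) ∈ l → 0 < a j
  neg : ∀ j : Fin n, (j : ℕ) ∉ l → a j < 0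
  upp : ∀ B ∈ G, IsUpp B → ∀ i j, B i j ≠ 0 → 0 < a i - a j

/-- `μ` is a top eigenvalue -/
def GTop (r : Mat n → M →ₗ[ℂ] M) (a : Fin n → ℝ) (μ : ℂ) : Prop :=
  ∀ (c : ℂ) (z : M), 0 < c.re → r (dm a) z = (μ + c) • z → z = 0

variable {a a' : Fin n → ℝ} {l l' : List ℕ} {μ μ' : ℂ} {m : M}

/-- raising elements kill the top eigenvectors -/
theorem gr_upp (h : GAct n G X r) (ha : dm a ∈ G) (hpt : ∀ d : ℝ, ∀ B ∈ G, diagP a d B ∈ G)
    (hm : r (dm a) m = μ • m) (htop : GTop r a μ) {B : Mat n} (hB : B ∈ G)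
    (hpos : ∀ i j, B i j ≠ 0 → 0 < a i - a j) : r B m = 0 := by
  classical
  rw [← diagP_sum a B hpos, h.map_sum' _ _ fun d _ => hpt d B hB, LinearMap.sum_apply]
  refine sum_eq_zero fun d hd0 => htop (d : ℂ) _ (by simpa using (mem_filter.1 hd0).2) ?_
  have hd := hpt d B hB
  rw [h.lie _ ha _ hd]
  have e : dm a * diagP a d B - diagP a d B * dm a = ((d : ℝ) : ℂ) • diagP a d B := by
    ext i j
    rw [dm_comm, Matrix.smul_apply, smul_eq_mul]
    by_cases hB0 : diagP a d B i j = 0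
    · rw [hB0, mul_zero, mul_zero]
    · congr 2
      by_contra hcon
      exact hB0 (by rw [diagP_apply, if_neg hcon])
  rw [e, h.smul _ _ hd, LinearMap.smul_apply, hm, map_smul, add_smul, add_comm]

theorem gtop_X (h : GAct n G X r) (hw : GWt n G a l) (hμ : GTop r a μ)
    (hm : r (dm a) m = μ • m) (j : ℕ) (hj : j < n) (hjl : j ∈ l) : X j m = 0 := by
  refine hμ ((a ⟨j, hj⟩ : ℝ) : ℂ) _ (by simpa using hw.pos ⟨j, hj⟩ hjl) ?_
  have := T_X h hw.mem ⟨j, hj⟩ m
  rw [hm, map_smul] at this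
  rw [this, add_smul]

theorem gtop_Y (hG : Alg n G) (h : GAct n G X r)
    (hXY : ∀ (j : Fin n) (a b : M), inner ℂ (X j a) b = inner ℂ a (Y j b))
    (hw : GWt n G a l) (hμ : GTop r a μ)
    (hm : r (dm a) m = μ • m) (j : ℕ) (hj : j < n) (hjl : j ∉ l) : Y j m = 0 := by
  refine hμ ((-(a ⟨j, hj⟩) : ℝ) : ℂ) _ ?_ ?_
  · have := hw.neg ⟨j, hj⟩ hjl
    rw [Complex.ofReal_re]
    linarith
  have := T_Y hG h hXY hw.mem ⟨j, hj⟩ m
  rw [hm, map_smul] at this
  rw [this, add_smul]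

/-- the highest weight vector is harmonic -/
theorem gvL_Hm (hG : Alg n G) (h : GAct n G X r)
    (hXY : ∀ (j : Fin n) (a b : M), inner ℂ (X j a) b = inner ℂ a (Y j b))
    (hw : GWt n G a l) (hμ : GTop r a μ) (hm : r (dm a) m = μ • m) :
    vL ℂ n l m ∈ Hm n X Y (l.length : ℤ) := by
  rw [mem_Hm]
  exact ⟨⟨d_vL X l m fun j hj hjl => gtop_X h hw hμ hm j hj hjl,
    dst_vL Y l m fun j hj hjl => gtop_Y hG h hXY hw hμ hm j hj hjl⟩, vL_G X n m l⟩

theorem gupp_mem (hw : GWt n G a l) {B : Mat n} (hB : B ∈ G) (hU : IsUpp B)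
    (i j : Fin n) (hij : B i j ≠ 0) (hj : (j : ℕ) ∈ l) : (i : ℕ) ∈ l ∧ i ≠ j := by
  have h1 := hw.upp B hB hU i j hij
  constructor
  · by_contra hi
    have h2 := hw.neg i hi
    have h3 := hw.pos j hj
    linarith
  · rintro rfl
    linarith

/-- raising elements kill the highest weight vector -/
theorem gLL_upp (h : GAct n G X r) (hw : GWt n G a l) (hμ : GTop r a μ)
    (hm : r (dm a) m = μ • m) {B : Mat n} (hB : B ∈ G) (hU : IsUpp B) :
    LL r B (vL ℂ n l m) = 0 := by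
  rw [LL_apply, dG_upp B l (fun i j => gupp_mem hw hB hU i j), KT_vL,
    gr_upp h hw.mem hw.part hm hμ hB (hw.upp B hB hU), vL_zero, add_zero]

/-- the exterior products generated by the vector of the list -/
def GLam (n : ℕ) (G : Submodule ℂ (Mat n)) (l : List ℕ) : Submodule ℂ (KT ℂ n) :=
  sInf {W : Submodule ℂ (KT ℂ n) | Submodule.span ℂ {vL ℂ n l (1 : ℂ)} ≤ W ∧
    ∀ B ∈ G, IsLow B → ∀ x ∈ W, dG ℂ ℂ B x ∈ W}

/-- the top eigenspace of the highest weight vectors -/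
def GSp (r : Mat n → M →ₗ[ℂ] M) (a : Fin n → ℝ) (l : List ℕ) (μ : ℂ) : Submodule ℂ (KT M n) where
  carrier := {x | ∃ m : M, r (dm a) m = μ • m ∧ x = vL ℂ n l m}
  add_mem' := by
    rintro _ _ ⟨m, hm, rfl⟩ ⟨m', hm', rfl⟩
    exact ⟨m + m', by rw [map_add, hm, hm', smul_add], (vL_add n m m' l).symm⟩
  zero_mem' := ⟨0, by rw [map_zero, smul_zero], (vL_zero n l).symm⟩
  smul_mem' := by
    rintro c _ ⟨m, hm, rfl⟩
    exact ⟨c • m, by rw [map_smul, hm, smul_comm], (vL_smul n c m l).symm⟩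

/-- the module generated by the highest weight vectors -/
def GWW (G : Submodule ℂ (Mat n)) (r : Mat n → M →ₗ[ℂ] M) (a : Fin n → ℝ) (l : List ℕ) (μ : ℂ) :
    Submodule ℂ (KT M n) :=
  sInf {W : Submodule ℂ (KT M n) | GSp r a l μ ≤ W ∧
    ∀ B ∈ G, IsLow B → ∀ x ∈ W, LL r B x ∈ W}

theorem GWW_low {B : Mat n} (hB : B ∈ G) (hL : IsLow B) {x : KT M n}
    (hx : x ∈ GWW G r a l μ) : LL r B x ∈ GWW G r a l μ := by
  unfold GWW at *
  rw [Submodule.mem_sInf] at *
  exact fun W hW => hW.2 B hB hL x (hx W hW)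

theorem GSp_le_GWW : GSp r a l μ ≤ GWW G r a l μ := le_sInf fun _ hW => hW.1

theorem gLL_add (h : GAct n G X r) {A B : Mat n} (hA : A ∈ G)
    (hB : B ∈ G) (x : KT M n) : LL r (A + B) x = LL r A x + LL r B x := by
  rw [LL_apply, LL_apply, LL_apply, dG_add, h.add A hA B hB, KTmap_add']
  abel

theorem gLL_comm (h : GAct n G X r) {A B : Mat n} (hA : A ∈ G)
    (hB : B ∈ G) (x : KT M n) :
    LL r A (LL r B x) = LL r (A * B - B * A) x + LL r B (LL r A x) := by
  have e : r A ∘ₗ r B = r (A * B - B * A) + r B ∘ₗ r A := by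
    ext m
    exact h.lie A hA B hB m
  have e2 : KTmap (r A) n (KTmap (r B) n x) =
      KTmap (r (A * B - B * A)) n x + KTmap (r B) n (KTmap (r A) n x) := by
    rw [← KTmap_comp, e, KTmap_add', KTmap_comp]
  simp only [LL_apply, map_add, dG_KT]
  rw [dG_comm A B x, e2]
  abel

theorem gLL_Hm (hG : Alg n G) (h : GAct n G X r)
    (hXY : ∀ (j : Fin n) (a b : M), inner ℂ (X j a) b = inner ℂ a (Y j b))
    {A : Mat n} (hA : A ∈ G) {e : ℤ} {x : KT M n} (hx : x ∈ Hm n X Y e) :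
    LL r A x ∈ Hm n X Y e := by
  rw [mem_Hm] at hx ⊢
  refine ⟨⟨?_, ?_⟩, ?_⟩
  · rw [LL_apply, ← L_d A (r A) X (h.eqv A hA), hx.1.1, map_zero, map_zero, add_zero]
  · rw [LL_apply, ← L_dst A (r A) Y (fun j m => h.eqvY hG hXY hA j m), hx.1.2, map_zero, map_zero,
      add_zero]
  · exact Submodule.add_mem _ (dG_G X A e x hx.2) (KTmap_G (r A) X X n e x hx.2)

/-- the module generated by the highest weight vectors is stable -/
theorem GWW_stable (hG : Alg n G) (h : GAct n G X r) (hw : GWt n G a l) (hμ : GTop r a μ)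
    {A : Mat n} (hA : A ∈ G) {x : KT M n} (hx : x ∈ GWW G r a l μ) :
    LL r A x ∈ GWW G r a l μ := by
  refine gclosure hG (LL r) (fun A hA B hB x => gLL_add h hA hB x)
    (fun A hA B hB x => gLL_comm h hA hB x) (GSp r a l μ) ?_ ?_ A hA x hx
  · rintro B hB hBd _ ⟨m, hm, rfl⟩
    obtain ⟨c, hc⟩ := dG_dia (k := ℂ) (M := M) B hBd l
    rw [LL_apply, hc, KT_vL]
    refine Submodule.add_mem _ (Submodule.smul_mem _ _ ⟨m, hm, rfl⟩) ⟨r B m, ?_, rfl⟩
    have e : dm a * B - B * dm a = 0 := by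
      ext i j
      rw [dm_comm]
      by_cases hij : i = j
      · subst hij; simp
      · rw [hBd i j hij, mul_zero]; rfl
    rw [h.lie _ hw.mem _ hB, e, h.map_zero', LinearMap.zero_apply, zero_add, hm, map_smul]
  · rintro B hB hBu _ ⟨m, hm, rfl⟩
    exact gLL_upp h hw hμ hm hB hBu

/-- the module generated by the highest weight vectors is harmonic -/
theorem GWW_le_Hm (hG : Alg n G) (h : GAct n G X r)
    (hXY : ∀ (j : Fin n) (a b : M), inner ℂ (X j a) b = inner ℂ a (Y j b))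
    (hw : GWt n G a l) (hμ : GTop r a μ) : GWW G r a l μ ≤ Hm n X Y (l.length : ℤ) := by
  refine sInf_le ⟨?_, fun B hB _ x hx => gLL_Hm hG h hXY hB hx⟩
  rintro _ ⟨m, hm, rfl⟩
  exact gvL_Hm hG h hXY hw hμ hm

/-- the module generated by the highest weight vectors is at least as large as the one generated
in the exterior algebra -/
theorem GLam_le (hG : Alg n G) (h : GAct n G X r) (hw : GWt n G a l) (hμ : GTop r a μ)
    (hm : r (dm a) m = μ • m) (hm0 : m ≠ 0) :
    GLam n G l ≤ (GWW G r a l μ).map (KTmap (phi m) n) := by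
  refine sInf_le ⟨?_, ?_⟩
  · rw [Submodule.span_singleton_le_iff_mem]
    have hc : phi m m ≠ 0 := by
      rw [phi_apply]
      exact inner_self_ne_zero.2 hm0
    refine ⟨(phi m m)⁻¹ • vL ℂ n l m, Submodule.smul_mem _ _ (GSp_le_GWW ⟨m, hm, rfl⟩), ?_⟩
    rw [map_smul, KT_vL, ← vL_smul, smul_eq_mul, inv_mul_cancel₀ hc]
  · rintro B hB hBl _ ⟨x, hx, rfl⟩
    refine ⟨LL r B x, GWW_low hB hBl hx, ?_⟩
    have e : phi m ∘ₗ r B = 0 := by
      ext y
      have h1 := h.adj _ (hG.conj B hB) m y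
      rw [Matrix.conjTranspose_conjTranspose] at h1
      rw [LinearMap.comp_apply, phi_apply, ← h1,
        gr_upp h hw.mem hw.part hm hμ (hG.conj B hB) (hw.upp _ (hG.conj B hB) (conjT_upp hBl)),
        inner_zero_left, LinearMap.zero_apply]
    rw [LL_apply, map_add, dG_KT, ← KTmap_comp, e, KTmap_zero, add_zero]

theorem vL_mem_GLam : vL ℂ n l (1 : ℂ) ∈ GLam n G l :=
  (le_sInf (fun _ hW => hW.1) : Submodule.span ℂ {vL ℂ n l (1 : ℂ)} ≤ GLam n G l)
    (Submodule.mem_span_singleton_self _)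

theorem GLam_stable (hG : Alg n G) (hw : GWt n G a l) {A : Mat n} (hA : A ∈ G) {x : KT ℂ n}
    (hx : x ∈ GLam n G l) : dG ℂ ℂ A x ∈ GLam n G l := by
  refine gclosure hG (dG ℂ ℂ) (fun A _ B _ x => dG_add A B x) (fun A _ B _ x => dG_comm A B x)
    (Submodule.span ℂ {vL ℂ n l (1 : ℂ)}) ?_ ?_ A hA x hx
  · intro B hB hBd x hx
    obtain ⟨c, hc⟩ := dG_dia (k := ℂ) (M := ℂ) B hBd l
    obtain ⟨s, rfl⟩ := Submodule.mem_span_singleton.1 hx
    rw [map_smul, hc]
    exact Submodule.smul_mem _ _ (Submodule.smul_mem _ _ (Submodule.mem_span_singleton_self _))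
  · intro B hB hBu x hx
    obtain ⟨s, rfl⟩ := Submodule.mem_span_singleton.1 hx
    rw [map_smul, dG_upp B l (fun i j => gupp_mem hw hB hBu i j), smul_zero]

/-- There is a submodule of harmonic classes which is at least as large as `GLam`. -/
theorem exists_GWW [FiniteDimensional ℂ M] [Nontrivial M] (hG : Alg n G) (h : GAct n G X r)
    (hw : GWt n G a l) : ∃ μ : ℂ, GTop r a μ ∧
      Module.finrank ℂ (GLam n G l) ≤ Module.finrank ℂ (GWW G r a l μ) := by
  obtain ⟨μ, m, hm0, hm, htop⟩ := exists_top (r (dm a))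
  have hμ : GTop r a μ := htop
  exact ⟨μ, hμ, (Submodule.finrank_mono (GLam_le hG h hw hμ hm hm0)).trans
    (Submodule.finrank_map_le _ _)⟩

theorem gLL_adj (h : GAct n G X r) {A : Mat n} (hA : A ∈ G)
    (x y : KT M n) : ip n (LL r A x) y = ip n x (LL r A.conjTranspose y) := by
  rw [LL_apply, LL_apply, ip_add_left, ip_add_right, ip_dG, ip_KT _ _ (h.adj A hA)]

theorem vL_head (j : ℕ) (m : M) : ∀ l : List ℕ, j ∈ l →
    ∃ z : KT M n, vL ℂ n l m = Cr (k := ℂ) (M := M) n j z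
  | [], h => by simp at h
  | i :: l, h => by
    by_cases hj : j = i
    · subst hj
      exact ⟨_, rfl⟩
    · obtain ⟨z, hz⟩ := vL_head j m l ((List.mem_cons.1 h).resolve_left hj)
      refine ⟨-(Cr (k := ℂ) (M := M) n i z), ?_⟩
      rw [vL, hz, Cr_Cr, map_neg]

theorem gvL_orth {j : ℕ} (hj : j ∈ l) (hj' : j ∉ l') (m m' : M) :
    ip n (vL ℂ n l m) (vL ℂ n l' m') = 0 := by
  obtain ⟨z, hz⟩ := vL_head (n := n) j m l hj
  rw [hz, ip_Cr, An_vL n j m' l' hj', ip_zero_right]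

/-- the modules are orthogonal -/
theorem GWW_orth (hG : Alg n G) (h : GAct n G X r) {j : ℕ} (hw : GWt n G a l)
    (hμ : GTop r a μ) (hw' : GWt n G a' l') (hμ' : GTop r a' μ') (hj : j ∈ l) (hj' : j ∉ l')
    {x y : KT M n} (hx : x ∈ GWW G r a l μ) (hy : y ∈ GWW G r a' l' μ') :
    ip n x y = 0 := by
  have h1 : ∀ m : M, r (dm a) m = μ • m → ∀ y ∈ GWW G r a' l' μ',
      ip n (vL ℂ n l m) y = 0 := by
    intro m hm
    let Q : Submodule ℂ (KT M n) :=
      { carrier := {y | ip n (vL ℂ n l m) y = 0}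
        add_mem' := fun {y z} hy hz => by
          show ip n _ (y + z) = 0
          rw [ip_add_right, show ip n _ y = 0 from hy, show ip n _ z = 0 from hz, add_zero]
        zero_mem' := ip_zero_right n _
        smul_mem' := fun c y hy => by
          show ip n _ (c • y) = 0
          rw [ip_smul_right, show ip n _ y = 0 from hy, mul_zero] }
    have hQ : GWW G r a' l' μ' ≤ Q := by
      refine sInf_le ⟨?_, ?_⟩
      · rintro _ ⟨m', _, rfl⟩
        exact gvL_orth hj hj' m m'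
      · intro B hB hBl y _
        show ip n _ (LL r B y) = 0
        have h2 := gLL_adj h (hG.conj B hB) (vL ℂ n l m) y
        rw [Matrix.conjTranspose_conjTranspose,
          gLL_upp h hw hμ hm (hG.conj B hB) (conjT_upp hBl), ip_zero_left] at h2
        exact h2.symm
    exact fun y hy => hQ hy
  let P : Submodule ℂ (KT M n) :=
    { carrier := {x | ∀ y ∈ GWW G r a' l' μ', ip n y x = 0}
      add_mem' := fun {x z} hx hz y hy => by
        rw [ip_add_right, hx y hy, hz y hy, add_zero]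
      zero_mem' := fun y _ => ip_zero_right n _
      smul_mem' := fun c x hx y hy => by
        rw [ip_smul_right, hx y hy, mul_zero] }
  have hP : GWW G r a l μ ≤ P := by
    refine sInf_le ⟨?_, ?_⟩
    · rintro _ ⟨m, hm, rfl⟩ y hy
      rw [← ip_conj, h1 m hm y hy, map_zero]
    · intro B hB _ x hx y hy
      have h2 := gLL_adj h (hG.conj B hB) y x
      rw [Matrix.conjTranspose_conjTranspose] at h2
      rw [← h2]
      exact hx _ (GWW_stable hG h hw' hμ' (hG.conj B hB) hy)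
  rw [← ip_conj, hP hx y hy, map_zero]

/-- orthogonal submodules are independent -/
theorem sum_finrank_le [FiniteDimensional ℂ M] {ι : Type} [DecidableEq ι]
    (W : ι → Submodule ℂ (KT M n)) :
    ∀ s : Finset ι, (∀ k ∈ s, ∀ k' ∈ s, k ≠ k' → ∀ x ∈ W k, ∀ y ∈ W k', ip n x y = 0) →
      ∑ k ∈ s, Module.finrank ℂ (W k) ≤ Module.finrank ℂ ↥(s.sup W) := by
  intro s
  induction s using Finset.induction_on with
  | empty => intro _; simp
  | insert k0 s hk0 ih =>
    intro horth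
    have ih' := ih fun k hk k' hk' => horth k (mem_insert_of_mem hk) k' (mem_insert_of_mem hk')
    rw [sum_insert hk0, Finset.sup_insert]
    have hdisj : W k0 ⊓ s.sup W = ⊥ := by
      rw [eq_bot_iff]
      rintro x ⟨hx, hx'⟩
      rw [Submodule.mem_bot]
      apply ip_self_zero
      let Q : Submodule ℂ (KT M n) :=
        { carrier := {y | ip n x y = 0}
          add_mem' := fun {y z} hy hz => by
            show ip n _ (y + z) = 0
            rw [ip_add_right, show ip n _ y = 0 from hy, show ip n _ z = 0 from hz, add_zero]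
          zero_mem' := ip_zero_right n _
          smul_mem' := fun c y hy => by
            show ip n _ (c • y) = 0
            rw [ip_smul_right, show ip n _ y = 0 from hy, mul_zero] }
      have hQ : s.sup W ≤ Q := Finset.sup_le fun k hk y hy =>
        horth k0 (mem_insert_self _ _) k (mem_insert_of_mem hk)
          (fun h => hk0 (h ▸ hk)) x hx y hy
      rw [show ip n x x = 0 from hQ hx']
      rfl
    have h3 := Submodule.finrank_sup_add_finrank_inf_eq (W k0) (s.sup W)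
    rw [hdisj, finrank_bot, add_zero] at h3
    omega

theorem finrank_sup_le_sum {ι : Type} [DecidableEq ι]
    (W : ι → Submodule ℂ (KT ℂ n)) :
    ∀ s : Finset ι, Module.finrank ℂ ↥(s.sup W) ≤ ∑ k ∈ s, Module.finrank ℂ (W k) := by
  intro s
  induction s using Finset.induction_on with
  | empty => simp
  | insert k0 s hk0 ih =>
    rw [sum_insert hk0, Finset.sup_insert]
    have h3 := Submodule.finrank_sup_add_finrank_inf_eq (W k0) (s.sup W)
    omega

/-- the harmonic classes of a family of sets -/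
theorem sum_GLam_le_Hm [FiniteDimensional ℂ M] [Nontrivial M] (hG : Alg n G) (h : GAct n G X r)
    (hXY : ∀ (j : Fin n) (a b : M), inner ℂ (X j a) b = inner ℂ a (Y j b)) (i : ℕ)
    (s : Finset (Finset ℕ)) (hs : ∀ K ∈ s, K.card = i ∧ ∃ a, GWt n G a K.toList) :
    ∑ K ∈ s, Module.finrank ℂ (GLam n G K.toList) ≤ Module.finrank ℂ (Hm n X Y (i : ℤ)) := by
  classical
  have h0 : ∀ K : Finset ℕ, ∃ (a : Fin n → ℝ) (μ : ℂ), K ∈ s → GWt n G a K.toList ∧ GTop r a μ ∧
      Module.finrank ℂ (GLam n G K.toList) ≤ Module.finrank ℂ (GWW G r a K.toList μ) := by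
    intro K
    by_cases hK : K ∈ s
    · obtain ⟨a, ha⟩ := (hs K hK).2
      obtain ⟨μ, hμ, hle⟩ := exists_GWW hG h ha
      exact ⟨a, μ, fun _ => ⟨ha, hμ, hle⟩⟩
    · exact ⟨0, 0, fun h => absurd h hK⟩
  choose a μ hp using h0
  have h1 := sum_finrank_le (n := n) (fun K => GWW G r (a K) K.toList (μ K)) s (by
    intro K hK K' hK' hne x hx y hy
    obtain ⟨j, hj, hj'⟩ : ∃ j ∈ K, j ∉ K' := by
      by_contra hcon
      push Not at hcon
      exact hne (Finset.eq_of_subset_of_card_le hcon (by rw [(hs K hK).1, (hs K' hK').1]))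
    exact GWW_orth hG h (hp K hK).1 (hp K hK).2.1 (hp K' hK').1 (hp K' hK').2.1
      (Finset.mem_toList.2 hj) (fun h' => hj' (Finset.mem_toList.1 h')) hx hy)
  refine (Finset.sum_le_sum fun K hK => (hp K hK).2.2).trans (h1.trans (Submodule.finrank_mono ?_))
  refine Finset.sup_le fun K hK => ?_
  have h2 := GWW_le_Hm hG h hXY (hp K hK).1 (hp K hK).2.1
  rwa [Finset.length_toList, (hs K hK).1] at h2

end

end Pool.Agent.E8helper43.BE
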