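import Pool.Agent.E8helper43.BE.Cas

set_option autoImplicit false

/-!
# Free resolutions of modules with an action of `gl_a ⊕ gl_b`
-/

namespace Pool.Agent.E8helper43.BE

open Pool.Agent.W650 Pool.Agent.Y577.BT Pool.Agent.E8helper33.BE Finset

universe v w

noncomputable section

/-- The general theorem for a Lie algebra of matrices which satisfies the criterion. -/
theorem gen_main (S : Type w) [CommRing S] [Algebra ℂ S] (n : ℕ) (G : Submodule ℂ (Mat n))
    (hG : Alg n G) (hC : Crit n G)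
    (f : Fin n → S) (hreg : RegularSeq f) [Module.Finite ℂ (S ⧸ Ideal.span (Set.range f))]
    (M : Type v) [NormedAddCommGroup M] [InnerProductSpace ℂ M] [FiniteDimensional ℂ M]
    [Nontrivial M] [Module S M] [IsScalarTower ℂ S M] (r : Mat n → M →ₗ[ℂ] M)
    (h : GAct n G (opv ℂ (ext0 f) M) r) (R : FreeRes S M) (i : ℕ) :
    n.choose i ≤ Module.finrank ℂ (S ⧸ Ideal.span (Set.range f)) * R.rank i := by
  let Y : ℕ → M →ₗ[ℂ] M := fun j => LinearMap.adjoint (opv ℂ (ext0 f) M j)
  have hXY : ∀ (j : Fin n) (a b : M), inner ℂ (opv ℂ (ext0 f) M j a) b = inner ℂ a (Y j b) :=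
    fun j a b => (LinearMap.adjoint_inner_right _ a b).symm
  exact of_Hm S n f hreg M Y hXY R i _ (gchoose_le hG hC h hXY i)

section twist

variable {a b : ℕ} {M : Type v} [NormedAddCommGroup M] [InnerProductSpace ℂ M]

/-- the corrected action -/
def tau (ρ : Matrix (Fin a) (Fin a) ℂ →ₗ[ℂ] M →ₗ[ℂ] M) (σ : Matrix (Fin b) (Fin b) ℂ →ₗ[ℂ] M →ₗ[ℂ] M)
    (B : Matrix (Fin b) (Fin b) ℂ) : M →ₗ[ℂ] M := σ B + (B.trace / b) • (ρ 1 - σ 1)

theorem tau_apply (ρ : Matrix (Fin a) (Fin a) ℂ →ₗ[ℂ] M →ₗ[ℂ] M)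
    (σ : Matrix (Fin b) (Fin b) ℂ →ₗ[ℂ] M →ₗ[ℂ] M)
    (B : Matrix (Fin b) (Fin b) ℂ) (m : M) :
    tau ρ σ B m = σ B m + (B.trace / b) • (ρ 1 m - σ 1 m) := rfl

variable (ρ : Matrix (Fin a) (Fin a) ℂ →ₗ[ℂ] M →ₗ[ℂ] M)
  (σ : Matrix (Fin b) (Fin b) ℂ →ₗ[ℂ] M →ₗ[ℂ] M)

theorem tau_add (B B' : Matrix (Fin b) (Fin b) ℂ) : tau ρ σ (B + B') = tau ρ σ B + tau ρ σ B' := by
  unfold tau
  rw [map_add, Matrix.trace_add, add_div, add_smul]
  abel

theorem tau_smul (c : ℂ) (B : Matrix (Fin b) (Fin b) ℂ) : tau ρ σ (c • B) = c • tau ρ σ B := by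
  unfold tau
  rw [map_smul, Matrix.trace_smul, smul_eq_mul, mul_div_assoc, mul_smul, smul_add]

theorem tau_one (hb : b ≠ 0) : tau ρ σ 1 = ρ 1 := by
  unfold tau
  rw [Matrix.trace_one, Fintype.card_fin, div_self (by exact_mod_cast hb), one_smul]
  abel

theorem well_def (ha : a ≠ 0) (hb : b ≠ 0) {A A' : Matrix (Fin a) (Fin a) ℂ}
    {B B' : Matrix (Fin b) (Fin b) ℂ} (h : tens A B = tens A' B') :
    ρ A + tau ρ σ B = ρ A' + tau ρ σ B' := by
  have hx : ∃ x : Fin a, True := ⟨⟨0, Nat.pos_of_ne_zero ha⟩, trivial⟩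
  obtain ⟨x0, -⟩ := hx
  let y0 : Fin b := ⟨0, Nat.pos_of_ne_zero hb⟩
  have hent : ∀ x y x' y', tens A B (ix x y) (ix x' y') = tens A' B' (ix x y) (ix x' y') :=
    fun x y x' y' => by rw [h]
  simp only [tens_ix] at hent
  set c := A x0 x0 - A' x0 x0 with hc
  have hB : B' = B + c • (1 : Matrix (Fin b) (Fin b) ℂ) := by
    ext y y'
    have h1 := hent x0 y x0 y'
    rw [Matrix.add_apply, Matrix.smul_apply, Matrix.one_apply, smul_eq_mul]
    by_cases hy : y = y'
    · subst hy
      simp only [if_true] at h1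
      rw [if_pos rfl, mul_one, hc]
      linear_combination -h1
    · rw [if_neg hy, if_neg hy, if_pos rfl, if_pos rfl] at h1
      rw [if_neg hy, mul_zero]
      linear_combination -h1
  have hA : A = A' + c • (1 : Matrix (Fin a) (Fin a) ℂ) := by
    ext x x'
    have h1 := hent x y0 x' y0
    rw [Matrix.add_apply, Matrix.smul_apply, Matrix.one_apply, smul_eq_mul]
    by_cases hx : x = x'
    · subst hx
      simp only [if_true] at h1
      have h2 : B' y0 y0 = B y0 y0 + c := by rw [hB]; simp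
      rw [h2] at h1
      rw [if_pos rfl, mul_one]
      linear_combination h1
    · rw [if_neg hx, if_neg hx, if_pos rfl, if_pos rfl] at h1
      rw [if_neg hx, mul_zero]
      linear_combination h1
  rw [hA, hB, tau_add, tau_smul, tau_one ρ σ hb, map_add, map_smul]
  abel

open Classical in
/-- the action of `gl_a ⊕ gl_b` as a function on all matrices -/
def rr (C : Mat (a * b)) : M →ₗ[ℂ] M :=
  if h : ∃ A B, C = tens A B then ρ h.choose + tau ρ σ h.choose_spec.choose else 0

theorem rr_tens (ha : a ≠ 0) (hb : b ≠ 0) (A : Matrix (Fin a) (Fin a) ℂ)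
    (B : Matrix (Fin b) (Fin b) ℂ) : rr ρ σ (tens A B) = ρ A + tau ρ σ B := by
  have h : ∃ A' B', (tens A B : Mat (a * b)) = tens A' B' := ⟨A, B, rfl⟩
  unfold rr
  rw [dif_pos h]
  exact well_def ρ σ ha hb h.choose_spec.choose_spec.symm

end twist

/-- **The main theorem.** -/
theorem mat_main (S : Type w) [CommRing S] [Algebra ℂ S] (a b : ℕ)
    (f : Fin (a * b) → S) (hreg : RegularSeq f) [Module.Finite ℂ (S ⧸ Ideal.span (Set.range f))]
    (M : Type v) [NormedAddCommGroup M] [InnerProductSpace ℂ M] [FiniteDimensional ℂ M]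
    [Nontrivial M] [Module S M] [IsScalarTower ℂ S M]
    (ρ : Matrix (Fin a) (Fin a) ℂ →ₗ[ℂ] M →ₗ[ℂ] M)
    (σ : Matrix (Fin b) (Fin b) ℂ →ₗ[ℂ] M →ₗ[ℂ] M)
    (hρ : ∀ A A' m, ρ (A * A' - A' * A) m = ρ A (ρ A' m) - ρ A' (ρ A m))
    (hσ : ∀ B B' m, σ (B * B' - B' * B) m = σ B (σ B' m) - σ B' (σ B m))
    (hρσ : ∀ A B m, ρ A (σ B m) = σ B (ρ A m))
    (hρf : ∀ A x y (m : M), ρ A (f (ix x y) • m) = f (ix x y) • ρ A m +
      ∑ x' : Fin a, A x' x • f (ix x' y) • m)
    (hσf : ∀ B x y (m : M), σ B (f (ix x y) • m) = f (ix x y) • σ B m +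
      ∑ y' : Fin b, B y' y • f (ix x y') • m)
    (hρs : ∀ A (m m' : M), inner ℂ (ρ A m) m' = inner ℂ m (ρ A.conjTranspose m'))
    (hσs : ∀ B (m m' : M), inner ℂ (σ B m) m' = inner ℂ m (σ B.conjTranspose m'))
    (R : FreeRes S M) (i : ℕ) :
    (a * b).choose i ≤ Module.finrank ℂ (S ⧸ Ideal.span (Set.range f)) * R.rank i := by
  have hX : ∀ (j : Fin (a * b)) (x : M), opv ℂ (ext0 f) M j x = f j • x := fun j x => by
    rw [opv_apply, ext0_apply]
  by_cases hab : a ≠ 0 ∧ b ≠ 0
  · obtain ⟨ha, hb⟩ := hab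
    have hr := rr_tens ρ σ ha hb
    -- the central element
    have z1 : ∀ A m, ρ A (ρ 1 m - σ 1 m) = ρ 1 (ρ A m) - σ 1 (ρ A m) := by
      intro A m
      have h1 := hρ A 1 m
      rw [mul_one, one_mul, sub_self, map_zero, LinearMap.zero_apply] at h1
      rw [map_sub, hρσ, sub_eq_zero.1 h1.symm]
    have z2 : ∀ B m, σ B (ρ 1 m - σ 1 m) = ρ 1 (σ B m) - σ 1 (σ B m) := by
      intro B m
      have h1 := hσ B 1 m
      rw [mul_one, one_mul, sub_self, map_zero, LinearMap.zero_apply] at h1
      rw [map_sub, ← hρσ, sub_eq_zero.1 h1.symm]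
    have z3 : ∀ x y (m : M), ρ 1 (f (ix x y) • m) - σ 1 (f (ix x y) • m) =
        f (ix x y) • (ρ 1 m - σ 1 m) := by
      intro x y m
      have e1 : ∑ x' : Fin a, (1 : Matrix (Fin a) (Fin a) ℂ) x' x • f (ix x' y) • m =
          f (ix x y) • m := by
        rw [sum_eq_single x]
        · rw [Matrix.one_apply_eq, one_smul]
        · intro x' _ hx
          rw [Matrix.one_apply_ne hx, zero_smul]
        · simp
      have e2 : ∑ y' : Fin b, (1 : Matrix (Fin b) (Fin b) ℂ) y' y • f (ix x y') • m =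
          f (ix x y) • m := by
        rw [sum_eq_single y]
        · rw [Matrix.one_apply_eq, one_smul]
        · intro x' _ hx
          rw [Matrix.one_apply_ne hx, zero_smul]
        · simp
      rw [hρf, hσf, e1, e2, smul_sub]
      abel
    have z4 : ∀ m m' : M, inner ℂ (ρ 1 m - σ 1 m) m' = inner ℂ m (ρ 1 m' - σ 1 m') := by
      intro m m'
      rw [inner_sub_left, inner_sub_right, hρs, hσs, Matrix.conjTranspose_one,
        Matrix.conjTranspose_one]
    have hs : ∀ (s : S) (c : ℂ) (m : M), c • s • m = s • c • m := fun s c m => smul_comm c s m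
    have hact : GAct (a * b) (GG a b) (opv ℂ (ext0 f) M) (rr ρ σ) :=
      { add := by
          rintro _ ⟨A, B, rfl⟩ _ ⟨A', B', rfl⟩
          rw [tens_add, hr, hr, hr, map_add, tau_add]
          abel
        smul := by
          rintro c _ ⟨A, B, rfl⟩
          rw [tens_smul, hr, hr, map_smul, tau_smul, smul_add]
        lie := by
          rintro _ ⟨A, B, rfl⟩ _ ⟨A', B', rfl⟩ m
          rw [tens_mul_sub, hr, hr, hr]
          have ht : (B * B' - B' * B).trace = 0 := by
            rw [Matrix.trace_sub, Matrix.trace_mul_comm, sub_self]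
          simp only [LinearMap.add_apply, tau_apply, map_add, map_smul, hρ, hσ, ht, zero_div,
            zero_smul, add_zero, z1, z2, hρσ, smul_add, smul_sub]
          have hρ1 : ∀ A m, ρ 1 (ρ A m) = ρ A (ρ 1 m) := by
            intro A m
            have h1 := hρ A 1 m
            rw [mul_one, one_mul, sub_self, map_zero, LinearMap.zero_apply] at h1
            exact (sub_eq_zero.1 h1.symm).symm
          have hσ1 : ∀ B m, σ 1 (σ B m) = σ B (σ 1 m) := by
            intro B m
            have h1 := hσ B 1 m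
            rw [mul_one, one_mul, sub_self, map_zero, LinearMap.zero_apply] at h1
            exact (sub_eq_zero.1 h1.symm).symm
          simp only [map_sub, map_smul, hρ1, hσ1, hρσ, smul_sub,
            smul_comm (B.trace / (b : ℂ)) (B'.trace / (b : ℂ))]
          abel
        eqv := by
          rintro _ ⟨A, B, rfl⟩ j m
          simp only [hX]
          rw [← ix_eta j]
          generalize rw' j = x
          generalize cl' j = y
          rw [hr, sum_ix]
          have e1 : ∑ x' : Fin a, ∑ y' : Fin b, tens A B (ix x' y') (ix x y) • f (ix x' y') • m =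
              (∑ x' : Fin a, A x' x • f (ix x' y) • m) + ∑ y' : Fin b, B y' y • f (ix x y') • m := by
            simp only [tens_ix, add_smul, ite_smul, zero_smul, sum_add_distrib, sum_ite_eq',
              mem_univ, if_true]
            congr 1
            rw [sum_comm]
            simp only [sum_ite_eq', mem_univ, if_true]
          rw [e1]
          simp only [LinearMap.add_apply, tau_apply, hρf A, hσf B, z3, smul_add]
          rw [hs]
          abel
        adj := by
          rintro _ ⟨A, B, rfl⟩ m m'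
          rw [tens_conj, hr, hr]
          simp only [LinearMap.add_apply, tau_apply, inner_add_left, inner_add_right, hρs A, hσs B,
            inner_smul_left, inner_smul_right, z4, Matrix.trace_conjTranspose]
          rw [map_div₀, Complex.conj_natCast]
          rfl }
    exact gen_main S (a * b) (GG a b) (alg_GG a b) (crit_GG a b) f hreg M (rr ρ σ) hact R i
  · have h0 : a * b = 0 := by
      rcases not_and_or.1 hab with h | h
      · rw [not_not.1 h, zero_mul]
      · rw [not_not.1 h, mul_zero]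
    have hact : GAct (a * b) (GG a b) (opv ℂ (ext0 f) M) (fun _ => 0) :=
      { add := fun _ _ _ _ => by simp
        smul := fun _ _ _ => by simp
        lie := fun _ _ _ _ _ => by simp
        eqv := fun _ _ j => absurd j.2 (by omega)
        adj := fun _ _ _ _ => by simp }
    exact gen_main S (a * b) (GG a b) (alg_GG a b) (crit_GG a b) f hreg M _ hact R i

end

end Pool.Agent.E8helper43.BE
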