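import Pool.Agent.E8helper43.BE.Pairs

set_option autoImplicit false

/-!
# The Casimir identity on the exterior algebra of a space of (skew-)symmetric matrices
-/

namespace Pool.Agent.E8helper43.BE

open Pool.Agent.W650 Pool.Agent.E8helper33.BE Finset

noncomputable section

variable {k n : ℕ} (P : Prs k n)

/-- `[x = s, y = t] + ε [x = t, y = s]` -/
def dd (e : ℤ) (x y s t : Fin k) : ℂ :=
  (if y = t then (if x = s then 1 else 0) else 0) +
    (e : ℂ) * (if y = s then (if x = t then 1 else 0) else 0)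

theorem dd_swap {e : ℤ} (he : (e : ℂ) * e = 1) (x y s t : Fin k) :
    dd e y x s t = e * dd e x y s t := by
  have h1 : ∀ (a b c d : Fin k), (if a = b then (if c = d then (1 : ℂ) else 0) else 0) =
      (if c = d then (if a = b then 1 else 0) else 0) := by
    intro a b c d
    by_cases h : a = b <;> by_cases h' : c = d <;> simp [h, h']
  unfold dd
  rw [h1 x t y s, h1 x s y t]
  linear_combination (-(if y = s then (if x = t then (1 : ℂ) else 0) else 0)) * he

theorem dd_swap' {e : ℤ} (he : (e : ℂ) * e = 1) (x y s t : Fin k) :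
    dd e x y t s = e * dd e x y s t := by
  unfold dd
  linear_combination (-(if y = s then (if x = t then (1 : ℂ) else 0) else 0)) * he

theorem sum_dd {V : Type*} [AddCommGroup V] [Module ℂ V] (e : ℤ) (x y : Fin k)
    (g : Fin k → Fin k → V) : ∑ s, ∑ t, dd e x y s t • g s t = g x y + (e : ℂ) • g y x := by
  have h1 : ∀ s t, dd e x y s t • g s t = (if y = t then (if x = s then g s t else 0) else 0) +
      (e : ℂ) • (if y = s then (if x = t then g s t else 0) else 0) := by
    intro s t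
    unfold dd
    rw [add_smul, mul_smul]
    congr 1
    · split_ifs <;> simp
    · split_ifs <;> simp
  rw [sum_congr rfl fun s _ => sum_congr rfl fun t _ => h1 s t]
  simp_rw [sum_add_distrib, ← smul_sum]
  congr 1
  · simp
  · congr 1
    rw [sum_comm]
    simp

/-- hatted creation operators -/
def Prs.hC (x y : Fin k) : KT ℂ n →ₗ[ℂ] KT ℂ n :=
  ∑ i : Fin n, ((P.c i : ℂ) * dd P.ε x y (P.u i) (P.v i)) • Cr (k := ℂ) (M := ℂ) n i

/-- hatted annihilation operators -/
def Prs.hA (x y : Fin k) : KT ℂ n →ₗ[ℂ] KT ℂ n :=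
  ∑ i : Fin n, ((P.c i : ℂ) * dd P.ε x y (P.u i) (P.v i)) • An (k := ℂ) (M := ℂ) n i

theorem Prs.hC_apply (x y : Fin k) (z : KT ℂ n) : P.hC x y z =
    ∑ i : Fin n, ((P.c i : ℂ) * dd P.ε x y (P.u i) (P.v i)) • Cr (k := ℂ) (M := ℂ) n i z := by
  unfold Prs.hC
  rw [LinearMap.sum_apply]
  rfl

theorem Prs.hA_apply (x y : Fin k) (z : KT ℂ n) : P.hA x y z =
    ∑ i : Fin n, ((P.c i : ℂ) * dd P.ε x y (P.u i) (P.v i)) • An (k := ℂ) (M := ℂ) n i z := by
  unfold Prs.hA
  rw [LinearMap.sum_apply]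
  rfl

theorem Prs.hC_swap (x y : Fin k) (z : KT ℂ n) : P.hC y x z = (P.ε : ℂ) • P.hC x y z := by
  rw [P.hC_apply, P.hC_apply, smul_sum]
  refine sum_congr rfl fun i _ => ?_
  rw [dd_swap P.ε2 x y, smul_smul]
  congr 1
  ring

theorem Prs.hA_swap (x y : Fin k) (z : KT ℂ n) : P.hA y x z = (P.ε : ℂ) • P.hA x y z := by
  rw [P.hA_apply, P.hA_apply, smul_sum]
  refine sum_congr rfl fun i _ => ?_
  rw [dd_swap P.ε2 x y, smul_smul]
  congr 1
  ring

theorem Prs.hA_hA (x y s t : Fin k) (z : KT ℂ n) :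
    P.hA x y (P.hA s t z) = -(P.hA s t (P.hA x y z)) := by
  simp only [P.hA_apply, map_sum, map_smul, smul_sum]
  rw [sum_comm, ← sum_neg_distrib]
  refine sum_congr rfl fun i _ => ?_
  rw [← sum_neg_distrib]
  refine sum_congr rfl fun j _ => ?_
  rw [An_An, smul_neg, smul_neg, smul_comm]

theorem Prs.sum_c2 (x y s t : Fin k) :
    ∑ i, ((P.c i : ℂ) ^ 2) * (dd P.ε x y (P.u i) (P.v i) * dd P.ε s t (P.u i) (P.v i)) =
      dd P.ε s t x y := by
  have h1 := P.sf (V := ℂ) (fun a b => dd P.ε x y a b * dd P.ε s t a b) (by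
    intro a b
    show dd P.ε x y b a * dd P.ε s t b a = _
    rw [dd_swap' P.ε2 x y a b, dd_swap' P.ε2 s t a b]
    linear_combination (dd P.ε x y a b * dd P.ε s t a b) * P.ε2) (by
    intro he a
    have := dd_swap' P.ε2 x y a a
    rw [he] at this
    have h1 : dd (-1) x y a a = 0 := by
      push_cast at this
      linear_combination (1 / 2 : ℂ) * this
    show dd P.ε x y a a * _ = 0
    rw [he, h1, zero_mul])
  simp only [smul_eq_mul] at h1
  rw [h1]
  have h2 := sum_dd (V := ℂ) P.ε x y (fun a b => dd P.ε s t a b)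
  simp only [smul_eq_mul] at h2
  rw [h2, dd_swap' P.ε2 s t x y]
  linear_combination (1 / 2 : ℂ) * dd P.ε s t x y * P.ε2

theorem Prs.hA_hC (x y s t : Fin k) (z : KT ℂ n) :
    P.hA x y (P.hC s t z) = dd P.ε s t x y • z - P.hC s t (P.hA x y z) := by
  rw [← P.sum_c2 x y s t]
  have e1 : P.hA x y (P.hC s t z) = ∑ i : Fin n, ∑ j : Fin n,
      (((P.c i : ℂ) * dd P.ε x y (P.u i) (P.v i)) * ((P.c j : ℂ) * dd P.ε s t (P.u j) (P.v j))) •
        ((if i = j then z else 0) - Cr (k := ℂ) (M := ℂ) n j (An (k := ℂ) (M := ℂ) n i z)) := by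
    simp only [P.hA_apply, P.hC_apply, map_sum, map_smul, smul_sum, smul_smul]
    refine sum_congr rfl fun i _ => sum_congr rfl fun j _ => ?_
    rw [An_Cr i.2]
    congr 2
    by_cases h : i = j
    · subst h; simp
    · rw [if_neg h, if_neg (fun h' => h (Fin.ext h'))]
  have e2 : P.hC s t (P.hA x y z) = ∑ i : Fin n, ∑ j : Fin n,
      (((P.c i : ℂ) * dd P.ε x y (P.u i) (P.v i)) * ((P.c j : ℂ) * dd P.ε s t (P.u j) (P.v j))) •
        Cr (k := ℂ) (M := ℂ) n j (An (k := ℂ) (M := ℂ) n i z) := by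
    simp only [P.hA_apply, P.hC_apply, map_sum, map_smul, smul_sum, smul_smul]
    rw [sum_comm]
    refine sum_congr rfl fun i _ => sum_congr rfl fun j _ => ?_
    congr 1
    ring
  rw [e1, e2]
  simp_rw [smul_sub, sum_sub_distrib]
  congr 1
  rw [sum_smul]
  refine sum_congr rfl fun i _ => ?_
  rw [sum_eq_single i]
  · rw [if_pos rfl]
    congr 1
    ring
  · intro j _ hj
    rw [if_neg hj.symm, smul_zero]
  · simp

/-- the operators of matrix units -/
def Prs.E (p p' : Fin k) (z : KT ℂ n) : KT ℂ n := ∑ y, P.hC p y (P.hA p' y z)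

theorem Prs.four_swap (p p' y w : Fin k) (z : KT ℂ n) :
    P.hC p y (P.hC p' w (P.hA p' y (P.hA p w z))) =
      P.hC y p (P.hC w p' (P.hA y p' (P.hA w p z))) := by
  rw [P.hC_swap y p, P.hC_swap w p', P.hA_swap y p', P.hA_swap w p]
  rw [map_smul, map_smul, map_smul, map_smul, map_smul, map_smul, smul_smul, smul_smul, smul_smul]
  rw [P.ε2, one_mul, P.ε2, one_smul]

theorem neg_self_zero {V : Type*} [AddCommGroup V] [Module ℂ V] {v : V} (h : v = -v) : v = 0 := by
  have h4 : (2 : ℂ) • v = 0 := by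
    rw [two_smul]
    nth_rewrite 1 [h]
    exact neg_add_cancel _
  exact (smul_eq_zero.1 h4).resolve_left two_ne_zero

theorem Prs.quad_zero (z : KT ℂ n) :
    ∑ p, ∑ p', ∑ y, ∑ w, P.hC p y (P.hC p' w (P.hA p' y (P.hA p w z))) = 0 := by
  apply neg_self_zero
  have h2 : ∀ p p' y w : Fin k, P.hC p y (P.hC p' w (P.hA p' y (P.hA p w z))) =
      -(P.hC y p (P.hC w p' (P.hA w p (P.hA y p' z)))) := by
    intro p p' y w
    rw [P.four_swap, P.hA_hA y p' w p, map_neg, map_neg]
  conv_rhs => rw [← reorder fun p p' y w => P.hC p y (P.hC p' w (P.hA p' y (P.hA p w z)))]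
  rw [← sum_neg_distrib]
  refine sum_congr rfl fun y _ => ?_
  rw [← sum_neg_distrib]
  refine sum_congr rfl fun w _ => ?_
  rw [← sum_neg_distrib]
  refine sum_congr rfl fun p _ => ?_
  rw [← sum_neg_distrib]
  exact sum_congr rfl fun p' _ => h2 y w p p'

theorem Prs.inner_sum (p p' y : Fin k) (z : KT ℂ n) :
    ∑ w, dd P.ε p' w p' y • P.hC p y (P.hA p w z) = P.hC p y (P.hA p y z) +
      (if y = p' then (P.ε : ℂ) • P.hC p p' (P.hA p p' z) else 0) := by
  have e : ∀ w, dd P.ε p' w p' y • P.hC p y (P.hA p w z) =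
      (if w = y then P.hC p y (P.hA p w z) else 0) +
      (if w = p' then (if y = p' then (P.ε : ℂ) • P.hC p y (P.hA p w z) else 0) else 0) := by
    intro w
    unfold dd
    rw [add_smul, if_pos rfl]
    congr 1
    · by_cases h : w = y
      · rw [if_pos h, if_pos h, one_smul]
      · rw [if_neg h, if_neg h, zero_smul]
    · by_cases h : w = p'
      · rw [if_pos h, if_pos h]
        by_cases h' : y = p'
        · rw [if_pos h'.symm, if_pos h', mul_one]
        · rw [if_neg (Ne.symm h'), if_neg h', mul_zero, zero_smul]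
      · rw [if_neg h, if_neg h, mul_zero, zero_smul]
  rw [sum_congr rfl fun w _ => e w, sum_add_distrib, sum_ite_eq' univ y, if_pos (mem_univ _),
    sum_ite_eq' univ p', if_pos (mem_univ _)]
  congr 1
  by_cases h : y = p'
  · subst h; rfl
  · rw [if_neg h, if_neg h]

theorem Prs.casimir (z : KT ℂ n) :
    ∑ p, ∑ p', P.E p p' (P.E p' p z) = (((k : ℤ) + P.ε : ℤ) : ℂ) • ∑ p, P.E p p z := by
  have h1 : ∀ p p' : Fin k, P.E p p' (P.E p' p z) = ∑ y, (P.hC p y (P.hA p y z) +
      (if y = p' then (P.ε : ℂ) • P.hC p p' (P.hA p p' z) else 0)) -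
      ∑ y, ∑ w, P.hC p y (P.hC p' w (P.hA p' y (P.hA p w z))) := by
    intro p p'
    unfold Prs.E
    rw [← sum_sub_distrib]
    refine sum_congr rfl fun y _ => ?_
    rw [← P.inner_sum p p' y z, map_sum, map_sum, ← sum_sub_distrib]
    refine sum_congr rfl fun w _ => ?_
    rw [P.hA_hC, map_sub, map_smul]
  rw [sum_congr rfl fun p _ => sum_congr rfl fun p' _ => h1 p p']
  simp_rw [sum_sub_distrib]
  rw [P.quad_zero, sub_zero, smul_sum]
  refine sum_congr rfl fun p _ => ?_
  simp_rw [sum_add_distrib]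
  have h6 : ∑ p' : Fin k, ∑ y : Fin k, (if y = p' then (P.ε : ℂ) • P.hC p p' (P.hA p p' z) else 0) =
      (P.ε : ℂ) • ∑ y, P.hC p y (P.hA p y z) := by
    rw [smul_sum]
    refine sum_congr rfl fun p' _ => ?_
    rw [sum_ite_eq' univ p', if_pos (mem_univ _)]
  rw [h6, sum_const, card_univ, Fintype.card_fin, ← Nat.cast_smul_eq_nsmul ℂ, ← add_smul]
  push_cast
  rfl

theorem Prs.dG_E (p p' : Fin k) (z : KT ℂ n) :
    dG ℂ ℂ (P.S (Matrix.single p p' 1)) z = P.E p p' z := by
  unfold Prs.E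
  have e2 : ∀ y, P.hC p y (P.hA p' y z) = ∑ i : Fin n, ∑ j : Fin n,
      ((P.c i : ℂ) * P.c j * (dd P.ε p y (P.u i) (P.v i) * dd P.ε p' y (P.u j) (P.v j))) •
        Cr (k := ℂ) (M := ℂ) n i (An (k := ℂ) (M := ℂ) n j z) := by
    intro y
    simp only [P.hA_apply, P.hC_apply, map_sum, map_smul, smul_sum, smul_smul]
    refine sum_congr rfl fun i _ => sum_congr rfl fun j _ => ?_
    congr 1
    ring
  have e4 : ∑ y : Fin k, P.hC p y (P.hA p' y z) = ∑ i : Fin n, ∑ j : Fin n,
      (∑ y : Fin k, (P.c i : ℂ) * P.c j * (dd P.ε p y (P.u i) (P.v i) * dd P.ε p' y (P.u j) (P.v j))) •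
        Cr (k := ℂ) (M := ℂ) n i (An (k := ℂ) (M := ℂ) n j z) := by
    simp_rw [e2]
    rw [sum_comm]
    refine sum_congr rfl fun i _ => ?_
    rw [sum_comm]
    refine sum_congr rfl fun j _ => ?_
    rw [sum_smul]
  rw [e4, dG_apply]
  refine sum_congr rfl fun i _ => sum_congr rfl fun j _ => ?_
  congr 1
  rw [← mul_sum]
  show (P.c i : ℂ) * P.c j * tt P.ε _ (P.u i) (P.v i) (P.u j) (P.v j) = _
  congr 1
  have hs : ∀ (s t : Fin k) (α β : ℂ), ∑ y : Fin k, (if y = s then α else 0) * (if y = t then β else 0) =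
      if s = t then α * β else 0 := by
    intro s t α β
    rw [sum_eq_single s]
    · rw [if_pos rfl]
      by_cases h : s = t
      · rw [if_pos h, if_pos h]
      · rw [if_neg h, if_neg h, mul_zero]
    · intro y _ hy
      rw [if_neg hy, zero_mul]
    · simp
  have hsg : ∀ a b : Fin k, (if p = a then (1 : ℂ) else 0) * (if p' = b then 1 else 0) =
      Matrix.single p p' 1 a b := by
    intro a b
    rw [Matrix.single_apply]
    by_cases h : p = a <;> by_cases h' : p' = b <;> simp [h, h']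
  unfold tt dd
  have e3 : ∀ y : Fin k, ((if y = P.v i then (if p = P.u i then (1 : ℂ) else 0) else 0) +
      (P.ε : ℂ) * (if y = P.u i then (if p = P.v i then 1 else 0) else 0)) *
      ((if y = P.v j then (if p' = P.u j then 1 else 0) else 0) +
      (P.ε : ℂ) * (if y = P.u j then (if p' = P.v j then 1 else 0) else 0)) =
      (if y = P.v i then (if p = P.u i then (1 : ℂ) else 0) else 0) *
        (if y = P.v j then (if p' = P.u j then 1 else 0) else 0) +
      (if y = P.u i then (if p = P.v i then (1 : ℂ) else 0) else 0) *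
        (if y = P.u j then (if p' = P.v j then 1 else 0) else 0) +
      (P.ε : ℂ) * ((if y = P.v i then (if p = P.u i then (1 : ℂ) else 0) else 0) *
        (if y = P.u j then (if p' = P.v j then 1 else 0) else 0)) +
      (P.ε : ℂ) * ((if y = P.u i then (if p = P.v i then (1 : ℂ) else 0) else 0) *
        (if y = P.v j then (if p' = P.u j then 1 else 0) else 0)) := by
    intro y
    linear_combination ((if y = P.u i then (if p = P.v i then (1 : ℂ) else 0) else 0) *
        (if y = P.u j then (if p' = P.v j then 1 else 0) else 0)) * P.ε2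
  rw [sum_congr rfl fun y _ => e3 y]
  simp_rw [sum_add_distrib, ← mul_sum, hs, hsg]
  rw [tens_ix, tens_ix]
  ring

theorem dG_diag (d : Fin n → ℂ) (l : List ℕ) :
    dG ℂ ℂ (Matrix.diagonal d) (vL ℂ n l (1 : ℂ)) =
      (∑ i : Fin n, if (i : ℕ) ∈ l then d i else 0) • vL ℂ n l (1 : ℂ) := by
  rw [dG_apply, sum_smul]
  refine sum_congr rfl fun a _ => ?_
  rw [sum_eq_single a]
  · rw [Matrix.diagonal_apply_eq]
    by_cases hb : (a : ℕ) ∈ l
    · have h1 := An_Cr_self (k := ℂ) n a a.2 (vL ℂ n l (1 : ℂ))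
      rw [Cr_vL n a 1 l hb, map_zero] at h1
      rw [if_pos hb, ← sub_eq_zero.1 h1.symm]
    · rw [if_neg hb, An_vL n a 1 l hb, map_zero, smul_zero, zero_smul]
  · intro b _ hb
    rw [Matrix.diagonal_apply_ne _ hb.symm, zero_smul]
  · simp

/-- the weight of a list -/
def Prs.wt (l : List ℕ) (p : Fin k) : ℤ :=
  ∑ i : Fin n, if (i : ℕ) ∈ l then ((if P.u i = p then 1 else 0) + (if P.v i = p then 1 else 0)) else 0

theorem Prs.E_vL (l : List ℕ) (p : Fin k) : P.E p p (vL ℂ n l (1 : ℂ)) =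
    ((P.wt l p : ℤ) : ℂ) • vL ℂ n l (1 : ℂ) := by
  have h1 : (Matrix.single p p (1 : ℂ)) = dm fun x : Fin k => if x = p then 1 else 0 := by
    ext x y
    unfold dm
    rw [Matrix.single_apply, Matrix.diagonal_apply]
    by_cases hxy : x = y
    · subst hxy
      by_cases hx : p = x
      · subst hx; simp
      · rw [if_neg (fun h => hx h.1), if_pos rfl]
        show (0 : ℂ) = (((if x = p then (1 : ℝ) else 0) : ℝ) : ℂ)
        rw [if_neg (Ne.symm hx)]
        simp
    · rw [if_neg (fun h => hxy (h.1.symm.trans h.2)), if_neg hxy]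
  rw [← P.dG_E, h1, P.S_dm]
  unfold dm
  rw [dG_diag]
  congr 1
  unfold Prs.wt
  rw [Int.cast_sum]
  refine sum_congr rfl fun i _ => ?_
  by_cases hi : (i : ℕ) ∈ l
  · rw [if_pos hi, if_pos hi]
    push_cast
    congr 1 <;> split_ifs <;> simp
  · rw [if_neg hi, if_neg hi]
    simp

end

end Pool.Agent.E8helper43.BE
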