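import Pool.Agent.E8helper43.BE.PCas

set_option autoImplicit false

/-!
# The criterion for (skew-)symmetric matrices
-/

namespace Pool.Agent.E8helper43.BE

open Pool.Agent.W650 Pool.Agent.E8helper33.BE Finset

noncomputable section

variable {k n : ℕ} (P : Prs k n)

theorem Prs.upp_single {p p' : Fin k} (h : p < p') : IsUpp (P.S (Matrix.single p p' 1)) := by
  have h1 : uppP (P.S (Matrix.single p p' 1)) = P.S (uppP (Matrix.single p p' (1 : ℂ))) :=
    P.part_S (fun i j => i < j) (fun i j => i < j) (fun _ _ h => P.lt_v h)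
      (fun _ _ h => P.lt_u h) (fun i j h => P.lt_vu h)
      (fun i j h => iff_of_false (P.nlt_uv h).1 (P.nlt_uv h).2) _
  have h2 : uppP (Matrix.single p p' (1 : ℂ)) = Matrix.single p p' 1 := by
    ext x y
    show (if x < y then Matrix.single p p' (1 : ℂ) x y else 0) = _
    rw [Matrix.single_apply]
    by_cases hxy : p = x ∧ p' = y
    · rw [if_pos hxy, if_pos (by rw [← hxy.1, ← hxy.2]; exact h)]
    · rw [if_neg hxy, ite_self]
  rw [h2] at h1
  rw [← h1]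
  exact isUpp_uppP _

/-- the span of the lowered raised vectors -/
def Prs.SS (l : List ℕ) : Submodule ℂ (KT ℂ n) :=
  Submodule.span ℂ {x | ∃ A ∈ P.G, ∃ B ∈ P.G, IsUpp B ∧
      x = dG ℂ ℂ A (dG ℂ ℂ B (vL ℂ n l (1 : ℂ)))}

theorem Prs.E_mem (l : List ℕ) (p p' : Fin k) : P.E p p' (P.E p' p (vL ℂ n l (1 : ℂ))) -
      (((if p < p' then P.wt l p - P.wt l p' else 0) +
        (if p = p' then (P.wt l p) ^ 2 else 0) : ℤ) : ℂ) • vL ℂ n l (1 : ℂ) ∈ P.SS l := by
  rcases lt_trichotomy p p' with h | h | h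
  · rw [← P.dG_E p p', ← P.dG_E p' p, if_pos h, if_neg h.ne, add_zero, dG_comm, P.S_lie,
      add_sub_right_comm]
    refine Submodule.add_mem _ ?_ (Submodule.subset_span
      ⟨_, ⟨_, rfl⟩, _, ⟨_, rfl⟩, P.upp_single h, rfl⟩)
    have e1 : (Matrix.single p p' (1 : ℂ) * Matrix.single p' p 1 -
        Matrix.single p' p 1 * Matrix.single p p' 1 : Matrix (Fin k) (Fin k) ℂ) =
        Matrix.single p p 1 + (-1 : ℂ) • Matrix.single p' p' 1 := by
      rw [Matrix.single_mul_single_same, Matrix.single_mul_single_same, mul_one, neg_one_smul,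
        sub_eq_add_neg]
    rw [e1, ← P.S_add, ← P.S_smul, dG_add, dG_smul, P.dG_E, P.dG_E, P.E_vL, P.E_vL, smul_smul,
      ← add_smul, ← sub_smul]
    push_cast
    rw [show (P.wt l p : ℂ) + -1 * (P.wt l p' : ℂ) - ((P.wt l p : ℂ) - (P.wt l p' : ℂ)) = 0 by ring,
      zero_smul]
    exact Submodule.zero_mem _
  · subst h
    rw [if_neg (lt_irrefl _), if_pos rfl, zero_add, P.E_vL, ← P.dG_E, map_smul, P.dG_E, P.E_vL,
      smul_smul]
    push_cast
    rw [← sq, sub_self]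
    exact Submodule.zero_mem _
  · rw [← P.dG_E p p', ← P.dG_E p' p, if_neg (lt_asymm h), if_neg h.ne', add_zero]
    push_cast
    rw [zero_smul, sub_zero]
    exact Submodule.subset_span ⟨_, ⟨_, rfl⟩, _, ⟨_, rfl⟩, P.upp_single h, rfl⟩

theorem Prs.sum_wt (l : List ℕ) (g : Fin k → ℤ) : ∑ p, g p * P.wt l p =
    ∑ i : Fin n, if (i : ℕ) ∈ l then g (P.u i) + g (P.v i) else 0 := by
  unfold Prs.wt
  simp_rw [mul_sum]
  rw [sum_comm]
  refine sum_congr rfl fun i _ => ?_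
  by_cases h : (i : ℕ) ∈ l
  · simp only [if_pos h, mul_add, sum_add_distrib, mul_ite, mul_one, mul_zero, sum_ite_eq,
      mem_univ, if_true]
  · simp only [if_neg h, mul_zero, sum_const_zero]

/-- the rows of the shifted diagram -/
def Prs.K (l : List ℕ) (p : Fin k) (j : Fin (k + 1)) : ℤ :=
  ∑ i : Fin n, if (i : ℕ) ∈ l then
    ((if P.v i = p then (if ((P.u i : ℕ) : ℤ) = ((j : ℕ) : ℤ) then 1 else 0) else 0) +
    (if P.u i = p then (if ((P.v i : ℕ) : ℤ) + P.ε = ((j : ℕ) : ℤ) then 1 else 0) else 0)) else 0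

theorem sum_fin_int (k : ℕ) (t : ℤ) (h0 : 0 ≤ t) (hk : t ≤ k) (g : ℤ → ℤ) :
    ∑ j : Fin (k + 1), g ((j : ℕ) : ℤ) * (if t = ((j : ℕ) : ℤ) then 1 else 0) = g t := by
  have hlt : t.toNat < k + 1 := by omega
  rw [sum_eq_single ⟨t.toNat, hlt⟩]
  · have : (((⟨t.toNat, hlt⟩ : Fin (k + 1)) : ℕ) : ℤ) = t := by
      show ((t.toNat : ℕ) : ℤ) = t
      omega
    rw [this, if_pos rfl, mul_one]
  · intro j _ hj
    rw [if_neg, mul_zero]
    intro h
    apply hj
    ext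
    show (j : ℕ) = t.toNat
    omega
  · simp

theorem Prs.bd (i : Fin n) : 0 ≤ ((P.v i : ℕ) : ℤ) + P.ε ∧ ((P.v i : ℕ) : ℤ) + P.ε ≤ k := by
  have h1 := (P.v i).2
  rcases P.hε with h | h
  · rw [h]; omega
  · have h2 := P.strict h i
    have h3 : (P.u i : ℕ) < (P.v i : ℕ) := h2
    rw [h]; omega

theorem Prs.sum_K (l : List ℕ) (p : Fin k) (g : ℤ → ℤ) :
    ∑ j : Fin (k + 1), g ((j : ℕ) : ℤ) * P.K l p j = ∑ i : Fin n, if (i : ℕ) ∈ l then
      ((if P.v i = p then g ((P.u i : ℕ) : ℤ) else 0) +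
      (if P.u i = p then g (((P.v i : ℕ) : ℤ) + P.ε) else 0)) else 0 := by
  unfold Prs.K
  simp_rw [mul_sum]
  rw [sum_comm]
  refine sum_congr rfl fun i _ => ?_
  by_cases h : (i : ℕ) ∈ l
  · simp only [if_pos h, mul_add, sum_add_distrib]
    congr 1
    · by_cases h' : P.v i = p
      · simp only [if_pos h']
        exact sum_fin_int k _ (by omega) (by have := (P.u i).2; omega) g
      · simp only [if_neg h', mul_zero, sum_const_zero]
    · by_cases h' : P.u i = p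
      · simp only [if_pos h']
        exact sum_fin_int k _ (P.bd i).1 (P.bd i).2 g
      · simp only [if_neg h', mul_zero, sum_const_zero]
  · simp only [if_neg h, mul_zero, sum_const_zero]

/-- the pairs of the list -/
def Prs.L (l : List ℕ) (x y : ℤ) : Prop :=
  ∃ i : Fin n, (i : ℕ) ∈ l ∧ ((P.u i : ℕ) : ℤ) = x ∧ ((P.v i : ℕ) : ℤ) = y

theorem Prs.L_bd (l : List ℕ) (x y : ℤ) (h : P.L l x y) :
    0 ≤ x ∧ x ≤ y ∧ y < k ∧ (P.ε = -1 → x < y) := by
  obtain ⟨i, -, rfl, rfl⟩ := h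
  have h1 : (P.u i : ℕ) ≤ (P.v i : ℕ) := P.le i
  have h2 := (P.v i).2
  refine ⟨by omega, by omega, by omega, fun he => ?_⟩
  have h3 : (P.u i : ℕ) < (P.v i : ℕ) := P.strict he i
  omega

theorem Prs.K_cases (l : List ℕ) (p : Fin k) (j : Fin (k + 1)) :
    (P.K l p j = 0 ∨ P.K l p j = 1) ∧
    (P.K l p j = 1 ↔ (P.L l ((j : ℕ) : ℤ) ((p : ℕ) : ℤ) ∨ P.L l ((p : ℕ) : ℤ) (((j : ℕ) : ℤ) - P.ε))) := by
  set Q : Fin n → Prop := fun i => (i : ℕ) ∈ l ∧
    ((P.v i = p ∧ ((P.u i : ℕ) : ℤ) = ((j : ℕ) : ℤ)) ∨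
      (P.u i = p ∧ ((P.v i : ℕ) : ℤ) + P.ε = ((j : ℕ) : ℤ))) with hQ
  have hLQ : (P.L l ((j : ℕ) : ℤ) ((p : ℕ) : ℤ) ∨ P.L l ((p : ℕ) : ℤ) (((j : ℕ) : ℤ) - P.ε)) ↔
      ∃ i, Q i := by
    constructor
    · rintro (⟨i, hi, h1, h2⟩ | ⟨i, hi, h1, h2⟩)
      · exact ⟨i, hi, Or.inl ⟨Fin.ext (by omega), h1⟩⟩
      · exact ⟨i, hi, Or.inr ⟨Fin.ext (by omega), by omega⟩⟩
    · rintro ⟨i, hi, ⟨h1, h2⟩ | ⟨h1, h2⟩⟩
      · exact Or.inl ⟨i, hi, h2, by rw [h1]⟩
      · exact Or.inr ⟨i, hi, by rw [h1], by omega⟩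
  -- the two conditions exclude each other
  have hex : ∀ i i' : Fin n, P.v i = p → ((P.u i : ℕ) : ℤ) = ((j : ℕ) : ℤ) → P.u i' = p →
      ((P.v i' : ℕ) : ℤ) + P.ε = ((j : ℕ) : ℤ) → False := by
    intro i i' h1 h2 h3 h4
    have a1 : (P.u i : ℕ) ≤ (P.v i : ℕ) := P.le i
    have a2 : (P.u i' : ℕ) ≤ (P.v i' : ℕ) := P.le i'
    rw [h1] at a1
    rw [h3] at a2
    rcases P.hε with h | h
    · rw [h] at h4; omega
    · have a3 : (P.u i : ℕ) < (P.v i : ℕ) := P.strict h i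
      have a4 : (P.u i' : ℕ) < (P.v i' : ℕ) := P.strict h i'
      rw [h1] at a3
      rw [h3] at a4
      rw [h] at h4
      omega
  have huniq : ∀ i i', Q i → Q i' → i = i' := by
    rintro i i' ⟨-, ⟨h1, h2⟩ | ⟨h1, h2⟩⟩ ⟨-, ⟨h3, h4⟩ | ⟨h3, h4⟩⟩
    · exact P.inj i i' (Fin.ext (by omega)) (by rw [h1, h3])
    · exact (hex i i' h1 h2 h3 h4).elim
    · exact (hex i' i h3 h4 h1 h2).elim
    · exact P.inj i i' (by rw [h1, h3]) (Fin.ext (by omega))
  classical
  have hterm : ∀ i : Fin n, (if (i : ℕ) ∈ l then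
    ((if P.v i = p then (if ((P.u i : ℕ) : ℤ) = ((j : ℕ) : ℤ) then (1 : ℤ) else 0) else 0) +
    (if P.u i = p then (if ((P.v i : ℕ) : ℤ) + P.ε = ((j : ℕ) : ℤ) then 1 else 0) else 0)) else 0) =
      if Q i then 1 else 0 := by
    intro i
    by_cases hi : (i : ℕ) ∈ l
    · rw [if_pos hi]
      by_cases ha : P.v i = p ∧ ((P.u i : ℕ) : ℤ) = ((j : ℕ) : ℤ)
      · have hb : ¬ (P.u i = p ∧ ((P.v i : ℕ) : ℤ) + P.ε = ((j : ℕ) : ℤ)) := fun hb =>
          hex i i ha.1 ha.2 hb.1 hb.2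
        rw [if_pos (show Q i from ⟨hi, Or.inl ha⟩), if_pos ha.1, if_pos ha.2]
        by_cases hb1 : P.u i = p
        · rw [if_pos hb1, if_neg (fun h => hb ⟨hb1, h⟩), add_zero]
        · rw [if_neg hb1, add_zero]
      · have h1 : (if P.v i = p then (if ((P.u i : ℕ) : ℤ) = ((j : ℕ) : ℤ) then (1 : ℤ) else 0) else 0)
            = 0 := by
          by_cases ha1 : P.v i = p
          · rw [if_pos ha1, if_neg (fun h => ha ⟨ha1, h⟩)]
          · rw [if_neg ha1]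
        rw [h1, zero_add]
        by_cases hb1 : P.u i = p
        · rw [if_pos hb1]
          by_cases hb2 : ((P.v i : ℕ) : ℤ) + P.ε = ((j : ℕ) : ℤ)
          · rw [if_pos hb2, if_pos (show Q i from ⟨hi, Or.inr ⟨hb1, hb2⟩⟩)]
          · rw [if_neg hb2, if_neg]
            rintro ⟨-, h | h⟩
            · exact ha h
            · exact hb2 h.2
        · rw [if_neg hb1, if_neg]
          rintro ⟨-, h | h⟩
          · exact ha h
          · exact hb1 h.1
    · rw [if_neg hi, if_neg (fun h : Q i => hi h.1)]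
  have hK : P.K l p j = ∑ i : Fin n, if Q i then 1 else 0 := by
    unfold Prs.K
    exact sum_congr rfl fun i _ => hterm i
  rw [hLQ, hK]
  by_cases hq : ∃ i, Q i
  · obtain ⟨i, hi⟩ := hq
    have h1 : ∑ i : Fin n, (if Q i then (1 : ℤ) else 0) = 1 := by
      rw [sum_eq_single i]
      · rw [if_pos hi]
      · intro i' _ hne
        exact if_neg fun h => hne (huniq i' i h hi)
      · simp
    rw [h1]
    exact ⟨Or.inr rfl, fun _ => ⟨i, hi⟩, fun _ => rfl⟩
  · have h1 : ∑ i : Fin n, (if Q i then (1 : ℤ) else 0) = 0 :=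
      sum_eq_zero fun i _ => if_neg fun h => hq ⟨i, h⟩
    rw [h1]
    exact ⟨Or.inl rfl, fun h => absurd h (by norm_num), fun h => absurd h hq⟩

theorem Prs.crit : Crit n P.G := by
  intro l hnd hlt
  set v := vL ℂ n l (1 : ℂ) with hv
  have h1 : (∑ p, ∑ p', (P.E p p' (P.E p' p v) -
      (((if p < p' then P.wt l p - P.wt l p' else 0) +
        (if p = p' then (P.wt l p) ^ 2 else 0) : ℤ) : ℂ) • v)) ∈ P.SS l :=
    Submodule.sum_mem _ fun p _ => Submodule.sum_mem _ fun p' _ => P.E_mem l p p'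
  simp_rw [sum_sub_distrib] at h1
  rw [P.casimir, sum_congr rfl fun p _ => P.E_vL l p] at h1
  simp_rw [← sum_smul] at h1
  rw [smul_smul, ← sub_smul] at h1
  set C : ℤ := (∑ p, (P.wt l p) ^ 2 + ∑ p, ∑ p', (if p < p' then P.wt l p - P.wt l p' else 0)) -
      ((k : ℤ) + P.ε) * ∑ p, P.wt l p with hC
  have h4 : ((-C : ℤ) : ℂ) • v ∈ P.SS l := by
    convert h1 using 2
    have e1 : ∀ p p' : Fin k, (((if p < p' then P.wt l p - P.wt l p' else 0) +
        (if p = p' then (P.wt l p) ^ 2 else 0) : ℤ) : ℂ) =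
        (((if p < p' then P.wt l p - P.wt l p' else 0 : ℤ)) : ℂ) +
        (if p = p' then (((P.wt l p) ^ 2 : ℤ) : ℂ) else 0) := by
      intro x x'
      rw [Int.cast_add]
      congr 1
      split_ifs <;> simp
    simp_rw [e1, sum_add_distrib, sum_ite_eq, mem_univ, if_true]
    rw [hC]
    push_cast
    ring
  by_cases hC0 : C = 0
  · left
    have hrow : ∀ p, ∑ j, P.K l p j = P.wt l p := by
      intro p
      have h5 := P.sum_K l p (fun _ => 1)
      simp only [one_mul] at h5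
      rw [h5]
      unfold Prs.wt
      refine sum_congr rfl fun i _ => ?_
      by_cases hi : (i : ℕ) ∈ l
      · rw [if_pos hi, if_pos hi, add_comm]
      · rw [if_neg hi, if_neg hi]
    have hc : ∑ p, ((∑ j, P.K l p j) ^ 2 -
        ∑ j : Fin (k + 1), (2 * ((j : ℕ) : ℤ) + 1) * P.K l p j) = 0 := by
      rw [sum_sub_distrib, sum_congr rfl fun p _ => by rw [hrow p]]
      have h6 : ∑ p, ∑ j : Fin (k + 1), (2 * ((j : ℕ) : ℤ) + 1) * P.K l p j =
          ∑ i : Fin n, if (i : ℕ) ∈ l then ((2 * ((P.u i : ℕ) : ℤ) + 1) +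
            (2 * (((P.v i : ℕ) : ℤ) + P.ε) + 1)) else 0 := by
        rw [sum_congr rfl fun p _ => P.sum_K l p (fun t => 2 * t + 1), sum_comm]
        refine sum_congr rfl fun i _ => ?_
        by_cases hi : (i : ℕ) ∈ l
        · simp only [if_pos hi, sum_add_distrib, sum_ite_eq, mem_univ, if_true]
        · simp only [if_neg hi, sum_const_zero]
      have h7 := P.sum_wt l (fun p => 2 * ((p : ℕ) : ℤ) + 1 + P.ε)
      have h8 : ∑ i : Fin n, (if (i : ℕ) ∈ l then ((2 * ((P.u i : ℕ) : ℤ) + 1) +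
            (2 * (((P.v i : ℕ) : ℤ) + P.ε) + 1)) else 0) =
          ∑ p : Fin k, (2 * ((p : ℕ) : ℤ) + 1 + P.ε) * P.wt l p := by
        rw [h7]
        refine sum_congr rfl fun i _ => ?_
        by_cases hi : (i : ℕ) ∈ l
        · rw [if_pos hi, if_pos hi]
          ring
        · rw [if_neg hi, if_neg hi]
      rw [h6, h8, ← hC0, hC, sum_lt_diff fun p => P.wt l p]
      have h9 : ∑ p : Fin k, (2 * ((p : ℕ) : ℤ) + 1 + P.ε) * P.wt l p =
          ((k : ℤ) + P.ε) * ∑ p, P.wt l p -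
            ∑ p : Fin k, ((k : ℤ) - 1 - 2 * ((p : ℕ) : ℤ)) * P.wt l p := by
        rw [mul_sum, ← sum_sub_distrib]
        exact sum_congr rfl fun p _ => by ring
      rw [h9]
      ring
    have hK := rows_eq (fun p j => P.K l p j) (fun p j => (P.K_cases l p j).1) hc
    simp only [hrow] at hK
    -- the lengths of the rows as a function on the integers
    set w : ℤ → ℤ := fun x => if h : 0 ≤ x ∧ x < k then P.wt l ⟨x.toNat, by omega⟩ else 0 with hw
    have hwp : ∀ p : Fin k, w ((p : ℕ) : ℤ) = P.wt l p := by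
      intro p
      have h : 0 ≤ ((p : ℕ) : ℤ) ∧ ((p : ℕ) : ℤ) < k := ⟨by omega, by have := p.2; omega⟩
      rw [hw]
      show (if h : 0 ≤ ((p : ℕ) : ℤ) ∧ ((p : ℕ) : ℤ) < k then P.wt l ⟨((p : ℕ) : ℤ).toNat, _⟩
        else 0) = _
      rw [dif_pos h]
      congr 1
    have hLb := P.L_bd l
    have H : ∀ p, 0 ≤ p → p < (k : ℤ) → ∀ j, 0 ≤ j → j ≤ (k : ℤ) →
        ((P.L l j p ∨ P.L l p (j - P.ε)) ↔ j < w p) := by
      intro p hp0 hpk j hj0 hjk
      lift p to ℕ using hp0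
      lift j to ℕ using hj0
      have hpk' : p < k := by omega
      have hjk' : j < k + 1 := by omega
      have h1 := (P.K_cases l ⟨p, hpk'⟩ ⟨j, hjk'⟩).2
      have h2 := hK ⟨p, hpk'⟩ ⟨j, hjk'⟩
      rw [← hwp] at h2
      exact h1.symm.trans h2
    have hr := fun p => row_le (k + 1) (fun j => P.K l p j) (fun j => (P.K_cases l p j).1)
    have hw0 : ∀ p, 0 ≤ p → p < (k : ℤ) → 0 ≤ w p := by
      intro p hp0 hpk
      lift p to ℕ using hp0
      have hpk' : p < k := by omega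
      have h1 := (hr ⟨p, hpk'⟩).1
      rw [hrow, ← hwp] at h1
      exact h1
    have hwk : ∀ p, 0 ≤ p → p < (k : ℤ) → w p ≤ k + 1 := by
      intro p hp0 hpk
      lift p to ℕ using hp0
      have hpk' : p < k := by omega
      have h1 := (hr ⟨p, hpk'⟩).2.1
      rw [hrow, ← hwp] at h1
      push_cast at h1
      exact h1
    refine P.gwt hnd hlt (fun x => (P.wt l x : ℝ) - ((x : ℕ) : ℝ) - (1 + (P.ε : ℝ)) / 2) ?_ ?_ ?_
    · intro x x' hx
      have h1 := sh_anti P.hε hLb H hw0 hwk (x := ((x : ℕ) : ℤ)) (x' := ((x' : ℕ) : ℤ)) (by omega)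
        (by exact_mod_cast hx) (by have := x'.2; omega)
      rw [hwp, hwp] at h1
      have h2 : (P.wt l x' : ℝ) ≤ (P.wt l x : ℝ) := by exact_mod_cast h1
      have h3 : ((x : ℕ) : ℝ) < ((x' : ℕ) : ℝ) := by exact_mod_cast hx
      show (P.wt l x' : ℝ) - ((x' : ℕ) : ℝ) - (1 + (P.ε : ℝ)) / 2 <
        (P.wt l x : ℝ) - ((x : ℕ) : ℝ) - (1 + (P.ε : ℝ)) / 2
      linarith
    · intro i hi
      have h1 := sh_in P.hε hLb H (x := ((P.u i : ℕ) : ℤ)) (y := ((P.v i : ℕ) : ℤ)) ⟨i, hi, rfl, rfl⟩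
      rw [hwp, hwp] at h1
      have h2 : ((P.v i : ℕ) : ℝ) + (P.ε : ℝ) + 1 ≤ (P.wt l (P.u i) : ℝ) := by exact_mod_cast h1.1
      have h3 : ((P.u i : ℕ) : ℝ) + 1 ≤ (P.wt l (P.v i) : ℝ) := by exact_mod_cast h1.2
      linarith
    · intro i hi
      have hno : ¬ P.L l ((P.u i : ℕ) : ℤ) ((P.v i : ℕ) : ℤ) := by
        rintro ⟨i', hi', h1, h2⟩
        have : i' = i := P.inj i' i (Fin.ext (by omega)) (Fin.ext (by omega))
        rw [this] at hi'
        exact hi hi'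
      have h1 := sh_out P.hε hLb H (x := ((P.u i : ℕ) : ℤ)) (y := ((P.v i : ℕ) : ℤ)) (by omega)
        (by exact_mod_cast P.le i) (by have := (P.v i).2; omega)
        (fun he => by exact_mod_cast P.strict he i) hno
      rw [hwp, hwp] at h1
      have h2 : (P.wt l (P.u i) : ℝ) ≤ ((P.v i : ℕ) : ℝ) + (P.ε : ℝ) := by exact_mod_cast h1.1
      have h3 : (P.wt l (P.v i) : ℝ) ≤ ((P.u i : ℕ) : ℝ) := by exact_mod_cast h1.2
      linarith
  · right
    have h5 : ((-C : ℤ) : ℂ) ≠ 0 := by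
      rw [Int.cast_ne_zero]
      omega
    have h6 := Submodule.smul_mem _ (((-C : ℤ) : ℂ))⁻¹ h4
    rw [smul_smul, inv_mul_cancel₀ h5, one_smul] at h6
    exact h6

end

end Pool.Agent.E8helper43.BE
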