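import Pool.Agent.E8helper43.BE.PCrit
import Pool.Agent.E8helper43.BE.MatMain

set_option autoImplicit false

/-!
# Free resolutions of modules with an action of `gl_k`, on spaces of (skew-)symmetric matrices
-/

namespace Pool.Agent.E8helper43.BE

open Pool.Agent.W650 Pool.Agent.Y577.BT Pool.Agent.E8helper33.BE Finset

universe v w

noncomputable section

variable {k n : ℕ} (P : Prs k n)

theorem Prs.c_ne (i : Fin n) : (P.c i : ℂ) ≠ 0 := by
  rcases (P.le i).lt_or_eq with h | h
  · rw [P.c1 i h]; norm_num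
  · intro h0
    have h1 := P.c2 i h
    have h2 : P.c i = 0 := by exact_mod_cast h0
    rw [h2] at h1
    norm_num at h1

theorem Prs.tt_self (A : Matrix (Fin k) (Fin k) ℂ) (he : P.ε = -1) (x y z : Fin k) :
    tt P.ε A z z x y = 0 := by
  have := tt_swap_left P.ε2 A z z x y
  rw [he] at this ⊢
  push_cast at this
  linear_combination (1 / 2 : ℂ) * this

/-- all coefficients vanish -/
theorem Prs.tt_zero {A : Matrix (Fin k) (Fin k) ℂ} (h : P.S A = 0) (x y x' y' : Fin k) :
    tt P.ε A x y x' y' = 0 := by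
  have h0 : ∀ i j, tt P.ε A (P.u i) (P.v i) (P.u j) (P.v j) = 0 := by
    intro i j
    have h1 : (P.c i : ℂ) * P.c j * tt P.ε A (P.u i) (P.v i) (P.u j) (P.v j) = 0 := by
      have : P.S A i j = 0 := by rw [h]; rfl
      exact this
    exact (mul_eq_zero.1 h1).resolve_left (mul_ne_zero (P.c_ne i) (P.c_ne j))
  have h1 : ∀ i x' y', tt P.ε A (P.u i) (P.v i) x' y' = 0 := by
    intro i x' y'
    rcases lt_trichotomy x' y' with hx | hx | hx
    · obtain ⟨j, hj1, hj2⟩ := P.surj x' y' (Or.inl hx)
      rw [← hj1, ← hj2]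
      exact h0 i j
    · subst hx
      rcases P.hε with he | he
      · obtain ⟨j, hj1, hj2⟩ := P.surj x' x' (Or.inr ⟨rfl, he⟩)
        have := h0 i j
        rwa [hj1, hj2] at this
      · have := tt_swap_right P.ε2 A (P.u i) (P.v i) x' x'
        rw [he] at this ⊢
        push_cast at this
        linear_combination (1 / 2 : ℂ) * this
    · obtain ⟨j, hj1, hj2⟩ := P.surj y' x' (Or.inl hx)
      have h2 := tt_swap_right P.ε2 A (P.u i) (P.v i) y' x'
      have h3 := h0 i j
      rw [hj1, hj2] at h3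
      rw [h3, mul_zero] at h2
      exact h2
  rcases lt_trichotomy x y with hx | hx | hx
  · obtain ⟨i, hi1, hi2⟩ := P.surj x y (Or.inl hx)
    rw [← hi1, ← hi2]
    exact h1 i x' y'
  · subst hx
    rcases P.hε with he | he
    · obtain ⟨i, hi1, hi2⟩ := P.surj x x (Or.inr ⟨rfl, he⟩)
      have := h1 i x' y'
      rwa [hi1, hi2] at this
    · exact P.tt_self A he x' y' x
  · obtain ⟨i, hi1, hi2⟩ := P.surj y x (Or.inl hx)
    have h2 := tt_swap_left P.ε2 A y x x' y'
    have h3 := h1 i x' y'
    rw [hi1, hi2] at h3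
    rw [h3, mul_zero] at h2
    exact h2

theorem Prs.S_inj (hk : P.ε = 1 ∨ 3 ≤ k) {A : Matrix (Fin k) (Fin k) ℂ} (h : P.S A = 0) : A = 0 := by
  have hz := P.tt_zero h
  rcases P.hε with he | he
  · ext x y
    have h1 := hz x x x y
    unfold tt at h1
    rw [tens_ix, tens_ix, he] at h1
    rw [Matrix.zero_apply]
    by_cases hxy : x = y
    · subst hxy
      simp only [if_true] at h1
      push_cast at h1
      linear_combination (1 / 4 : ℂ) * h1
    · rw [if_neg hxy, if_pos rfl] at h1
      push_cast at h1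
      linear_combination (1 / 2 : ℂ) * h1
  · have hk3 : 3 ≤ k := by
      rcases hk with hk | hk
      · rw [hk] at he; norm_num at he
      · exact hk
    have hd : ∀ x y : Fin k, x ≠ y → A x x + A y y = 0 := by
      intro x y hxy
      have h1 := hz x y x y
      unfold tt at h1
      rw [tens_ix, tens_ix, if_pos rfl, if_pos rfl, if_neg hxy, if_neg (Ne.symm hxy)] at h1
      linear_combination h1
    have ho : ∀ x y z : Fin k, x ≠ y → x ≠ z → y ≠ z → A x y = 0 := by
      intro x y z hxy hxz hyz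
      have h1 := hz x z y z
      unfold tt at h1
      rw [tens_ix, tens_ix, if_pos rfl, if_neg hxy, if_neg hxz, if_neg (Ne.symm hyz)] at h1
      linear_combination h1
    have hex : ∀ x y : Fin k, ∃ z : Fin k, x ≠ z ∧ y ≠ z := by
      intro x y
      by_contra hcon
      push Not at hcon
      have : (univ : Finset (Fin k)) ⊆ {x, y} := by
        intro z _
        rw [mem_insert, mem_singleton]
        by_cases hz : x = z
        · exact Or.inl hz.symm
        · exact Or.inr (hcon z hz).symm
      have h1 := card_le_card this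
      rw [card_univ, Fintype.card_fin] at h1
      have h2 := card_le_two (a := x) (b := y)
      omega
    ext x y
    rw [Matrix.zero_apply]
    by_cases hxy : x = y
    · subst hxy
      obtain ⟨y, hy, -⟩ := hex x x
      obtain ⟨z, hz1, hz2⟩ := hex x y
      have e1 := hd x y hy
      have e2 := hd x z hz1
      have e3 := hd y z hz2
      linear_combination (1 / 2 : ℂ) * (e1 + e2 - e3)
    · obtain ⟨z, hz1, hz2⟩ := hex x y
      exact ho x y z hxy hz1 hz2

theorem Prs.S_sub (A B : Matrix (Fin k) (Fin k) ℂ) : P.S A - P.S B = P.S (A - B) := by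
  have h := P.S_smul (-1) B
  rw [neg_one_smul, neg_one_smul] at h
  rw [sub_eq_add_neg, sub_eq_add_neg, ← P.S_add, h]

section action

variable {M : Type v} [NormedAddCommGroup M] [InnerProductSpace ℂ M]
  (ρ : Matrix (Fin k) (Fin k) ℂ →ₗ[ℂ] M →ₗ[ℂ] M)

open Classical in
/-- the action as a function on all matrices -/
def Prs.rho (C : Mat n) : M →ₗ[ℂ] M := if h : ∃ A, C = P.S A then ρ h.choose else 0

theorem Prs.rho_S (hk : P.ε = 1 ∨ 3 ≤ k) (A : Matrix (Fin k) (Fin k) ℂ) : P.rho ρ (P.S A) = ρ A := by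
  have h : ∃ A', P.S A = P.S A' := ⟨A, rfl⟩
  unfold Prs.rho
  rw [dif_pos h]
  have h1 := h.choose_spec
  have h2 : P.S (A - h.choose) = 0 := by
    rw [← P.S_sub, ← h1, sub_self]
  have h3 := P.S_inj hk h2
  rw [← sub_eq_zero.1 h3]

end action

/-- the sum over all positions -/
theorem sum_tens {V : Type*} [AddCommGroup V] [Module ℂ V] (A : Matrix (Fin k) (Fin k) ℂ)
    (p q : Fin k) (g : Fin k → Fin k → V) :
    ∑ x, ∑ y, tens A A (ix x y) (ix p q) • g x y = ∑ x, A x p • g x q + ∑ y, A y q • g p y := by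
  simp only [tens_ix, add_smul, ite_smul, zero_smul, sum_add_distrib, sum_ite_eq', mem_univ, if_true]
  congr 1
  rw [sum_comm]
  simp only [sum_ite_eq', mem_univ, if_true]

theorem span_image_units {S : Type w} [CommRing S] [Algebra ℂ S] {n : ℕ} (f : Fin n → S)
    (c : Fin n → ℂ) (hc : ∀ i, c i ≠ 0) (I : Set (Fin n)) :
    Ideal.span ((fun i => c i • f i) '' I) = Ideal.span (f '' I) := by
  apply le_antisymm
  · rw [Ideal.span_le]
    rintro _ ⟨i, hi, rfl⟩
    show c i • f i ∈ Ideal.span (f '' I)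
    rw [Algebra.smul_def]
    exact Ideal.mul_mem_left _ _ (Ideal.subset_span ⟨i, hi, rfl⟩)
  · rw [Ideal.span_le]
    rintro _ ⟨i, hi, rfl⟩
    have h1 : f i = (c i)⁻¹ • (c i • f i) := by rw [smul_smul, inv_mul_cancel₀ (hc i), one_smul]
    rw [h1, Algebra.smul_def]
    exact Ideal.mul_mem_left _ _ (Ideal.subset_span ⟨i, hi, rfl⟩)

/-- **The main theorem.** -/
theorem pairs_main (S : Type w) [CommRing S] [Algebra ℂ S] (hk : P.ε = 1 ∨ 3 ≤ k)
    (f : Fin k → Fin k → S) (hf : ∀ x y, f y x = (P.ε : ℤ) • f x y)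
    (hreg : RegularSeq fun i : Fin n => f (P.u i) (P.v i))
    [Module.Finite ℂ (S ⧸ Ideal.span (Set.range fun i : Fin n => f (P.u i) (P.v i)))]
    (M : Type v) [NormedAddCommGroup M] [InnerProductSpace ℂ M] [FiniteDimensional ℂ M]
    [Nontrivial M] [Module S M] [IsScalarTower ℂ S M]
    (ρ : Matrix (Fin k) (Fin k) ℂ →ₗ[ℂ] M →ₗ[ℂ] M)
    (hρ : ∀ A A' m, ρ (A * A' - A' * A) m = ρ A (ρ A' m) - ρ A' (ρ A m))
    (hρf : ∀ A x y (m : M), ρ A (f x y • m) = f x y • ρ A m +
      ∑ z : Fin k, A z x • f z y • m + ∑ z : Fin k, A z y • f x z • m)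
    (hρs : ∀ A (m m' : M), inner ℂ (ρ A m) m' = inner ℂ m (ρ A.conjTranspose m'))
    (R : FreeRes S M) (i : ℕ) :
    n.choose i ≤ Module.finrank ℂ (S ⧸ Ideal.span (Set.range fun i : Fin n => f (P.u i) (P.v i))) *
      R.rank i := by
  set f0 : Fin n → S := fun i => f (P.u i) (P.v i) with hf0
  set f' : Fin n → S := fun i => (P.c i : ℂ) • f0 i with hf'
  have hsp : ∀ I : Set (Fin n), Ideal.span (f' '' I) = Ideal.span (f0 '' I) :=
    span_image_units f0 (fun i => (P.c i : ℂ)) P.c_ne
  have hspan : Ideal.span (Set.range f') = Ideal.span (Set.range f0) := by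
    rw [← Set.image_univ, ← Set.image_univ, hsp]
  have hreg' : RegularSeq f' := by
    intro l s hs
    rw [hsp] at hs ⊢
    refine hreg l s ?_
    have h1 : f0 l * s = algebraMap ℂ S ((P.c l : ℂ)⁻¹) * (f' l * s) := by
      show f0 l * s = algebraMap ℂ S ((P.c l : ℂ)⁻¹) * (((P.c l : ℂ) • f0 l) * s)
      rw [← mul_assoc, ← Algebra.smul_def, smul_smul, inv_mul_cancel₀ (P.c_ne l), one_smul]
    rw [h1]
    exact Ideal.mul_mem_left _ _ hs
  have hfin : Module.Finite ℂ (S ⧸ Ideal.span (Set.range f')) := by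
    rw [hspan]
    infer_instance
  have hX : ∀ (j : Fin n) (m : M), opv ℂ (ext0 f') M j m = (P.c j : ℂ) • f (P.u j) (P.v j) • m := by
    intro j m
    rw [opv_apply, ext0_apply]
    show ((P.c j : ℂ) • f0 j) • m = _
    rw [smul_assoc]
  have hr := P.rho_S ρ hk
  have hs : ∀ (s : S) (c : ℂ) (m : M), s • c • m = c • s • m := fun s c m => (smul_comm c s m).symm
  have hfm : ∀ (x y : Fin k) (m : M), f y x • m = ((P.ε : ℤ) : ℂ) • f x y • m := by
    intro x y m
    rw [hf x y, Int.cast_smul_eq_zsmul ℂ, smul_assoc]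
  have hact : GAct n P.G (opv ℂ (ext0 f') M) (P.rho ρ) :=
    { add := by
        rintro _ ⟨A, rfl⟩ _ ⟨B, rfl⟩
        rw [P.S_add, hr, hr, hr, map_add]
      smul := by
        rintro c _ ⟨A, rfl⟩
        rw [P.S_smul, hr, hr, map_smul]
      lie := by
        rintro _ ⟨A, rfl⟩ _ ⟨B, rfl⟩ m
        rw [P.S_lie, hr, hr, hr, hρ]
        abel
      eqv := by
        rintro _ ⟨A, rfl⟩ j m
        rw [hr]
        simp only [hX]
        rw [map_smul, hρf, smul_add, smul_add, add_assoc]
        congr 1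
        have e1 : ∑ i : Fin n, P.S A i j • (P.c i : ℂ) • f (P.u i) (P.v i) • m =
            (P.c j : ℂ) • ∑ i : Fin n, ((P.c i : ℂ) ^ 2) •
              (tt P.ε A (P.u i) (P.v i) (P.u j) (P.v j) • f (P.u i) (P.v i) • m) := by
          rw [smul_sum]
          refine sum_congr rfl fun i _ => ?_
          show ((P.c i : ℂ) * P.c j * tt P.ε A _ _ _ _) • (P.c i : ℂ) • _ • m = _
          rw [smul_smul, smul_smul, smul_smul]
          congr 1
          ring
        rw [e1, P.sf (fun x y => tt P.ε A x y (P.u j) (P.v j) • f x y • m)]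
        · rw [← smul_add]
          congr 1
          unfold tt
          simp_rw [add_smul, sum_add_distrib, mul_smul, ← smul_sum]
          rw [sum_tens, sum_tens]
          have e2 : ∀ x : Fin k, f x (P.u j) • m = ((P.ε : ℤ) : ℂ) • f (P.u j) x • m :=
            fun x => hfm (P.u j) x m
          have e3 : ∀ x : Fin k, f (P.v j) x • m = ((P.ε : ℤ) : ℂ) • f x (P.v j) • m :=
            fun x => hfm x (P.v j) m
          have a1 : ∑ x, A x (P.v j) • f x (P.u j) • m =
              ((P.ε : ℤ) : ℂ) • ∑ x, A x (P.v j) • f (P.u j) x • m := by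
            rw [smul_sum]
            refine sum_congr rfl fun x _ => ?_
            rw [e2 x, smul_comm (A x (P.v j))]
          have a2 : ∑ y, A y (P.u j) • f (P.v j) y • m =
              ((P.ε : ℤ) : ℂ) • ∑ y, A y (P.u j) • f y (P.v j) • m := by
            rw [smul_sum]
            refine sum_congr rfl fun y _ => ?_
            rw [e3 y, smul_comm (A y (P.u j))]
          rw [a1, a2, ← smul_add, smul_smul, P.ε2, one_smul,
            add_comm (∑ x, A x (P.v j) • f (P.u j) x • m), ← two_smul ℂ, smul_smul]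
          norm_num
        · intro x y
          show tt P.ε A y x _ _ • f y x • m = tt P.ε A x y _ _ • f x y • m
          rw [tt_swap_left P.ε2, hfm x y, smul_smul]
          congr 1
          linear_combination (tt P.ε A x y (P.u j) (P.v j)) * P.ε2
        · intro he x
          show tt P.ε A x x _ _ • f x x • m = 0
          rw [P.tt_self A he, zero_smul]
      adj := by
        rintro _ ⟨A, rfl⟩ m m'
        rw [P.S_conj, hr, hr]
        exact hρs A m m' }
  have h := gen_main S n P.G P.alg P.crit f' hreg' M (P.rho ρ) hact R i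
  rw [hspan] at h
  exact h

end

end Pool.Agent.E8helper43.BE
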