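import Pool.Agent.E8helper43.BE.Cas
import Pool.Agent.E8helper43.BE.Comb2

set_option autoImplicit false

/-!
# The Lie algebra `gl_k` acting on symmetric and on skew-symmetric matrices
-/

namespace Pool.Agent.E8helper43.BE

open Pool.Agent.W650 Pool.Agent.E8helper33.BE Finset

noncomputable section

/-- an enumeration of the pairs `x ≤ y` (if `ε = 1`) or `x < y` (if `ε = -1`) of indices, smaller
pairs first; `c` are the normalising factors -/
structure Prs (k n : ℕ) where
  u : Fin n → Fin k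
  v : Fin n → Fin k
  c : Fin n → ℝ
  ε : ℤ
  hε : ε = 1 ∨ ε = -1
  le : ∀ i, u i ≤ v i
  strict : ε = -1 → ∀ i, u i < v i
  inj : ∀ i j, u i = u j → v i = v j → i = j
  mono : ∀ i j, u i ≤ u j → v i ≤ v j → i ≤ j
  surj : ∀ x y : Fin k, (x < y ∨ (x = y ∧ ε = 1)) → ∃ i, u i = x ∧ v i = y
  c1 : ∀ i, u i < v i → c i = 1
  c2 : ∀ i, u i = v i → c i ^ 2 = 1 / 2

variable {k n : ℕ} (P : Prs k n)

theorem Prs.ε2 : ((P.ε : ℤ) : ℂ) * ((P.ε : ℤ) : ℂ) = 1 := by
  rcases P.hε with h | h <;> rw [h] <;> norm_num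

/-- sums over pairs -/
theorem Prs.sf {V : Type*} [AddCommGroup V] [Module ℂ V] (F : Fin k → Fin k → V)
    (hF : ∀ x y, F y x = F x y) (h0 : P.ε = -1 → ∀ x, F x x = 0) :
    ∑ i, ((P.c i : ℂ) ^ 2) • F (P.u i) (P.v i) = (1 / 2 : ℂ) • ∑ x, ∑ y, F x y := by
  classical
  let g : Fin k × Fin k → V := fun p => if p.1 < p.2 then F p.1 p.2 else (1 / 2 : ℂ) • F p.1 p.2
  have h1 : ∀ i, ((P.c i : ℂ) ^ 2) • F (P.u i) (P.v i) = g (P.u i, P.v i) := by
    intro i
    rcases (P.le i).lt_or_eq with h | h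
    · show _ = if P.u i < P.v i then F (P.u i) (P.v i) else _
      rw [if_pos h, P.c1 i h]
      simp
    · show _ = if P.u i < P.v i then F (P.u i) (P.v i) else (1 / 2 : ℂ) • F (P.u i) (P.v i)
      rw [if_neg (by rw [h]; exact lt_irrefl _)]
      have := P.c2 i h
      have h2 : (P.c i : ℂ) ^ 2 = 1 / 2 := by
        rw [← Complex.ofReal_pow, this]
        push_cast
        rfl
      rw [h2]
  rw [sum_congr rfl fun i _ => h1 i]
  have hinj : Set.InjOn (fun i => (P.u i, P.v i)) ((univ : Finset (Fin n)) : Set (Fin n)) := by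
    intro i _ j _ hij
    exact P.inj i j (congrArg Prod.fst hij) (congrArg Prod.snd hij)
  have h2 : ∑ i, g (P.u i, P.v i) = ∑ p ∈ (univ : Finset (Fin n)).image (fun i => (P.u i, P.v i)), g p :=
    (sum_image hinj).symm
  rw [h2]
  have h3 : ∑ p ∈ (univ : Finset (Fin n)).image (fun i => (P.u i, P.v i)), g p =
      ∑ p : Fin k × Fin k, if p.1 < p.2 then F p.1 p.2 else
        if p.1 = p.2 then (1 / 2 : ℂ) • F p.1 p.2 else 0 := by
    rw [← sum_subset (subset_univ ((univ : Finset (Fin n)).image (fun i => (P.u i, P.v i))))]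
    · refine sum_congr rfl fun p hp => ?_
      obtain ⟨i, -, rfl⟩ := mem_image.1 hp
      show (if P.u i < P.v i then _ else _) = if P.u i < P.v i then _ else _
      by_cases h : P.u i < P.v i
      · rw [if_pos h, if_pos h]
      · rw [if_neg h, if_neg h, if_pos ((P.le i).lt_or_eq.resolve_left h)]
    · rintro ⟨x, y⟩ _ hp
      show (if x < y then F x y else if x = y then (1 / 2 : ℂ) • F x y else 0) = 0
      by_cases h : x < y
      · obtain ⟨i, hi, hi'⟩ := P.surj x y (Or.inl h)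
        exact absurd (mem_image.2 ⟨i, mem_univ _, by rw [hi, hi']⟩) hp
      · rw [if_neg h]
        by_cases h' : x = y
        · rw [if_pos h']
          subst h'
          rcases P.hε with he | he
          · obtain ⟨i, hi, hi'⟩ := P.surj x x (Or.inr ⟨rfl, he⟩)
            exact absurd (mem_image.2 ⟨i, mem_univ _, by rw [hi, hi']⟩) hp
          · rw [h0 he, smul_zero]
        · rw [if_neg h']
  rw [h3, Fintype.sum_prod_type]
  have h4 : ∀ x y, F x y = (if x < y then F x y else 0) + (if y < x then F x y else 0) +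
      (if x = y then F x y else 0) := by
    intro x y
    rcases lt_trichotomy x y with h | h | h
    · rw [if_pos h, if_neg (lt_asymm h), if_neg h.ne]; simp
    · subst h; simp
    · rw [if_neg (lt_asymm h), if_pos h, if_neg h.ne']; simp
  have h5 : ∑ x, ∑ y, F x y = ∑ x, ∑ y, (if x < y then F x y else 0) +
      ∑ x, ∑ y, (if y < x then F x y else 0) + ∑ x, ∑ y, (if x = y then F x y else 0) := by
    rw [← sum_add_distrib, ← sum_add_distrib]
    refine sum_congr rfl fun x _ => ?_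
    rw [← sum_add_distrib, ← sum_add_distrib]
    exact sum_congr rfl fun y _ => h4 x y
  have h6 : ∑ x : Fin k, ∑ y : Fin k, (if y < x then F x y else 0) =
      ∑ x : Fin k, ∑ y : Fin k, (if x < y then F x y else 0) := by
    rw [sum_comm]
    refine sum_congr rfl fun x _ => sum_congr rfl fun y _ => ?_
    rw [hF]
  have h7 : ∀ x y, (if x < y then F x y else if x = y then (1 / 2 : ℂ) • F x y else 0) =
      (if x < y then F x y else 0) + (1 / 2 : ℂ) • (if x = y then F x y else 0) := by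
    intro x y
    rcases lt_trichotomy x y with h | h | h
    · rw [if_pos h, if_pos h, if_neg h.ne]; simp
    · subst h; simp
    · rw [if_neg (lt_asymm h), if_neg (lt_asymm h), if_neg h.ne', if_neg h.ne']; simp
  rw [h5, h6, sum_congr rfl fun x _ => sum_congr rfl fun y _ => h7 x y]
  simp_rw [sum_add_distrib, ← smul_sum]
  rw [smul_add, ← two_smul ℂ (∑ x, ∑ y, if x < y then F x y else 0), smul_smul]
  norm_num

/-- the coefficients of the action of `A` -/
def tt (e : ℤ) (A : Matrix (Fin k) (Fin k) ℂ) (x y x' y' : Fin k) : ℂ :=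
  tens A A (ix x y) (ix x' y') + (e : ℂ) * tens A A (ix x y) (ix y' x')

theorem tens_swap (A : Matrix (Fin k) (Fin k) ℂ) (x y x' y' : Fin k) :
    tens A A (ix y x) (ix y' x') = tens A A (ix x y) (ix x' y') := by
  rw [tens_ix, tens_ix, add_comm]

theorem tt_swap_right {e : ℤ} (he : (e : ℂ) * e = 1) (A : Matrix (Fin k) (Fin k) ℂ)
    (x y x' y' : Fin k) : tt e A x y y' x' = e * tt e A x y x' y' := by
  unfold tt
  linear_combination (-tens A A (ix x y) (ix y' x')) * he

theorem tt_swap_left {e : ℤ} (he : (e : ℂ) * e = 1) (A : Matrix (Fin k) (Fin k) ℂ)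
    (x y x' y' : Fin k) : tt e A y x x' y' = e * tt e A x y x' y' := by
  unfold tt
  rw [← tens_swap A x y y' x', ← tens_swap A x y x' y']
  linear_combination (-tens A A (ix y x) (ix x' y')) * he

/-- the matrix of the action of `A` in the orthonormal basis -/
def Prs.S (A : Matrix (Fin k) (Fin k) ℂ) : Mat n :=
  fun i j => (P.c i : ℂ) * P.c j * tt P.ε A (P.u i) (P.v i) (P.u j) (P.v j)

theorem Prs.S_add (A B : Matrix (Fin k) (Fin k) ℂ) : P.S A + P.S B = P.S (A + B) := by
  ext i j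
  show (P.c i : ℂ) * P.c j * tt P.ε A _ _ _ _ + (P.c i : ℂ) * P.c j * tt P.ε B _ _ _ _ =
    (P.c i : ℂ) * P.c j * tt P.ε (A + B) _ _ _ _
  unfold tt
  rw [← tens_add]
  simp only [Matrix.add_apply]
  ring

theorem Prs.S_smul (s : ℂ) (A : Matrix (Fin k) (Fin k) ℂ) : s • P.S A = P.S (s • A) := by
  ext i j
  show s * ((P.c i : ℂ) * P.c j * tt P.ε A _ _ _ _) = (P.c i : ℂ) * P.c j * tt P.ε (s • A) _ _ _ _
  unfold tt
  rw [← tens_smul]
  simp only [Matrix.smul_apply, smul_eq_mul]
  ring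

theorem Prs.S_conj (A : Matrix (Fin k) (Fin k) ℂ) : (P.S A).conjTranspose = P.S A.conjTranspose := by
  ext i j
  rw [Matrix.conjTranspose_apply]
  show star ((P.c j : ℂ) * P.c i * tt P.ε A (P.u j) (P.v j) (P.u i) (P.v i)) =
    (P.c i : ℂ) * P.c j * tt P.ε A.conjTranspose (P.u i) (P.v i) (P.u j) (P.v j)
  have h1 : ∀ x y x' y' : Fin k, tens A.conjTranspose A.conjTranspose (ix x y) (ix x' y') =
      star (tens A A (ix x' y') (ix x y)) := by
    intro x y x' y'
    rw [← tens_conj, Matrix.conjTranspose_apply]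
  unfold tt
  rw [h1, h1, star_mul, star_mul, star_add, star_mul, tens_swap A (P.u j) (P.v j) (P.v i) (P.u i)]
  have h2 : ∀ r : ℝ, star (r : ℂ) = (r : ℂ) := fun r => Complex.conj_ofReal r
  have h3 : star ((P.ε : ℤ) : ℂ) = ((P.ε : ℤ) : ℂ) := by
    rcases P.hε with h | h <;> rw [h] <;> simp
  rw [h2, h2, h3]
  ring

/-- the matrix entries of products -/
theorem Prs.S_mul (A B : Matrix (Fin k) (Fin k) ℂ) (i j : Fin n) :
    (P.S A * P.S B) i j = (P.c i : ℂ) * P.c j *
      ((tens A A * tens B B) (ix (P.u i) (P.v i)) (ix (P.u j) (P.v j)) +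
        (P.ε : ℂ) * (tens A A * tens B B) (ix (P.u i) (P.v i)) (ix (P.v j) (P.u j))) := by
  set F : Fin k → Fin k → ℂ := fun x y => tt P.ε A (P.u i) (P.v i) x y * tt P.ε B x y (P.u j) (P.v j)
    with hFdef
  have hF : ∀ x y, F y x = F x y := by
    intro x y
    show tt P.ε A _ _ y x * tt P.ε B y x _ _ = tt P.ε A _ _ x y * tt P.ε B x y _ _
    rw [tt_swap_right P.ε2 A _ _ x y, tt_swap_left P.ε2 B x y]
    linear_combination (tt P.ε A (P.u i) (P.v i) x y * tt P.ε B x y (P.u j) (P.v j)) * P.ε2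
  have h0 : P.ε = -1 → ∀ x, F x x = 0 := by
    intro he x
    have := tt_swap_right P.ε2 A (P.u i) (P.v i) x x
    rw [he] at this
    have h1 : tt (-1) A (P.u i) (P.v i) x x = 0 := by
      push_cast at this
      linear_combination (1 / 2 : ℂ) * this
    show tt P.ε A _ _ x x * _ = 0
    rw [he, h1, zero_mul]
  have h1 := P.sf F hF h0
  have h2 : (P.S A * P.S B) i j = (P.c i : ℂ) * P.c j * ∑ l, ((P.c l : ℂ) ^ 2) • F (P.u l) (P.v l) := by
    rw [Matrix.mul_apply, mul_sum]
    refine sum_congr rfl fun l _ => ?_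
    show ((P.c i : ℂ) * P.c l * tt P.ε A _ _ _ _) * ((P.c l : ℂ) * P.c j * tt P.ε B _ _ _ _) =
      (P.c i : ℂ) * P.c j * ((P.c l : ℂ) ^ 2 * (tt P.ε A _ _ _ _ * tt P.ε B _ _ _ _))
    ring
  rw [h2, h1]
  congr 1
  set a : Fin k → Fin k → ℂ := fun x y => tens A A (ix (P.u i) (P.v i)) (ix x y) with ha
  set b : Fin k → Fin k → ℂ := fun x y => tens B B (ix x y) (ix (P.u j) (P.v j)) with hb
  have hF2 : ∀ x y, F x y = (a x y * b x y + a y x * b y x) +
      (P.ε : ℂ) * (a x y * b y x + a y x * b x y) := by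
    intro x y
    have e1 : tens B B (ix x y) (ix (P.v j) (P.u j)) = b y x :=
      tens_swap B y x (P.u j) (P.v j)
    show (a x y + (P.ε : ℂ) * a y x) * (b x y + (P.ε : ℂ) * tens B B (ix x y) (ix (P.v j) (P.u j))) = _
    rw [e1]
    linear_combination (a y x * b y x) * P.ε2
  have e1 : (tens A A * tens B B) (ix (P.u i) (P.v i)) (ix (P.u j) (P.v j)) =
      ∑ x, ∑ y, a x y * b x y := by
    rw [Matrix.mul_apply, sum_ix]
  have e2 : (tens A A * tens B B) (ix (P.u i) (P.v i)) (ix (P.v j) (P.u j)) =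
      ∑ x, ∑ y, a x y * b y x := by
    rw [Matrix.mul_apply, sum_ix]
    exact sum_congr rfl fun x _ => sum_congr rfl fun y _ =>
      congrArg (fun t => a x y * t) (tens_swap B y x (P.u j) (P.v j))
  have e3 : ∑ x, ∑ y, a y x * b y x = ∑ x, ∑ y, a x y * b x y := sum_comm
  have e4 : ∑ x, ∑ y, a y x * b x y = ∑ x, ∑ y, a x y * b y x := sum_comm
  rw [e1, e2, sum_congr rfl fun x _ => sum_congr rfl fun y _ => hF2 x y]
  simp_rw [sum_add_distrib, ← mul_sum, sum_add_distrib]
  rw [e3, e4, smul_eq_mul]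
  ring

theorem Prs.S_lie (A B : Matrix (Fin k) (Fin k) ℂ) :
    P.S A * P.S B - P.S B * P.S A = P.S (A * B - B * A) := by
  ext i j
  rw [Matrix.sub_apply, P.S_mul, P.S_mul]
  show _ = (P.c i : ℂ) * P.c j * (tens (A * B - B * A) (A * B - B * A) _ _ +
    (P.ε : ℂ) * tens (A * B - B * A) (A * B - B * A) _ _)
  rw [← tens_mul_sub]
  simp only [Matrix.sub_apply]
  ring

/-- parts of the matrices -/
theorem Prs.part_S (p : Fin n → Fin n → Prop) [∀ i j, Decidable (p i j)]
    (q : Fin k → Fin k → Prop) [∀ i j, Decidable (q i j)]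
    (h1 : ∀ i j, P.v i = P.v j → (p i j ↔ q (P.u i) (P.u j)))
    (h2 : ∀ i j, P.u i = P.u j → (p i j ↔ q (P.v i) (P.v j)))
    (h3 : ∀ i j, P.v i = P.u j → (p i j ↔ q (P.u i) (P.v j)))
    (h4 : ∀ i j, P.u i = P.v j → (p i j ↔ q (P.v i) (P.u j)))
    (A : Matrix (Fin k) (Fin k) ℂ) : part p (P.S A) = P.S (part q A) := by
  ext i j
  show (if p i j then (P.c i : ℂ) * P.c j * tt P.ε A _ _ _ _ else 0) =
    (P.c i : ℂ) * P.c j * tt P.ε (part q A) _ _ _ _
  have e1 : (if p i j then (if P.v i = P.v j then A (P.u i) (P.u j) else 0) else 0) =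
      (if P.v i = P.v j then part q A (P.u i) (P.u j) else 0) := by
    by_cases h : P.v i = P.v j
    · rw [if_pos h, if_pos h]
      show _ = if q _ _ then _ else _
      by_cases hp : p i j
      · rw [if_pos hp, if_pos ((h1 i j h).1 hp)]
      · rw [if_neg hp, if_neg (fun h' => hp ((h1 i j h).2 h'))]
    · rw [if_neg h, if_neg h, ite_self]
  have e2 : (if p i j then (if P.u i = P.u j then A (P.v i) (P.v j) else 0) else 0) =
      (if P.u i = P.u j then part q A (P.v i) (P.v j) else 0) := by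
    by_cases h : P.u i = P.u j
    · rw [if_pos h, if_pos h]
      show _ = if q _ _ then _ else _
      by_cases hp : p i j
      · rw [if_pos hp, if_pos ((h2 i j h).1 hp)]
      · rw [if_neg hp, if_neg (fun h' => hp ((h2 i j h).2 h'))]
    · rw [if_neg h, if_neg h, ite_self]
  have e3 : (if p i j then (if P.v i = P.u j then A (P.u i) (P.v j) else 0) else 0) =
      (if P.v i = P.u j then part q A (P.u i) (P.v j) else 0) := by
    by_cases h : P.v i = P.u j
    · rw [if_pos h, if_pos h]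
      show _ = if q _ _ then _ else _
      by_cases hp : p i j
      · rw [if_pos hp, if_pos ((h3 i j h).1 hp)]
      · rw [if_neg hp, if_neg (fun h' => hp ((h3 i j h).2 h'))]
    · rw [if_neg h, if_neg h, ite_self]
  have e4 : (if p i j then (if P.u i = P.v j then A (P.v i) (P.u j) else 0) else 0) =
      (if P.u i = P.v j then part q A (P.v i) (P.u j) else 0) := by
    by_cases h : P.u i = P.v j
    · rw [if_pos h, if_pos h]
      show _ = if q _ _ then _ else _
      by_cases hp : p i j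
      · rw [if_pos hp, if_pos ((h4 i j h).1 hp)]
      · rw [if_neg hp, if_neg (fun h' => hp ((h4 i j h).2 h'))]
    · rw [if_neg h, if_neg h, ite_self]
  unfold tt
  rw [tens_ix, tens_ix, tens_ix, tens_ix, ← e1, ← e2, ← e3, ← e4]
  by_cases hp : p i j
  · simp only [if_pos hp]
  · simp only [if_neg hp]
    ring

/-- the Lie algebra -/
def Prs.G : Submodule ℂ (Mat n) where
  carrier := {C | ∃ A, C = P.S A}
  add_mem' := by
    rintro _ _ ⟨A, rfl⟩ ⟨B, rfl⟩
    exact ⟨_, P.S_add A B⟩
  zero_mem' := ⟨0, by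
    have := P.S_smul 0 0
    rw [zero_smul, zero_smul] at this
    exact this⟩
  smul_mem' := by
    rintro s _ ⟨A, rfl⟩
    exact ⟨_, P.S_smul s A⟩

theorem Prs.lt_v {i j : Fin n} (h : P.v i = P.v j) : i < j ↔ P.u i < P.u j := by
  constructor
  · intro hij
    by_contra hc
    exact absurd (P.mono j i (not_lt.1 hc) h.ge) (not_le.2 hij)
  · intro hu
    refine lt_of_le_of_ne (P.mono i j hu.le h.le) fun h' => ?_
    rw [h'] at hu
    exact lt_irrefl _ hu

theorem Prs.lt_u {i j : Fin n} (h : P.u i = P.u j) : i < j ↔ P.v i < P.v j := by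
  constructor
  · intro hij
    by_contra hc
    exact absurd (P.mono j i h.ge (not_lt.1 hc)) (not_le.2 hij)
  · intro hu
    refine lt_of_le_of_ne (P.mono i j h.le hu.le) fun h' => ?_
    rw [h'] at hu
    exact lt_irrefl _ hu

theorem Prs.le_vu {i j : Fin n} (h : P.v i = P.u j) : i ≤ j :=
  P.mono i j ((P.le i).trans h.le) (h.le.trans (P.le j))

theorem Prs.eq_vu {i j : Fin n} (h : P.v i = P.u j) : i = j ↔ P.u i = P.v j := by
  constructor
  · rintro rfl
    exact h.symm
  · intro h'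
    have h1 := P.le i
    have h2 := P.le j
    rw [h, h'] at h1
    have h3 := le_antisymm h1 h2
    exact P.inj i j (h'.trans h3) (h.trans h3.symm)

theorem Prs.lt_vu {i j : Fin n} (h : P.v i = P.u j) : i < j ↔ P.u i < P.v j := by
  have h1 := P.eq_vu h
  have h2 : P.u i ≤ P.v j := ((P.le i).trans h.le).trans (P.le j)
  constructor
  · intro hij
    exact lt_of_le_of_ne h2 fun h' => hij.ne (h1.2 h')
  · intro hu
    exact lt_of_le_of_ne (P.le_vu h) fun h' => hu.ne (h1.1 h')

theorem Prs.nlt_uv {i j : Fin n} (h : P.u i = P.v j) : ¬ i < j ∧ ¬ P.v i < P.u j := by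
  have h2 := P.le_vu h.symm
  have h3 : P.u j ≤ P.v i := ((P.le j).trans h.ge).trans (P.le i)
  exact ⟨not_lt.2 h2, not_lt.2 h3⟩

theorem Prs.alg : Alg n P.G where
  lie := by
    rintro _ ⟨A, rfl⟩ _ ⟨B, rfl⟩
    exact ⟨_, P.S_lie A B⟩
  conj := by
    rintro _ ⟨A, rfl⟩
    exact ⟨_, P.S_conj A⟩
  low := by
    rintro _ ⟨A, rfl⟩
    exact ⟨_, P.part_S (fun i j => j < i) (fun i j => j < i) (fun _ _ h => P.lt_v h.symm)
      (fun _ _ h => P.lt_u h.symm)
      (fun i j h => iff_of_false (P.nlt_uv h.symm).1 (P.nlt_uv h.symm).2)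
      (fun i j h => P.lt_vu h.symm) A⟩
  dia := by
    rintro _ ⟨A, rfl⟩
    exact ⟨_, P.part_S (fun i j => i = j) (fun i j => i = j)
      (fun i j h => ⟨fun h' => by rw [h'], fun h' => P.inj i j h' h⟩)
      (fun i j h => ⟨fun h' => by rw [h'], fun h' => P.inj i j h h'⟩)
      (fun i j h => P.eq_vu h)
      (fun i j h => by
        rw [eq_comm, P.eq_vu h.symm, eq_comm]) A⟩
  upp := by
    rintro _ ⟨A, rfl⟩
    exact ⟨_, P.part_S (fun i j => i < j) (fun i j => i < j) (fun _ _ h => P.lt_v h)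
      (fun _ _ h => P.lt_u h) (fun i j h => P.lt_vu h)
      (fun i j h => iff_of_false (P.nlt_uv h).1 (P.nlt_uv h).2) A⟩

/-- diagonal matrices -/
theorem Prs.S_dm (s : Fin k → ℝ) : P.S (dm s) = dm fun i => s (P.u i) + s (P.v i) := by
  ext i j
  show (P.c i : ℂ) * P.c j * tt P.ε (dm s) (P.u i) (P.v i) (P.u j) (P.v j) = _
  unfold tt dm
  rw [tens_ix, tens_ix]
  simp only [Matrix.diagonal_apply]
  by_cases hij : i = j
  · subst hij
    rcases (P.le i).lt_or_eq with h | h
    · rw [P.c1 i h, if_neg h.ne', if_neg h.ne]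
      simp
    · have h2 : (P.c i : ℂ) * P.c i = 1 / 2 := by
        rw [← sq, ← Complex.ofReal_pow, P.c2 i h]
        push_cast
        rfl
      have he : P.ε = 1 := by
        rcases P.hε with he | he
        · exact he
        · exact absurd h (P.strict he i).ne
      rw [h2, he, h]
      simp
      ring
  · have n1 : ¬ (P.v i = P.v j ∧ P.u i = P.u j) := fun h => hij (P.inj i j h.2 h.1)
    have n2 : ¬ (P.v i = P.u j ∧ P.u i = P.v j) := fun h => hij ((P.eq_vu h.1).2 h.2)
    rw [if_neg hij]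
    have e1 : (if P.v i = P.v j then (if P.u i = P.u j then ((s (P.u i) : ℝ) : ℂ) else 0) else 0) = 0 := by
      by_cases h : P.v i = P.v j
      · rw [if_pos h, if_neg fun h' => n1 ⟨h, h'⟩]
      · rw [if_neg h]
    have e2 : (if P.u i = P.u j then (if P.v i = P.v j then ((s (P.v i) : ℝ) : ℂ) else 0) else 0) = 0 := by
      by_cases h : P.u i = P.u j
      · rw [if_pos h, if_neg fun h' => n1 ⟨h', h⟩]
      · rw [if_neg h]
    have e3 : (if P.v i = P.u j then (if P.u i = P.v j then ((s (P.u i) : ℝ) : ℂ) else 0) else 0) = 0 := by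
      by_cases h : P.v i = P.u j
      · rw [if_pos h, if_neg fun h' => n2 ⟨h, h'⟩]
      · rw [if_neg h]
    have e4 : (if P.u i = P.v j then (if P.v i = P.u j then ((s (P.v i) : ℝ) : ℂ) else 0) else 0) = 0 := by
      by_cases h : P.u i = P.v j
      · rw [if_pos h, if_neg fun h' => n2 ⟨h', h⟩]
      · rw [if_neg h]
    rw [e1, e2, e3, e4]
    ring

/-- weights -/
theorem Prs.gwt {l : List ℕ} (hnd : l.Nodup) (hlt : ∀ j ∈ l, j < n) (s : Fin k → ℝ)
    (hs : ∀ x x', x < x' → s x' < s x)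
    (hpos : ∀ i : Fin n, (i : ℕ) ∈ l → 0 < s (P.u i) + s (P.v i))
    (hneg : ∀ i : Fin n, (i : ℕ) ∉ l → s (P.u i) + s (P.v i) < 0) :
    ∃ w, GWt n P.G w l := by
  refine ⟨fun i => s (P.u i) + s (P.v i), hnd, hlt, ⟨_, (P.S_dm s).symm⟩, ?_, hpos, hneg, ?_⟩
  · rintro d _ ⟨A, rfl⟩
    classical
    refine ⟨_, P.part_S (fun i j => s (P.u i) + s (P.v i) - (s (P.u j) + s (P.v j)) = d)
      (fun x y => s x - s y = d) ?_ ?_ ?_ ?_ A⟩
    · intro i j h
      rw [h]
      constructor <;> intro h' <;> linarith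
    · intro i j h
      rw [h]
      constructor <;> intro h' <;> linarith
    · intro i j h
      rw [h]
      constructor <;> intro h' <;> linarith
    · intro i j h
      rw [h]
      constructor <;> intro h' <;> linarith
  · rintro _ ⟨A, rfl⟩ hU i j hij
    have hlt' : i < j := by
      by_contra hc
      exact hij (hU i j (not_lt.1 hc))
    by_cases h1 : P.v i = P.v j
    · have := hs _ _ ((P.lt_v h1).1 hlt')
      rw [h1]
      linarith
    by_cases h2 : P.u i = P.u j
    · have := hs _ _ ((P.lt_u h2).1 hlt')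
      rw [h2]
      linarith
    by_cases h3 : P.v i = P.u j
    · have := hs _ _ ((P.lt_vu h3).1 hlt')
      rw [h3]
      linarith
    by_cases h4 : P.u i = P.v j
    · exact absurd hlt' (P.nlt_uv h4).1
    exfalso
    apply hij
    show (P.c i : ℂ) * P.c j * tt P.ε A (P.u i) (P.v i) (P.u j) (P.v j) = 0
    unfold tt
    rw [tens_ix, tens_ix, if_neg h1, if_neg h2, if_neg h3, if_neg h4]
    ring

end

end Pool.Agent.E8helper43.BE
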