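import Pool.Agent.E8helper43.BE.Gen

set_option autoImplicit false

/-!
# The lower bound by the binomial coefficients
-/

namespace Pool.Agent.E8helper43.BE

open Pool.Agent.W650 Pool.Agent.E8helper33.BE Finset

universe v

noncomputable section

section lists

variable {n : ℕ}

theorem vL_dup (m : ℂ) : ∀ l : List ℕ, ¬ l.Nodup → vL ℂ n l m = 0
  | [], h => absurd List.nodup_nil h
  | i :: l, h => by
    by_cases hi : i ∈ l
    · exact Cr_vL n i m l hi
    · rw [List.nodup_cons, not_and] at h
      rw [vL, vL_dup m l (h hi), map_zero]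

theorem vL_perm (m : ℂ) {l l' : List ℕ} (h : l.Perm l') :
    vL ℂ n l m = vL ℂ n l' m ∨ vL ℂ n l m = -vL ℂ n l' m := by
  induction h with
  | nil => exact Or.inl rfl
  | cons i _ ih =>
    rcases ih with h | h
    · left; rw [vL, vL, h]
    · right; rw [vL, vL, h, map_neg]
  | swap i j l =>
    right
    rw [vL, vL, vL, vL, Cr_Cr]
  | trans _ _ ih1 ih2 =>
    rcases ih1 with h1 | h1 <;> rcases ih2 with h2 | h2
    · left; rw [h1, h2]
    · right; rw [h1, h2]
    · right; rw [h1, h2]
    · left; rw [h1, h2, neg_neg]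

/-- replacing `b` by `a` -/
def rep (a b k : ℕ) : ℕ := if k = b then a else k

theorem map_rep_of_notMem (a b : ℕ) : ∀ l : List ℕ, b ∉ l → l.map (rep a b) = l
  | [], _ => rfl
  | i :: l, h => by
    rw [List.mem_cons, not_or] at h
    rw [List.map_cons, map_rep_of_notMem a b l h.2]
    congr 1
    exact if_neg fun h' => h.1 h'.symm

theorem CA_vL (a b : ℕ) (hb : b < n) (m : ℂ) : ∀ l : List ℕ, l.Nodup → b ∈ l →
    Cr (k := ℂ) (M := ℂ) n a (An (k := ℂ) (M := ℂ) n b (vL ℂ n l m)) = vL ℂ n (l.map (rep a b)) m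
  | [], _, h => by simp at h
  | i :: l, hn, h => by
    rw [List.nodup_cons] at hn
    by_cases hi : i = b
    · subst hi
      rw [vL, An_Cr_self n i hb, An_vL n i m l hn.1, map_zero, sub_zero, List.map_cons,
        map_rep_of_notMem a i l hn.1, vL]
      congr 2
      simp [rep]
    · have hbl : b ∈ l := (List.mem_cons.1 h).resolve_left fun h' => hi h'.symm
      rw [vL, An_Cr_ne n b i (fun h' => hi h'.symm), map_neg, Cr_Cr, neg_neg,
        CA_vL a b hb m l hn.2 hbl, List.map_cons, vL]
      congr 2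
      simp [rep, hi]

theorem sum_map_rep_le {a b : ℕ} (hab : a < b) : ∀ l : List ℕ, (l.map (rep a b)).sum ≤ l.sum
  | [] => le_rfl
  | i :: l => by
    rw [List.map_cons, List.sum_cons, List.sum_cons]
    have h1 : rep a b i ≤ i := by
      unfold rep
      split_ifs with h
      · omega
      · exact le_rfl
    exact Nat.add_le_add h1 (sum_map_rep_le hab l)

theorem sum_map_rep_lt {a b : ℕ} (hab : a < b) : ∀ l : List ℕ, b ∈ l →
    (l.map (rep a b)).sum < l.sum
  | [], h => by simp at h
  | i :: l, h => by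
    rw [List.map_cons, List.sum_cons, List.sum_cons]
    by_cases hi : i = b
    · subst hi
      have h1 : rep a i i = a := by simp [rep]
      have h2 := sum_map_rep_le hab l
      rw [h1]
      omega
    · have hbl : b ∈ l := (List.mem_cons.1 h).resolve_left fun h' => hi h'.symm
      have h1 : rep a b i = i := by simp [rep, hi]
      have h2 := sum_map_rep_lt hab l hbl
      rw [h1]
      omega

theorem vL_succ (m : ℂ) : ∀ l : List ℕ, (∀ j ∈ l, j < n) →
    vL ℂ (n + 1) l m = ((vL ℂ n l m, 0) : KT ℂ (n + 1))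
  | [], _ => rfl
  | i :: l, h => by
    have hi : i ≠ n := by have := h i List.mem_cons_self; omega
    rw [vL, vL_succ m l fun j hj => h j (List.mem_cons_of_mem _ hj), Cr_ne hi, map_zero, neg_zero,
      vL]

/-- the vectors of lists of length `e` -/
def lset (n : ℕ) (e : ℤ) : Set (KT ℂ n) :=
  {x | ∃ l : List ℕ, l.Nodup ∧ (∀ j ∈ l, j < n) ∧ (l.length : ℤ) = e ∧ x = vL ℂ n l (1 : ℂ)}

theorem G_span : ∀ (n : ℕ) (e : ℤ), (koszul zop n).G e ≤ Submodule.span ℂ (lset n e)
  | 0, e => by
    intro x hx
    by_cases he : e = 0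
    · subst he
      have h1 : ((1 : ℂ) : KT ℂ 0) ∈ lset 0 0 := ⟨[], List.nodup_nil, by simp, rfl, rfl⟩
      have h2 := Submodule.smul_mem (Submodule.span ℂ (lset 0 0)) (show ℂ from x)
        (Submodule.subset_span h1)
      have h3 : (show ℂ from x) • ((1 : ℂ) : KT ℂ 0) = x := mul_one (show ℂ from x)
      rwa [h3] at h2
    · have : x = 0 := by
        simpa [koszul, he] using hx
      rw [this]
      exact Submodule.zero_mem _
  | n + 1, e => by
    rintro ⟨a, b⟩ hx
    rw [mem_koszul_G_succ] at hx
    have h1 : ∀ a ∈ Submodule.span ℂ (lset n e),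
        ((a, 0) : KT ℂ (n + 1)) ∈ Submodule.span ℂ (lset (n + 1) e) := by
      intro a ha
      have hle : Submodule.span ℂ (lset n e) ≤
          (Submodule.span ℂ (lset (n + 1) e)).comap
            (LinearMap.inl ℂ (KT ℂ n) (KT ℂ n) : KT ℂ n →ₗ[ℂ] KT ℂ (n + 1)) := by
        rw [Submodule.span_le]
        rintro _ ⟨l, hl1, hl2, hl3, rfl⟩
        have h4 : ((vL ℂ n l (1 : ℂ), 0) : KT ℂ (n + 1)) ∈ Submodule.span ℂ (lset (n + 1) e) := by
          rw [← vL_succ 1 l hl2]
          exact Submodule.subset_span ⟨l, hl1, fun j hj => by have := hl2 j hj; omega, hl3, rfl⟩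
        exact h4
      exact hle ha
    have h2 : ∀ b ∈ Submodule.span ℂ (lset n (e - 1)),
        ((0, b) : KT ℂ (n + 1)) ∈ Submodule.span ℂ (lset (n + 1) e) := by
      intro b hb
      have hle : Submodule.span ℂ (lset n (e - 1)) ≤
          (Submodule.span ℂ (lset (n + 1) e)).comap
            (LinearMap.inr ℂ (KT ℂ n) (KT ℂ n) : KT ℂ n →ₗ[ℂ] KT ℂ (n + 1)) := by
        rw [Submodule.span_le]
        rintro _ ⟨l, hl1, hl2, hl3, rfl⟩
        have h3 : ((0, vL ℂ n l (1 : ℂ)) : KT ℂ (n + 1)) = vL ℂ (n + 1) (n :: l) (1 : ℂ) := by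
          rw [vL, vL_succ 1 l hl2, Cr_self]
        suffices h5 : vL ℂ (n + 1) (n :: l) (1 : ℂ) ∈ Submodule.span ℂ (lset (n + 1) e) by
          rw [← h3] at h5
          exact h5
        refine Submodule.subset_span ⟨n :: l, ?_, ?_, ?_, rfl⟩
        · rw [List.nodup_cons]
          exact ⟨fun h' => by have := hl2 n h'; omega, hl1⟩
        · intro j hj
          rcases List.mem_cons.1 hj with rfl | hj
          · omega
          · have := hl2 j hj; omega
        · rw [List.length_cons]
          push_cast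
          rw [hl3]
          ring
      exact hle hb
    have h3 : ((a, b) : KT ℂ (n + 1)) = (a, 0) + (0, b) := by
      show ((a, b) : KT ℂ n × KT ℂ n) = (a + 0, 0 + b)
      rw [add_zero, zero_add]
    rw [h3]
    exact Submodule.add_mem _ (h1 a (G_span n e hx.1)) (h2 b (G_span n (e - 1) hx.2))

end lists

variable {n : ℕ} {G : Submodule ℂ (Mat n)}

/-- Every exterior product of basis vectors is separated by a weight, or obtained by elements of
the Lie algebra from its images under raising elements. -/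
def Crit (n : ℕ) (G : Submodule ℂ (Mat n)) : Prop :=
  ∀ l : List ℕ, l.Nodup → (∀ j ∈ l, j < n) → (∃ a, GWt n G a l) ∨
    vL ℂ n l (1 : ℂ) ∈ Submodule.span ℂ {x | ∃ A ∈ G, ∃ B ∈ G, IsUpp B ∧
      x = dG ℂ ℂ A (dG ℂ ℂ B (vL ℂ n l (1 : ℂ)))}

theorem GWt.perm {a : Fin n → ℝ} {l l' : List ℕ} (h : GWt n G a l) (hp : l.Perm l') :
    GWt n G a l' where
  nodup := hp.nodup_iff.1 h.nodup
  lt := fun j hj => h.lt j (hp.mem_iff.2 hj)
  mem := h.mem
  part := h.part
  pos := fun j hj => h.pos j (hp.mem_iff.2 hj)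
  neg := fun j hj => h.neg j (fun h' => hj (hp.mem_iff.1 h'))
  upp := h.upp

open Classical in
/-- the separated sets with `i` elements -/
def FF (n : ℕ) (G : Submodule ℂ (Mat n)) (i : ℕ) : Finset (Finset ℕ) :=
  ((range n).powerset).filter fun K => K.card = i ∧ ∃ a, GWt n G a K.toList

open Classical in
theorem mem_FF {i : ℕ} {K : Finset ℕ} : K ∈ FF n G i ↔
    K ⊆ range n ∧ K.card = i ∧ ∃ a, GWt n G a K.toList := by
  unfold FF
  rw [mem_filter, mem_powerset]

theorem G_le_sup' (hG : Alg n G) (hC : Crit n G) (i : ℕ) :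
    (koszul zop n).G (i : ℤ) ≤ (FF n G i).sup fun K => GLam n G K.toList := by
  classical
  set W := (FF n G i).sup fun K => GLam n G K.toList with hW
  have hst : ∀ A ∈ G, ∀ x ∈ W, dG ℂ ℂ A x ∈ W := by
    intro A hA x hx
    have hle : W ≤ W.comap (dG ℂ ℂ A) := by
      refine Finset.sup_le fun K hK x hx => ?_
      obtain ⟨a, ha⟩ := (mem_FF.1 hK).2.2
      exact (Finset.le_sup (f := fun K : Finset ℕ => GLam n G K.toList) hK)
        (GLam_stable hG ha hA hx)
    exact hle hx
  have key : ∀ N : ℕ, ∀ l : List ℕ, l.sum = N → l.Nodup → (∀ j ∈ l, j < n) → l.length = i →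
      vL ℂ n l (1 : ℂ) ∈ W := by
    intro N
    induction N using Nat.strong_induction_on with
    | _ N ih =>
      intro l hN hnd hlt hlen
      rcases hC l hnd hlt with ⟨a, ha⟩ | hspan
      · have hp : l.Perm l.toFinset.toList := by
          rw [List.perm_ext_iff_of_nodup hnd (Finset.nodup_toList _)]
          intro j
          rw [Finset.mem_toList, List.mem_toFinset]
        have ha' := ha.perm hp
        have hK : l.toFinset ∈ FF n G i := by
          rw [mem_FF]
          refine ⟨fun j hj => mem_range.2 (hlt j (List.mem_toFinset.1 hj)), ?_, a, ha'⟩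
          rw [List.toFinset_card_of_nodup hnd, hlen]
        have h1 : vL ℂ n l.toFinset.toList (1 : ℂ) ∈ W :=
          (Finset.le_sup (f := fun K : Finset ℕ => GLam n G K.toList) hK) vL_mem_GLam
        rcases vL_perm (n := n) (1 : ℂ) hp with h2 | h2
        · rwa [h2]
        · rw [h2]
          exact Submodule.neg_mem _ h1
      · refine (Submodule.span_le.2 ?_) hspan
        rintro _ ⟨A, hA, B, hB, hU, rfl⟩
        refine hst A hA _ ?_
        rw [dG_apply]
        refine Submodule.sum_mem _ fun p _ => Submodule.sum_mem _ fun q _ => ?_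
        by_cases hpq : B p q = 0
        · rw [hpq, zero_smul]
          exact Submodule.zero_mem _
        · have hlt' : (p : ℕ) < (q : ℕ) := by
            by_contra hc
            exact hpq (hU p q (not_lt.1 hc))
          refine Submodule.smul_mem _ _ ?_
          by_cases hq : (q : ℕ) ∈ l
          · rw [CA_vL (p : ℕ) (q : ℕ) q.2 1 l hnd hq]
            by_cases hnd' : (l.map (rep p q)).Nodup
            · refine ih _ ?_ _ rfl hnd' ?_ (by rw [List.length_map, hlen])
              · rw [← hN]
                exact sum_map_rep_lt hlt' l hq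
              · intro j hj
                obtain ⟨k, hk, rfl⟩ := List.mem_map.1 hj
                unfold rep
                split_ifs
                · exact p.2
                · exact hlt k hk
            · rw [vL_dup 1 _ hnd']
              exact Submodule.zero_mem _
          · rw [An_vL n q 1 l hq, map_zero]
            exact Submodule.zero_mem _
  refine (G_span n i).trans (Submodule.span_le.2 ?_)
  rintro _ ⟨l, h1, h2, h3, rfl⟩
  exact key _ l rfl h1 h2 (by exact_mod_cast h3)

variable {M : Type v} [NormedAddCommGroup M] [InnerProductSpace ℂ M]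
  {X Y : ℕ → M →ₗ[ℂ] M} {r : Mat n → M →ₗ[ℂ] M}

/-- **The lower bound.** -/
theorem gchoose_le [FiniteDimensional ℂ M] [Nontrivial M] (hG : Alg n G) (hC : Crit n G)
    (h : GAct n G X r)
    (hXY : ∀ (j : Fin n) (a b : M), inner ℂ (X j a) b = inner ℂ a (Y j b)) (i : ℕ) :
    n.choose i ≤ Module.finrank ℂ (Hm n X Y (i : ℤ)) := by
  classical
  rw [← finrank_GC]
  refine (Submodule.finrank_mono (G_le_sup' hG hC i)).trans ?_
  refine (finrank_sup_le_sum _ _).trans ?_
  exact sum_GLam_le_Hm hG h hXY i _ fun K hK => (mem_FF.1 hK).2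

end

end Pool.Agent.E8helper43.BE
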