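import Pool.Agent.E8helper43.BE.Span
import Pool.Agent.E8helper43.BE.Comb

set_option autoImplicit false

/-!
# The Lie algebra of `GL_a × GL_b` acting on matrices
-/

namespace Pool.Agent.E8helper43.BE

open Pool.Agent.W650 Pool.Agent.E8helper33.BE Finset

noncomputable section

variable {a b : ℕ}

/-- the row of an index -/
def rw' (i : Fin (a * b)) : Fin a := (finProdFinEquiv.symm i).1

/-- the column of an index -/
def cl' (i : Fin (a * b)) : Fin b := (finProdFinEquiv.symm i).2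

/-- the index of a position -/
def ix (x : Fin a) (y : Fin b) : Fin (a * b) := finProdFinEquiv (x, y)

theorem rw_ix (x : Fin a) (y : Fin b) : rw' (ix x y) = x := by
  unfold rw' ix
  rw [Equiv.symm_apply_apply]

theorem cl_ix (x : Fin a) (y : Fin b) : cl' (ix x y) = y := by
  unfold cl' ix
  rw [Equiv.symm_apply_apply]

theorem ix_eta (i : Fin (a * b)) : ix (rw' i) (cl' i) = i := by
  unfold rw' cl' ix
  rw [Prod.mk.eta, Equiv.apply_symm_apply]

theorem val_ix (x : Fin a) (y : Fin b) : ((ix x y : Fin (a * b)) : ℕ) = (y : ℕ) + b * (x : ℕ) := rfl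

theorem ix_inj {x x' : Fin a} {y y' : Fin b} (h : ix x y = ix x' y') : x = x' ∧ y = y' := by
  have := finProdFinEquiv.injective h
  exact ⟨congrArg Prod.fst this, congrArg Prod.snd this⟩

theorem sum_ix {V : Type*} [AddCommMonoid V] (f : Fin (a * b) → V) :
    ∑ i, f i = ∑ x : Fin a, ∑ y : Fin b, f (ix x y) := by
  rw [← (finProdFinEquiv (m := a) (n := b)).sum_comp f, Fintype.sum_prod_type]
  rfl

/-- the matrix `A ⊗ 1 + 1 ⊗ B` -/
def tens (A : Matrix (Fin a) (Fin a) ℂ) (B : Matrix (Fin b) (Fin b) ℂ) : Mat (a * b) :=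
  fun i j => (if cl' i = cl' j then A (rw' i) (rw' j) else 0) +
    (if rw' i = rw' j then B (cl' i) (cl' j) else 0)

theorem tens_ix (A : Matrix (Fin a) (Fin a) ℂ) (B : Matrix (Fin b) (Fin b) ℂ) (x x' : Fin a)
    (y y' : Fin b) : tens A B (ix x y) (ix x' y') =
      (if y = y' then A x x' else 0) + (if x = x' then B y y' else 0) := by
  unfold tens
  rw [rw_ix, rw_ix, cl_ix, cl_ix]

theorem ext_ix {C D : Mat (a * b)} (h : ∀ x y x' y', C (ix x y) (ix x' y') = D (ix x y) (ix x' y')) :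
    C = D := by
  ext i j
  rw [← ix_eta i, ← ix_eta j]
  exact h _ _ _ _

theorem tens_mul_sub (A A' : Matrix (Fin a) (Fin a) ℂ) (B B' : Matrix (Fin b) (Fin b) ℂ) :
    tens A B * tens A' B' - tens A' B' * tens A B = tens (A * A' - A' * A) (B * B' - B' * B) := by
  have key : ∀ (A A' : Matrix (Fin a) (Fin a) ℂ) (B B' : Matrix (Fin b) (Fin b) ℂ) (x x' : Fin a)
      (y y' : Fin b), (tens A B * tens A' B') (ix x y) (ix x' y') =
      (if y = y' then (A * A') x x' else 0) + (if x = x' then (B * B') y y' else 0) +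
        (A x x' * B' y y' + A' x x' * B y y') := by
    intro A A' B B' x x' y y'
    rw [Matrix.mul_apply, sum_ix]
    have h0 : ∀ (p : Prop) [Decidable p] (u v : ℂ), (if p then u + v else 0) =
        (if p then u else 0) + (if p then v else 0) := by
      intro p _ u v
      split_ifs <;> simp
    simp only [tens_ix, add_mul, mul_add, ite_mul, zero_mul, mul_ite, mul_zero]
    simp only [h0, sum_add_distrib]
    have e1 : ∑ u : Fin a, ∑ v : Fin b, (if v = y' then if y = v then A x u * A' u x' else 0 else 0) =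
        if y = y' then (A * A') x x' else 0 := by
      simp only [sum_ite_eq', mem_univ, if_true]
      split_ifs
      · rw [Matrix.mul_apply]
      · simp
    have e2 : ∑ u : Fin a, ∑ v : Fin b, (if v = y' then if x = u then B y v * A' u x' else 0 else 0) =
        A' x x' * B y y' := by
      simp only [sum_ite_eq', mem_univ, if_true, sum_ite_eq]
      ring
    have e3 : ∑ u : Fin a, ∑ v : Fin b, (if u = x' then if y = v then A x u * B' v y' else 0 else 0) =
        A x x' * B' y y' := by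
      rw [sum_comm]
      simp only [sum_ite_eq', mem_univ, if_true, sum_ite_eq]
    have e4 : ∑ u : Fin a, ∑ v : Fin b, (if u = x' then if x = u then B y v * B' v y' else 0 else 0) =
        if x = x' then (B * B') y y' else 0 := by
      rw [sum_comm]
      simp only [sum_ite_eq', mem_univ, if_true]
      split_ifs
      · rw [Matrix.mul_apply]
      · simp
    rw [e1, e2, e3, e4]
    ring
  refine ext_ix fun x y x' y' => ?_
  rw [Matrix.sub_apply, key, key, tens_ix, Matrix.sub_apply, Matrix.sub_apply]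
  split_ifs <;> ring

theorem tens_conj (A : Matrix (Fin a) (Fin a) ℂ) (B : Matrix (Fin b) (Fin b) ℂ) :
    (tens A B).conjTranspose = tens A.conjTranspose B.conjTranspose := by
  refine ext_ix fun x y x' y' => ?_
  rw [Matrix.conjTranspose_apply, tens_ix, tens_ix, Matrix.conjTranspose_apply,
    Matrix.conjTranspose_apply, star_add]
  congr 1
  · by_cases h : y = y'
    · subst h; simp
    · rw [if_neg h, if_neg (Ne.symm h), star_zero]
  · by_cases h : x = x'
    · subst h; simp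
    · rw [if_neg h, if_neg (Ne.symm h), star_zero]

theorem tens_add (A A' : Matrix (Fin a) (Fin a) ℂ) (B B' : Matrix (Fin b) (Fin b) ℂ) :
    tens A B + tens A' B' = tens (A + A') (B + B') := by
  refine ext_ix fun x y x' y' => ?_
  rw [Matrix.add_apply, tens_ix, tens_ix, tens_ix, Matrix.add_apply, Matrix.add_apply]
  split_ifs <;> ring

theorem tens_smul (c : ℂ) (A : Matrix (Fin a) (Fin a) ℂ) (B : Matrix (Fin b) (Fin b) ℂ) :
    c • tens A B = tens (c • A) (c • B) := by
  refine ext_ix fun x y x' y' => ?_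
  rw [Matrix.smul_apply, tens_ix, tens_ix, Matrix.smul_apply, Matrix.smul_apply, smul_add]
  congr 1 <;> split_ifs <;> simp

theorem part_tens (p : Fin (a * b) → Fin (a * b) → Prop) [∀ i j, Decidable (p i j)]
    (pA : Fin a → Fin a → Prop) [∀ i j, Decidable (pA i j)]
    (pB : Fin b → Fin b → Prop) [∀ i j, Decidable (pB i j)]
    (hA : ∀ x x' y, p (ix x y) (ix x' y) ↔ pA x x') (hB : ∀ x y y', p (ix x y) (ix x y') ↔ pB y y')
    (A : Matrix (Fin a) (Fin a) ℂ) (B : Matrix (Fin b) (Fin b) ℂ) :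
    part p (tens A B) = tens (part pA A) (part pB B) := by
  refine ext_ix fun x y x' y' => ?_
  rw [tens_ix]
  show (if p (ix x y) (ix x' y') then tens A B (ix x y) (ix x' y') else 0) =
    (if y = y' then (if pA x x' then A x x' else 0) else 0) +
      (if x = x' then (if pB y y' then B y y' else 0) else 0)
  rw [tens_ix]
  by_cases hx : x = x'
  · subst hx
    by_cases hy : y = y'
    · subst hy
      by_cases hp : p (ix x y) (ix x y)
      · rw [if_pos hp, if_pos ((hA x x y).1 hp), if_pos ((hB x y y).1 hp)]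
      · rw [if_neg hp, if_neg (fun h => hp ((hA x x y).2 h)), if_neg (fun h => hp ((hB x y y).2 h))]
        simp
    · rw [if_neg hy, if_neg hy, if_pos rfl, if_pos rfl, zero_add, zero_add]
      by_cases hp : p (ix x y) (ix x y')
      · rw [if_pos hp, if_pos ((hB x y y').1 hp)]
      · rw [if_neg hp, if_neg (fun h => hp ((hB x y y').2 h))]
  · rw [if_neg hx, if_neg hx, add_zero, add_zero]
    by_cases hy : y = y'
    · subst hy
      rw [if_pos rfl, if_pos rfl]
      by_cases hp : p (ix x y) (ix x' y)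
      · rw [if_pos hp, if_pos ((hA x x' y).1 hp)]
      · rw [if_neg hp, if_neg (fun h => hp ((hA x x' y).2 h))]
    · rw [if_neg hy, if_neg hy, ite_self]

/-- the Lie algebra `gl_a ⊕ gl_b` acting on `ℂ^a ⊗ ℂ^b` -/
def GG (a b : ℕ) : Submodule ℂ (Mat (a * b)) where
  carrier := {C | ∃ A B, C = tens A B}
  add_mem' := by
    rintro _ _ ⟨A, B, rfl⟩ ⟨A', B', rfl⟩
    exact ⟨_, _, tens_add A A' B B'⟩
  zero_mem' := ⟨0, 0, by
    refine ext_ix fun x y x' y' => ?_
    rw [tens_ix]
    simp⟩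
  smul_mem' := by
    rintro c _ ⟨A, B, rfl⟩
    exact ⟨_, _, tens_smul c A B⟩

theorem mem_GG {C : Mat (a * b)} : C ∈ GG a b ↔ ∃ A B, C = tens A B := Iff.rfl

theorem ix_lt_row {x x' : Fin a} {y : Fin b} : ix x y < ix x' y ↔ x < x' := by
  rw [Fin.lt_def, Fin.lt_def, val_ix, val_ix]
  have hb : 0 < b := y.pos
  constructor
  · intro h
    by_contra hc
    have := Nat.mul_le_mul_left b (not_lt.1 hc)
    omega
  · intro h
    have := Nat.mul_lt_mul_of_pos_left h hb
    omega

theorem ix_lt_col {x : Fin a} {y y' : Fin b} : ix x y < ix x y' ↔ y < y' := by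
  rw [Fin.lt_def, Fin.lt_def, val_ix, val_ix]
  omega

theorem alg_GG (a b : ℕ) : Alg (a * b) (GG a b) where
  lie := by
    rintro _ ⟨A, B, rfl⟩ _ ⟨A', B', rfl⟩
    exact ⟨_, _, tens_mul_sub A A' B B'⟩
  conj := by
    rintro _ ⟨A, B, rfl⟩
    exact ⟨_, _, tens_conj A B⟩
  low := by
    rintro _ ⟨A, B, rfl⟩
    exact ⟨_, _, part_tens (fun i j => j < i) (fun i j => j < i) (fun i j => j < i)
      (fun _ _ _ => ix_lt_row) (fun _ _ _ => ix_lt_col) A B⟩
  dia := by
    rintro _ ⟨A, B, rfl⟩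
    exact ⟨_, _, part_tens (fun i j => i = j) (fun i j => i = j) (fun i j => i = j)
      (fun _ _ _ => ⟨fun h => (ix_inj h).1, fun h => by rw [h]⟩)
      (fun _ _ _ => ⟨fun h => (ix_inj h).2, fun h => by rw [h]⟩) A B⟩
  upp := by
    rintro _ ⟨A, B, rfl⟩
    exact ⟨_, _, part_tens (fun i j => i < j) (fun i j => i < j) (fun i j => i < j)
      (fun _ _ _ => ix_lt_row) (fun _ _ _ => ix_lt_col) A B⟩

/-- the weights of a diagram -/
theorem gwt_young {l : List ℕ} (hnd : l.Nodup) (hlt : ∀ j ∈ l, j < a * b) (ρ : Fin a → ℤ)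
    (κ : Fin b → ℤ)
    (h1 : ∀ x y, ((ix x y : Fin (a * b)) : ℕ) ∈ l ↔ ((y : ℕ) : ℤ) < ρ x)
    (h2 : ∀ x y, ((ix x y : Fin (a * b)) : ℕ) ∈ l ↔ ((x : ℕ) : ℤ) < κ y)
    (hρ0 : ∀ x, 0 ≤ ρ x) (hρb : ∀ x, ρ x ≤ b) :
    ∃ w, GWt (a * b) (GG a b) w l := by
  have hanti : ∀ x x' : Fin a, x ≤ x' → ρ x' ≤ ρ x := by
    intro x x' hx
    by_contra hcon
    push Not at hcon
    have h0 := hρ0 x
    have hb := hρb x'
    have hy : (ρ x).toNat < b := by omega
    have hyc : (((⟨(ρ x).toNat, hy⟩ : Fin b) : ℕ) : ℤ) = ρ x := by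
      show (((ρ x).toNat : ℕ) : ℤ) = ρ x
      omega
    have e1 := (h1 x' ⟨(ρ x).toNat, hy⟩).2 (by rw [hyc]; exact hcon)
    have e2 := (h2 x' ⟨(ρ x).toNat, hy⟩).1 e1
    have e3 := (h2 x ⟨(ρ x).toNat, hy⟩).2 (by
      have : ((x : ℕ) : ℤ) ≤ ((x' : ℕ) : ℤ) := by exact_mod_cast hx
      omega)
    have e4 := (h1 x ⟨(ρ x).toNat, hy⟩).1 e3
    rw [hyc] at e4
    exact lt_irrefl _ e4
  let s : Fin a → ℝ := fun x => (ρ x : ℝ) - (x : ℕ) / (2 * ((a : ℝ) + 1))
  let t : Fin b → ℝ := fun y => -((y : ℕ) : ℝ) - 1 / 2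
  have hs : ∀ x x' : Fin a, x < x' → s x' < s x := by
    intro x x' hx
    have e1 : (ρ x' : ℝ) ≤ (ρ x : ℝ) := by exact_mod_cast hanti x x' hx.le
    have e2 : (((x : ℕ) : ℝ)) / (2 * ((a : ℝ) + 1)) < ((x' : ℕ) : ℝ) / (2 * ((a : ℝ) + 1)) := by
      apply div_lt_div_of_pos_right
      · exact_mod_cast hx
      · positivity
    show (ρ x' : ℝ) - (x' : ℕ) / (2 * ((a : ℝ) + 1)) < (ρ x : ℝ) - (x : ℕ) / (2 * ((a : ℝ) + 1))
    linarith
  have ht : ∀ y y' : Fin b, y < y' → t y' < t y := by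
    intro y y' hy
    have e1 : ((y : ℕ) : ℝ) < ((y' : ℕ) : ℝ) := by exact_mod_cast hy
    show -((y' : ℕ) : ℝ) - 1 / 2 < -((y : ℕ) : ℝ) - 1 / 2
    linarith
  have hfrac : ∀ x : Fin a, 0 ≤ ((x : ℕ) : ℝ) / (2 * ((a : ℝ) + 1)) ∧
      ((x : ℕ) : ℝ) / (2 * ((a : ℝ) + 1)) < 1 / 2 := by
    intro x
    refine ⟨by positivity, ?_⟩
    rw [div_lt_div_iff₀ (by positivity) (by norm_num)]
    have : ((x : ℕ) : ℝ) < a := by exact_mod_cast x.2
    linarith
  let w : Fin (a * b) → ℝ := fun i => s (rw' i) + t (cl' i)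
  have hw : ∀ x y, w (ix x y) = s x + t y := fun x y => by
    show s (rw' (ix x y)) + t (cl' (ix x y)) = _
    rw [rw_ix, cl_ix]
  have hmem : dm w = tens (dm s) (dm t) := by
    refine ext_ix fun x y x' y' => ?_
    rw [tens_ix]
    unfold dm
    rw [Matrix.diagonal_apply, Matrix.diagonal_apply, Matrix.diagonal_apply]
    by_cases hx : x = x'
    · subst hx
      by_cases hy : y = y'
      · subst hy
        simp [hw]
      · have : ix x y ≠ ix x y' := fun h => hy (ix_inj h).2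
        simp [this, hy]
    · have : ix x y ≠ ix x' y' := fun h => hx (ix_inj h).1
      simp [this, hx]
  refine ⟨w, hnd, hlt, ⟨_, _, hmem⟩, ?_, ?_, ?_, ?_⟩
  · rintro d _ ⟨A, B, rfl⟩
    classical
    refine ⟨_, _, part_tens (fun i j => w i - w j = d) (fun i j => s i - s j = d)
      (fun i j => t i - t j = d) (fun x x' y => ?_) (fun x y y' => ?_) A B⟩
    · rw [hw, hw]
      constructor <;> intro h <;> linarith
    · rw [hw, hw]
      constructor <;> intro h <;> linarith
  · intro j hj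
    rw [← ix_eta j] at hj ⊢
    rw [hw]
    have h3 := (h1 _ _).1 hj
    have h4 : (((cl' j : Fin b) : ℕ) : ℝ) + 1 ≤ (ρ (rw' j) : ℝ) := by exact_mod_cast h3
    have h5 := (hfrac (rw' j)).2
    show 0 < (ρ (rw' j) : ℝ) - ((rw' j : Fin a) : ℕ) / (2 * ((a : ℝ) + 1)) +
      (-(((cl' j : Fin b) : ℕ) : ℝ) - 1 / 2)
    linarith
  · intro j hj
    rw [← ix_eta j] at hj ⊢
    rw [hw]
    have h3 := fun h => hj ((h1 _ _).2 h)
    have h4 : (ρ (rw' j) : ℝ) ≤ (((cl' j : Fin b) : ℕ) : ℝ) := by exact_mod_cast not_lt.1 h3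
    have h5 := (hfrac (rw' j)).1
    show (ρ (rw' j) : ℝ) - ((rw' j : Fin a) : ℕ) / (2 * ((a : ℝ) + 1)) +
      (-(((cl' j : Fin b) : ℕ) : ℝ) - 1 / 2) < 0
    linarith
  · rintro _ ⟨A, B, rfl⟩ hU i j hij
    have hlt' : i < j := by
      by_contra hc
      exact hij (hU i j (not_lt.1 hc))
    rw [← ix_eta i, ← ix_eta j] at hij hlt' ⊢
    rw [tens_ix] at hij
    rw [hw, hw]
    by_cases hx : rw' i = rw' j
    · rw [hx] at hlt' ⊢
      have := ht _ _ (ix_lt_col.1 hlt')
      linarith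
    · rw [if_neg hx, add_zero] at hij
      have hy : cl' i = cl' j := by
        by_contra hc
        rw [if_neg hc] at hij
        exact hij rfl
      rw [hy] at hlt' ⊢
      have := hs _ _ (ix_lt_row.1 hlt')
      linarith

end

end Pool.Agent.E8helper43.BE
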